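import Mathlib
import Pool.Agent.Lib.PLS.Rows
import Pool.Agent.Lib.PLS.I
import Pool.Agent.Lib.UP25.Rst

/-!
# T4, stage 3: extensions. Definitions

`H` acts on a plane, all stabilisers of cells are equal to a normal subgroup `M`; the coefficient
ring is `A[M]`.
-/

set_option autoImplicit false
set_option linter.unusedSectionVars false
set_option linter.unusedVariables false

open MonoidAlgebra Pool.Agent.UP Pool.Agent.UPV Pool.Agent.UP25 Pool.Agent.PLS

namespace Pool.Agent.PLX

universe u

/-! ## Planes -/

/-- A cell structure of a plane with a cocompact action of `H` such that the stabilisers of all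
cells are equal to `M` (compare `PlaneCx`, the case `M = 1`). -/
structure PlaneX (H : Type u) [Group H] (M : Subgroup H) (V E F : Type u) [MulAction H V]
    [MulAction H E] [MulAction H F] where
  o : E → V
  t : E → V
  l : E → F
  r : E → F
  s : E → ℤˣ
  ho : ∀ (h : H) (e : E), o (h • e) = h • o e
  ht : ∀ (h : H) (e : E), t (h • e) = h • t e
  hl : ∀ (h : H) (e : E), l (h • e) = h • l e
  hr : ∀ (h : H) (e : E), r (h • e) = h • r e
  hs : ∀ (h : H) (e : E), s (h • e) = s e
  stV : ∀ x : V, MulAction.stabilizer H x = M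
  stE : ∀ x : E, MulAction.stabilizer H x = M
  stF : ∀ x : F, MulAction.stabilizer H x = M
  finV : Finite (MulAction.orbitRel.Quotient H V)
  finE : Finite (MulAction.orbitRel.Quotient H E)
  finF : Finite (MulAction.orbitRel.Quotient H F)
  ne : Nonempty V
  ex0 : ∀ f : V →₀ ℤ, (f.sum fun _ n => n) = 0 →
    ∃ g : E →₀ ℤ, g.mapDomain t - g.mapDomain o = f
  ex1 : ∀ g : E →₀ ℤ, g.mapDomain t = g.mapDomain o →
    ∃ c : F →₀ ℤ, ∀ e, g e = c (l e) - (s e : ℤ) * c (r e)
  bd : ∀ (c : F →₀ ℤ) (g : E →₀ ℤ), (∀ e, g e = c (l e) - (s e : ℤ) * c (r e)) →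
    g.mapDomain t = g.mapDomain o
  connF : ∀ S : Set F, S.Nonempty → (∀ e, l e ∈ S ↔ r e ∈ S) → S = Set.univ

/-- `H` has a normal subgroup `M` which is torsion-free and virtually poly-`ℤ` of length `≤ d`,
`H / M` is infinite and acts freely and cocompactly on a plane; `H` acts with finitely many orbits
on a tree such that the stabilisers of the edges are virtually poly-`ℤ` of length `≤ d` and the
stabilisers of the vertices are finitely generated, torsion-free and act virtually on locally finite
trees with virtually poly-`ℤ` stabilisers of length `≤ d` -/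
def SurfX (d : ℕ) (H : Type u) [Group H] : Prop :=
  (∃ (M : Subgroup H) (_ : M.Normal), (∀ m : M, IsOfFinOrder m → m = 1) ∧ VPZ d M ∧
    Infinite (H ⧸ M) ∧ ∃ (V E F : Type u) (_ : MulAction (H ⧸ M) V) (_ : MulAction (H ⧸ M) E)
      (_ : MulAction (H ⧸ M) F), Nonempty (PlaneCx (H ⧸ M) V E F)) ∧
  ∃ (X : Type u) (_ : MulAction H X) (T : WAct H X), Finite (MulAction.orbitRel.Quotient H T.E) ∧
    (∀ e : T.E, VPZ d (MulAction.stabilizer H e)) ∧
    ∀ x : X, Group.FG (MulAction.stabilizer H x) ∧ VTd d (MulAction.stabilizer H x)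

/-- `H` embeds in a group `SurfX d` -/
def PXd (d : ℕ) (H : Type u) [Group H] : Prop :=
  ∃ (H₀ : Type u) (_ : Group H₀) (φ : H →* H₀), Function.Injective φ ∧ SurfX d H₀

/-- `H` embeds in a (virtually poly-`ℤ`)-by-(surface) group -/
def IsPX (H : Type u) [Group H] : Prop := ∃ d, PXd d H

/-! ## Modules over `A[M]` -/

section
variable {A H : Type u} [CommRing A] [Group H]

/-- all finitely generated `A[M]`-submodules `N` of `K` satisfy `Ext^l(N, A[M]) = 0` for `l < q` -/
def GM (A : Type u) {H : Type u} [CommRing A] [Group H] (M : Subgroup H) (q : ℕ) (K : Type u)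
    [AddCommGroup K] [Module A[H] K] : Prop := Loc A[M] q (Rs M K)

variable {M : Subgroup H} {X : Type u} [MulAction H X] {K : Type u} [AddCommGroup K]
  [Module A[H] K]

theorem fixM (hX : ∀ x : X, MulAction.stabilizer H x = M) (x : X) : ∀ h ∈ M, h • x = x :=
  fun h hh => by
    rw [← hX x] at hh
    exact hh

/-- the member `U x` of a family -/
noncomputable abbrev fb (F : EqFam A H X K) (hX : ∀ x : X, MulAction.stabilizer H x = M) (x : X) :
    Submodule A[M] (Rs M K) := F.loc M x (fixM hX x)

theorem iota_mk (x : X) (hx : ∀ h ∈ M, h • x = x) (r : A[M]) (m : K) :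
    iotaN M r • Tw.mk A H x m = Tw.mk A H x (iotaN M r • m) := by
  induction r using MonoidAlgebra.induction_linear with
  | zero =>
    rw [map_zero, zero_smul, zero_smul]
    exact (Finsupp.single_zero x).symm
  | add y z hy hz => rw [map_add, add_smul, hy, hz, add_smul, Tw.mk_add]
  | single h a =>
    rw [iotaN_single, Tw.single_smul, hx h.1 h.2]

/-- the inclusion of `U x` in the total module -/
noncomputable def mkl (F : EqFam A H X K) (hX : ∀ x : X, MulAction.stabilizer H x = M) (x : X) :
    fb F hX x →ₗ[A[M]] Rs M F.tot where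
  toFun k := toRs M F.tot ⟨Tw.mk A H x ((toRs M K).symm k.1), F.mk_mem k.2⟩
  map_add' a b := by
    rw [← map_add]
    congr 1
    exact Subtype.ext (Tw.mk_add _ _ _ _ _)
  map_smul' r k := by
    rw [RingHom.id_apply, toRs_smul]
    congr 1
    exact Subtype.ext (iota_mk x (fixM hX x) r _).symm

theorem mkl_apply (F : EqFam A H X K) (hX : ∀ x : X, MulAction.stabilizer H x = M) (x : X)
    (k : fb F hX x) : (((toRs M F.tot).symm (mkl F hX x k) : F.tot) : Tw A H X K) =
      Tw.mk A H x ((toRs M K).symm k.1) := rfl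

/-- the coset projection -/
noncomputable def psiL (A : Type u) {H : Type u} [CommRing A] [Group H] (M : Subgroup H) :
    Rs M A[H] →ₗ[A[M]] A[M] where
  toFun s := psiN M ((toRs M A[H]).symm s)
  map_add' a b := by rw [map_add, map_add]
  map_smul' r s := by
    rw [rs_smul, smul_eq_mul, psiN_left]
    rfl

/-- the map into a family of finitely many orbits is determined by the representatives: all
members are finitely generated -/
def AllFG (F : EqFam A H X K) (hX : ∀ x : X, MulAction.stabilizer H x = M) : Prop :=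
  ∀ x, (fb F hX x).FG

end

/-! ## The coefficients of a class -/

section
variable (A H : Type u) [CommRing A] [StarRing A] [Group H] (M : Subgroup H) (q : ℕ)

attribute [local instance] starMA

/-- the natural map `Ext_{A[H]}^q(K, A[H]) → Ext_{A[M]}^q(K, A[M])` (restriction of the scalars and
the coset projection) -/
structure Rho where
  ρ : ∀ (K : Type u) [AddCommGroup K] [Module A[H] K] [Module.FinitePresentation A[H] K],
    Rs M (ES A[H] q K) →ₗ[A[M]] ES A[M] q (Rs M K)
  nat : ∀ (K K' : Type u) [AddCommGroup K] [Module A[H] K] [Module.FinitePresentation A[H] K]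
    [AddCommGroup K'] [Module A[H] K'] [Module.FinitePresentation A[H] K'] (f : K →ₗ[A[H]] K')
    (ξ : ES A[H] q K'),
    ρ K (toRs M _ (esMap q f ξ)) = esMap q (rsMap M f) (ρ K' (toRs M _ ξ))

variable {A H M q} in
/-- the coefficient at `x` -/
noncomputable def Rho.cf (D : Rho A H M q) {X : Type u} [MulAction H X] {K : Type u}
    [AddCommGroup K] [Module A[H] K] (F : EqFam A H X K)
    (hX : ∀ x : X, MulAction.stabilizer H x = M) [Module.FinitePresentation A[H] F.tot] (x : X) :
    Rs M (ES A[H] q F.tot) →ₗ[A[M]] ES A[M] q (fb F hX x) :=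
  (esMap q (mkl F hX x)).comp (D.ρ F.tot)

variable {A H M q} in
/-- the classes of the total modules of families are the families of coefficients with finite
support -/
structure Rho.Good (D : Rho A H M q) : Prop where
  fin : ∀ {X : Type u} [MulAction H X] {K : Type u} [AddCommGroup K] [Module A[H] K]
    (F : EqFam A H X K) (hX : ∀ x : X, MulAction.stabilizer H x = M)
    (_ : Finite (MulAction.orbitRel.Quotient H X)) (_ : AllFG F hX)
    [Module.FinitePresentation A[H] F.tot] (ξ : Rs M (ES A[H] q F.tot)),
    {x | D.cf F hX x ξ ≠ 0}.Finite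
  ext : ∀ {X : Type u} [MulAction H X] {K : Type u} [AddCommGroup K] [Module A[H] K]
    (F : EqFam A H X K) (hX : ∀ x : X, MulAction.stabilizer H x = M)
    (_ : Finite (MulAction.orbitRel.Quotient H X)) (_ : AllFG F hX)
    [Module.FinitePresentation A[H] F.tot] (ξ : Rs M (ES A[H] q F.tot)),
    (∀ x, D.cf F hX x ξ = 0) → ξ = 0
  ind : ∀ {X : Type u} [MulAction H X] {K : Type u} [AddCommGroup K] [Module A[H] K]
    (F : EqFam A H X K) (hX : ∀ x : X, MulAction.stabilizer H x = M)
    (_ : Finite (MulAction.orbitRel.Quotient H X)) (_ : AllFG F hX)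
    [Module.FinitePresentation A[H] F.tot] (x : X) (c : ES A[M] q (fb F hX x)),
    ∃ ξ : Rs M (ES A[H] q F.tot), D.cf F hX x ξ = c ∧ ∀ y, y ≠ x → D.cf F hX y ξ = 0

end

end Pool.Agent.PLX
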