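import Mathlib
import Pool.Agent.Lib.PLX.Defs

/-!
# T4, stage 3: extensions. Statements of the rows
-/

set_option autoImplicit false
set_option linter.unusedSectionVars false
set_option linter.unusedVariables false

open MonoidAlgebra Pool.Agent.UP Pool.Agent.UPV Pool.Agent.UP25 Pool.Agent.PLS

namespace Pool.Agent.PLX

universe u

attribute [local instance] starMA

/-- the formula for `ρ`: for a resolution `P` of `K` over `A[H]`, a projective resolution `Q` of an
`A[M]`-module `U` and a chain map `u : Q → P` over `i : U → K` -/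
def Rho.Fml {A H : Type u} [CommRing A] [StarRing A] [Group H] {M : Subgroup H} {q : ℕ}
    (D : Rho A H M q) : Prop :=
  ∀ (K : Type u) [AddCommGroup K] [Module A[H] K] [Module.FinitePresentation A[H] K]
    (T : RC A[H]) (P : Res T K) (c : T.cy q) (U : Type u) [AddCommGroup U] [Module A[M] U]
    (i : U →ₗ[A[M]] Rs M K) (Q : PR A[M] U) (u : ∀ n, Q.X n →ₗ[A[M]] Rs M (P.toPR.X n)),
    (∀ x, toRs M K (P.ε ((toRs M _).symm (u 0 x))) = i (Q.e x)) →
    (∀ n x, (toRs M _).symm (u n (Q.d n x)) = P.toPR.d n ((toRs M _).symm (u (n + 1) x))) →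
    ∀ hc, esMap q i (D.ρ K (toRs M _ (tCls P q c))) =
      esCls Q q (((psiL A M).comp (rsMap M (tF P q (c : T.ι q → A[H])))).comp (u q)) hc

/-- **ROW RHO1: the natural map exists** -/
def RowRho1 (A H : Type u) [CommRing A] [StarRing A] [Group H] (M : Subgroup H) : Prop :=
  CohT A[H] → ∀ q : ℕ, ∃ D : Rho A H M q, D.Fml

/-- **ROW RHO2: it determines the classes of the total modules** -/
def RowRho2 (A H : Type u) [CommRing A] [StarRing A] [Group H] (M : Subgroup H) : Prop :=
  M.Normal → IsNoetherianRing A[M] → ∀ (q : ℕ) (D : Rho A H M q), D.Fml → D.Good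

/-- **ROW TFP: the total modules are finitely presented** -/
def RowTFP (A H : Type u) [CommRing A] [Group H] (M : Subgroup H) : Prop :=
  IsNoetherianRing A[M] → ∀ (X : Type u) [MulAction H X] (K : Type u) [AddCommGroup K]
    [Module A[H] K] (F : EqFam A H X K) (hX : ∀ x : X, MulAction.stabilizer H x = M),
    Finite (MulAction.orbitRel.Quotient H X) → AllFG F hX → Module.FinitePresentation A[H] F.tot

/-- **ROW GMT: the classes `G_q` of the total modules** -/
def RowGMT (A H : Type u) [CommRing A] [StarRing A] [Group H] (M : Subgroup H) : Prop :=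
  IsNoetherianRing A[M] → AR A[M] → ∀ (q : ℕ) (D : Rho A H M q), D.Good →
    ∀ (X : Type u) [MulAction H X] (K : Type u) [AddCommGroup K] [Module A[H] K]
    (F : EqFam A H X K) (hX : ∀ x : X, MulAction.stabilizer H x = M),
    Finite (MulAction.orbitRel.Quotient H X) → AllFG F hX →
    ((∀ x, Loc A[M] q (fb F hX x)) → GM A M q F.tot) ∧
    ∀ [Module.FinitePresentation A[H] F.tot], GM A M q (ES A[H] q F.tot)

/-- **ROW C (Claim 1)** -/
def RowC (A H : Type u) [CommRing A] [StarRing A] [Group H] (M : Subgroup H) : Prop :=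
  M.Normal → IsNoetherianRing A[M] → AR A[M] → CohT A[H] → ∀ (q : ℕ) (N : Type u)
    [AddCommGroup N] [Module A[H] N] [Module.FinitePresentation A[H] N], GM A M q N →
    GE A[H] q N

/-- **ROW S (the support argument)** -/
def RowS (A H : Type u) [CommRing A] [StarRing A] [Group H] (M : Subgroup H) : Prop :=
  M.Normal → IsNoetherianRing A[M] → AR A[M] → CohT A[H] → Infinite (H ⧸ M) →
    ∀ (q : ℕ) (N : Type u) [AddCommGroup N] [Module A[H] N] [Module.FinitePresentation A[H] N]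
    (L : Submodule A[M] (Rs M N)), L.FG → GM A M q N → Loc A[M] (q + 1) (Rs M N ⧸ L) →
    GE A[H] (q + 1) N

/-- **ROW X (exactness with coefficients in an abelian group)** -/
def RowX {H V E F : Type u} [Group H] {M : Subgroup H} [MulAction H V] [MulAction H E]
    [MulAction H F] (P : PlaneX H M V E F) : Prop :=
  ∀ (K : Type u) [AddCommGroup K],
    (∀ f : V →₀ K, (f.sum fun _ n => n) = 0 → ∃ g : E →₀ K, g.mapDomain P.t - g.mapDomain P.o = f) ∧
    (∀ g : E →₀ K, g.mapDomain P.t = g.mapDomain P.o →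
      ∃ c : F →₀ K, ∀ e, g e = c (P.l e) - (P.s e : ℤ) • c (P.r e)) ∧
    (∀ (c : F →₀ K) (g : E →₀ K), (∀ e, g e = c (P.l e) - (P.s e : ℤ) • c (P.r e)) →
      g.mapDomain P.t = g.mapDomain P.o) ∧
    (Infinite (H ⧸ M) → ∀ c : F →₀ K, (∀ e, c (P.l e) - (P.s e : ℤ) • c (P.r e) = 0) → c = 0)

section maps
variable (A : Type u) {H V E F : Type u} [CommRing A] [Group H] {M : Subgroup H} [MulAction H V]
  [MulAction H E] [MulAction H F] (P : PlaneX H M V E F) (W : Type u) [AddCommGroup W]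
  [Module A[H] W]

/-- the data of the chain complex of the plane with coefficients in `W` -/
structure PMaps where
  ε : Tw A H V W →ₗ[A[H]] W
  d1 : Tw A H E W →ₗ[A[H]] Tw A H V W
  d2 : Tw A H F W →ₗ[A[H]] Tw A H E W
  hε : ∀ (x : V) (w : W), ε (Tw.mk A H x w) = w
  hd1 : ∀ (e : E) (w : W), d1 (Tw.mk A H e w) = Tw.mk A H (P.t e) w - Tw.mk A H (P.o e) w
  hd2 : ∀ (c : Tw A H F W) (e : E), val e (d2 c) = val (P.l e) c - (P.s e : ℤ) • val (P.r e) c

/-- **ROW M (the maps exist)** -/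
def RowM : Prop := Nonempty (PMaps A P W)

/-- **ROW E (exactness of the complex of `A[H]`-modules)** -/
def RowE : Prop := Infinite (H ⧸ M) → ∀ m : PMaps A P W, Function.Surjective m.ε ∧
  (∀ x, m.ε x = 0 ↔ ∃ y, m.d1 y = x) ∧ (∀ x, m.d1 x = 0 ↔ ∃ y, m.d2 y = x) ∧
  Function.Injective m.d2

end maps

/-- lattices -/
structure Latt (A : Type u) {H V E F : Type u} [CommRing A] [Group H] {M : Subgroup H}
    [MulAction H V] [MulAction H E] [MulAction H F] (P : PlaneX H M V E F) (W : Type u)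
    [AddCommGroup W] [Module A[H] W] where
  fV : EqFam A H V W
  fE : EqFam A H E W
  fF : EqFam A H F W
  fgV : AllFG fV P.stV
  fgE : AllFG fE P.stE
  fgF : AllFG fF P.stF
  lo : ∀ e, fE.U e ≤ fV.U (P.o e)
  lt : ∀ e, fE.U e ≤ fV.U (P.t e)
  ll : ∀ e, fF.U (P.l e) ≤ fE.U e
  lr : ∀ e, fF.U (P.r e) ≤ fE.U e

/-- larger lattices -/
def Latt.Le {A : Type u} {H V E F : Type u} [CommRing A] [Group H] {M : Subgroup H}
    [MulAction H V] [MulAction H E] [MulAction H F] {P : PlaneX H M V E F} {W : Type u}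
    [AddCommGroup W] [Module A[H] W] (L L' : Latt A P W) : Prop :=
  (∀ x, L.fV.U x ≤ L'.fV.U x) ∧ (∀ x, L.fE.U x ≤ L'.fE.U x) ∧ ∀ x, L.fF.U x ≤ L'.fF.U x

/-- **ROW L** -/
def RowL (A : Type u) {H V E F : Type u} [CommRing A] [StarRing A] [Group H] {M : Subgroup H}
    [MulAction H V] [MulAction H E] [MulAction H F] (P : PlaneX H M V E F) (W : Type u)
    [AddCommGroup W] [Module A[H] W] : Prop :=
  M.Normal → IsNoetherianRing A[M] → Infinite (H ⧸ M) → Nonempty (Latt A P W) ∧
    ∀ (L : Latt A P W) (sV : Finset (Tw A H V W)) (sE : Finset (Tw A H E W))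
      (sF : Finset (Tw A H F W)), ∃ L' : Latt A P W, L.Le L' ∧ (∀ x ∈ sV, x ∈ L'.fV.tot) ∧
        (∀ x ∈ sE, x ∈ L'.fE.tot) ∧ ∀ x ∈ sF, x ∈ L'.fF.tot

/-- **ROW A (adjacency)** -/
def RowA (A : Type u) {H V E F : Type u} [CommRing A] [StarRing A] [Group H] {M : Subgroup H}
    [MulAction H V] [MulAction H E] [MulAction H F] (P : PlaneX H M V E F) (W : Type u)
    [AddCommGroup W] [Module A[H] W] : Prop :=
  M.Normal → IsNoetherianRing A[M] → AR A[M] → CohT A[H] → Infinite (H ⧸ M) →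
    ∀ (m : PMaps A P W) (L : Latt A P W)
    (h2 : ∀ x ∈ L.fF.tot, m.d2 x ∈ L.fE.tot) (q : ℕ) (N : Type u) [AddCommGroup N] [Module A[H] N]
    (Φ : ES A[H] q L.fF.tot →ₗ[A[H]] N),
    (∀ y : ES A[H] q L.fE.tot, Φ (esMap q (m.d2.restrict h2) y) = 0) →
    ∃ L₀ : Submodule A[M] (Rs M N), L₀.FG ∧ L₀ ≤ LinearMap.range (rsMap M Φ) ∧
      Loc A[M] (q + 1)
        (LinearMap.range (rsMap M Φ) ⧸ L₀.comap (LinearMap.range (rsMap M Φ)).subtype)

/-- **ROW R (the lattice of `Ext^(q+2)`)** -/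
def RowR (A H : Type u) [CommRing A] [StarRing A] [Group H] (M : Subgroup H) : Prop :=
  M.Normal → IsNoetherianRing A[M] → AR A[M] → CohT A[H] → Infinite (H ⧸ M) →
    ∀ (V E F : Type u) [MulAction H V] [MulAction H E] [MulAction H F] (P : PlaneX H M V E F)
    (W : Type u) [AddCommGroup W] [Module A[H] W] [Module.FinitePresentation A[H] W] (q : ℕ),
    GM A M q (ES A[H] (q + 2) W) ∧ ∃ L : Submodule A[M] (Rs M (ES A[H] (q + 2) W)), L.FG ∧
      Loc A[M] (q + 1) (Rs M (ES A[H] (q + 2) W) ⧸ L)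

/-- **ROW AR** -/
def RowAR (A H : Type u) [CommRing A] [StarRing A] [Group H] (M : Subgroup H) : Prop :=
  M.Normal → IsNoetherianRing A[M] → AR A[M] → CohT A[H] → Infinite (H ⧸ M) →
    ∀ (V E F : Type u) [MulAction H V] [MulAction H E] [MulAction H F] (P : PlaneX H M V E F),
    AR1 A[H]

/-- **ROW G (global dimension)** -/
def RowG (A H : Type u) [CommRing A] [Group H] (M : Subgroup H) : Prop :=
  ∀ (n : ℕ), GD A[M] n → Infinite (H ⧸ M) → ∀ (V E F : Type u) [MulAction H V]
    [MulAction H E] [MulAction H F] (P : PlaneX H M V E F), GD A[H] (n + 2)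

/-- **ROW PX: planes of the quotient** -/
def RowPX : Prop :=
  ∀ (H : Type u) [Group H] (M : Subgroup H) (hM : M.Normal) (V E F : Type u)
    [i1 : MulAction (H ⧸ M) V] [i2 : MulAction (H ⧸ M) E] [i3 : MulAction (H ⧸ M) F],
    PlaneCx (H ⧸ M) V E F →
      Nonempty (@PlaneX H _ M V E F (MulAction.compHom V (QuotientGroup.mk' M))
        (MulAction.compHom E (QuotientGroup.mk' M)) (MulAction.compHom F (QuotientGroup.mk' M)))

/-- **ROW EXT: extensions of the groups `Surf` by poly-`ℤ` groups** -/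
def RowExt : Prop :=
  ∀ (d e : ℕ) (H : Type u) [Group H] (M : Subgroup H) (hM : M.Normal), PolyZ e M →
    Surf d (H ⧸ M) → SurfX (d + e) H

/-- **ROW F: the facts for the class `PXd d`** -/
def RowF (A : Type u) [CommRing A] [StarRing A] : Prop :=
  IsNoetherianRing A → AR A → ∀ g, FL A g → ∀ (d : ℕ) (H : Type u) [Group H], PXd d H →
    Facts4 A[H] (g + d + 4)

end Pool.Agent.PLX
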