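import Mathlib
import Pool.Agent.Lib.PLX.Rows
import Pool.Agent.Lib.PLS.X

/-!
# T4, stage 3, row X: exactness with coefficients of the complex of a plane
-/

set_option autoImplicit false

open Pool.Agent.T4S Pool.Agent.PLS

namespace Pool.Agent.PLX

universe u

section
variable {H V E F : Type u} [Group H] {M : Subgroup H} [MulAction H V] [MulAction H E]
  [MulAction H F]

/-- an equivariant map of sets with equal stabilisers, the first one with finitely many orbits, has
finite fibres -/
theorem finite_fibreX (hE : Finite (MulAction.orbitRel.Quotient H E))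
    (stE : ∀ x : E, MulAction.stabilizer H x = M) (stF : ∀ x : F, MulAction.stabilizer H x = M)
    (l : E → F) (hl : ∀ (h : H) (e : E), l (h • e) = h • l e) (f : F) : {e | l e = f}.Finite := by
  classical
  have hinj : Set.InjOn (fun e : E => (Quotient.mk'' e : MulAction.orbitRel.Quotient H E))
      {e | l e = f} := by
    intro e he e' he' h
    have h1 : MulAction.orbitRel H E e e' := Quotient.exact h
    obtain ⟨g, hg⟩ := MulAction.orbitRel_apply.1 h1
    have h2 : g • e' = e := hg
    have h3 : g • f = f := by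
      have h4 : l (g • e') = g • l e' := hl g e'
      rw [h2] at h4
      have h5 : l e = f := he
      have h6 : l e' = f := he'
      rw [h5, h6] at h4
      exact h4.symm
    have h4 : g ∈ MulAction.stabilizer H e' := by
      rw [stE e', ← stF f]
      exact h3
    rw [← h2]
    exact h4
  exact Set.Finite.of_finite_image (Set.toFinite _) hinj

/-- **ROW X** -/
theorem rowX (P : PlaneX H M V E F) : RowX P := by
  classical
  intro K _
  have e0 : ∀ (K : Type u) [AddCommGroup K] (g : E →₀ K),
      bd1 P.o P.t K g = g.mapDomain P.t - g.mapDomain P.o := fun K _ g => rfl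
  have e0Z : ∀ (g : E →₀ ℤ), bd1 P.o P.t ℤ g = g.mapDomain P.t - g.mapDomain P.o := fun g => rfl
  have h0 : ∀ f : V →₀ ℤ, (f.sum fun _ n => n) = 0 → ∃ g : E →₀ ℤ, bd1 P.o P.t ℤ g = f :=
    fun f hf => P.ex0 f hf
  have h1 : ∀ g : E →₀ ℤ, bd1 P.o P.t ℤ g = 0 → ∃ c : F →₀ ℤ, IsBdS P.l P.r P.s c g := by
    intro g hg
    obtain ⟨c, hc⟩ := P.ex1 g (sub_eq_zero.1 ((e0Z g).symm.trans hg))
    exact ⟨c, fun e => by rw [hc e, smul_eq_mul]⟩
  have h2 : ∀ (c : F →₀ ℤ) (g : E →₀ ℤ), IsBdS P.l P.r P.s c g → bd1 P.o P.t ℤ g = 0 := by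
    intro c g h
    rw [e0Z, P.bd c g (fun e => by rw [h e, smul_eq_mul]), sub_self]
  have hl := finite_fibreX P.finE P.stE P.stF P.l P.hl
  have hr := finite_fibreX P.finE P.stE P.stF P.r P.hr
  refine ⟨fun f hf => coef0 P.o P.t P.ne h0 f hf, fun g hg => ?_, fun c g hc => ?_,
    fun hH c hc => ?_⟩
  · exact coefS1 P.o P.t P.l P.r P.s h0 h1 g (by rw [e0, hg, sub_self])
  · have h3 := coefS1' P.o P.t P.l P.r P.s hl hr h2 c g hc
    rw [e0] at h3
    exact sub_eq_zero.1 h3
  · by_contra hne
    have h3 : ∀ e, c (P.l e) = (P.s e : ℤ) • c (P.r e) := fun e => sub_eq_zero.1 (hc e)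
    have h4 : ∀ (n : ℤˣ) (k : K), (n : ℤ) • k = 0 ↔ k = 0 := by
      intro n k
      rcases Int.units_eq_one_or n with h | h
      · rw [h]; simp
      · rw [h]; simp
    obtain ⟨f0, hf0⟩ : ∃ f, c f ≠ 0 := by
      by_contra hcon
      push Not at hcon
      exact hne (Finsupp.ext hcon)
    have h5 := P.connF {f | c f ≠ 0} ⟨f0, hf0⟩ (fun e => by
      change c (P.l e) ≠ 0 ↔ c (P.r e) ≠ 0
      rw [h3 e, Ne, h4, Ne])
    have h6 : (Set.univ : Set F).Finite := by
      rw [← h5]
      exact c.support.finite_toSet.subset fun f hf =>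
        Finset.mem_coe.2 (Finsupp.mem_support_iff.2 hf)
    have h7 : Finite F := Set.finite_univ_iff.1 h6
    have h8 : Function.Injective (fun q : H ⧸ M => q.out • f0) := by
      intro a b hab
      have h9 : a.out • f0 = b.out • f0 := hab
      have h10 : (b.out⁻¹ * a.out) ∈ MulAction.stabilizer H f0 := by
        rw [MulAction.mem_stabilizer_iff, mul_smul, h9, inv_smul_smul]
      rw [P.stF f0] at h10
      rw [← QuotientGroup.out_eq' a, ← QuotientGroup.out_eq' b]
      exact (QuotientGroup.eq.2 h10).symm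
    exact (Finite.of_injective _ h8).false

end

end Pool.Agent.PLX
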