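import Mathlib
import Pool.Agent.Lib.PLX.Rows
import Pool.Agent.Lib.PLX.X
import Pool.Agent.Lib.PLS.A

/-!
# T4, stage 3: the classes with one coefficient (helper23)

For `D.Good` the classes of the total module of a family are the families of coefficients with
finite support; `idx x c` is the class with the coefficient `c` at `x`.
-/

set_option autoImplicit false
set_option linter.unusedSectionVars false
set_option linter.unusedVariables false

open MonoidAlgebra Pool.Agent.UP Pool.Agent.UPV Pool.Agent.UP25 Pool.Agent.PLS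

namespace Pool.Agent.PLX

universe u

attribute [local instance] starMA

section idx
variable {A H : Type u} [CommRing A] [StarRing A] [Group H] {M : Subgroup H} {q : ℕ}
  {D : Rho A H M q} (hD : D.Good) {X : Type u} [MulAction H X] {K : Type u} [AddCommGroup K]
  [Module A[H] K] (F : EqFam A H X K) (hX : ∀ x : X, MulAction.stabilizer H x = M)
  (hf : Finite (MulAction.orbitRel.Quotient H X)) (hfg : AllFG F hX)
  [Module.FinitePresentation A[H] F.tot]

include hD hf hfg in
theorem Rho.Good.ext' {ξ ξ' : Rs M (ES A[H] q F.tot)}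
    (h : ∀ x, D.cf F hX x ξ = D.cf F hX x ξ') : ξ = ξ' := by
  rw [← sub_eq_zero]
  exact hD.ext F hX hf hfg _ fun x => by rw [map_sub, h x, sub_self]

/-- the class with the coefficient `c` at `x` -/
noncomputable def idx (x : X) : ES A[M] q (fb F hX x) →ₗ[A[M]] Rs M (ES A[H] q F.tot) where
  toFun c := (hD.ind F hX hf hfg x c).choose
  map_add' c c' := by
    have h := (hD.ind F hX hf hfg x c).choose_spec
    have h' := (hD.ind F hX hf hfg x c').choose_spec
    have h'' := (hD.ind F hX hf hfg x (c + c')).choose_spec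
    refine hD.ext' F hX hf hfg fun y => ?_
    by_cases hy : y = x
    · subst hy
      rw [map_add, h.1, h'.1, h''.1]
    · rw [map_add, h.2 y hy, h'.2 y hy, h''.2 y hy, add_zero]
  map_smul' r c := by
    have h := (hD.ind F hX hf hfg x c).choose_spec
    have h'' := (hD.ind F hX hf hfg x (r • c)).choose_spec
    refine hD.ext' F hX hf hfg fun y => ?_
    by_cases hy : y = x
    · subst hy
      rw [map_smul, h.1, h''.1]
      rfl
    · rw [map_smul, h.2 y hy, h''.2 y hy]
      exact (smul_zero r).symm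

theorem cf_idx (x : X) (c : ES A[M] q (fb F hX x)) :
    D.cf F hX x (idx hD F hX hf hfg x c) = c := (hD.ind F hX hf hfg x c).choose_spec.1

theorem cf_idx_ne {x y : X} (h : y ≠ x) (c : ES A[M] q (fb F hX x)) :
    D.cf F hX y (idx hD F hX hf hfg x c) = 0 := (hD.ind F hX hf hfg x c).choose_spec.2 y h

theorem idx_sum (ξ : Rs M (ES A[H] q F.tot)) :
    ξ = ∑ x ∈ (hD.fin F hX hf hfg ξ).toFinset, idx hD F hX hf hfg x (D.cf F hX x ξ) := by
  refine hD.ext' F hX hf hfg fun y => ?_
  rw [map_sum]
  by_cases hy : D.cf F hX y ξ = 0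
  · rw [hy]
    refine (Finset.sum_eq_zero fun x hx => ?_).symm
    refine cf_idx_ne hD F hX hf hfg (fun h => ?_) _
    subst h
    exact ((hD.fin F hX hf hfg ξ).mem_toFinset.1 hx) hy
  · rw [Finset.sum_eq_single y]
    · rw [cf_idx]
    · intro x _ hx
      exact cf_idx_ne hD F hX hf hfg (Ne.symm hx) _
    · intro h
      exact absurd ((hD.fin F hX hf hfg ξ).mem_toFinset.2 hy) h

theorem range_le_iSup_idx {Y : Type u} [AddCommGroup Y] [Module A[M] Y]
    (Φ : Rs M (ES A[H] q F.tot) →ₗ[A[M]] Y) :
    ∀ y ∈ LinearMap.range Φ, y ∈ ⨆ x : X, LinearMap.range (Φ.comp (idx hD F hX hf hfg x)) := by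
  rintro _ ⟨ξ, rfl⟩
  rw [idx_sum hD F hX hf hfg ξ, map_sum]
  exact Submodule.sum_mem _ fun x _ => Submodule.mem_iSup_of_mem x ⟨_, rfl⟩

end idx

section map
variable {A H : Type u} [CommRing A] [StarRing A] [Group H] {M : Subgroup H} {q : ℕ}
  (D : Rho A H M q) {X : Type u} [MulAction H X] {K : Type u} [AddCommGroup K]
  [Module A[H] K] (F : EqFam A H X K) (hX : ∀ x : X, MulAction.stabilizer H x = M)
  [Module.FinitePresentation A[H] F.tot] {Y : Type u} [MulAction H Y] {K' : Type u}
  [AddCommGroup K'] [Module A[H] K'] (G : EqFam A H Y K')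
  (hY : ∀ x : Y, MulAction.stabilizer H x = M) [Module.FinitePresentation A[H] G.tot]

/-- the coefficients of the image of a class -/
theorem cf_esMap (d : F.tot →ₗ[A[H]] G.tot) (ξ : ES A[H] q G.tot) (x : X) :
    D.cf F hX x (toRs M _ (esMap q d ξ)) =
      esMap q ((rsMap M d).comp (mkl F hX x)) (D.ρ G.tot (toRs M _ ξ)) := by
  unfold Rho.cf
  rw [LinearMap.comp_apply, D.nat, esMap_comp]

theorem esMap_mkl_comp {U : Type u} [AddCommGroup U] [Module A[M] U] (y : Y)
    (i : U →ₗ[A[M]] fb G hY y) (ξ : Rs M (ES A[H] q G.tot)) :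
    esMap q ((mkl G hY y).comp i) (D.ρ G.tot ξ) = esMap q i (D.cf G hY y ξ) := by
  rw [esMap_comp]
  rfl

end map

/-- the map `esMap` of a sum -/
theorem esMap_sum {R : Type u} [Ring R] [StarRing R] {W W' : Type u} [AddCommGroup W]
    [Module R W] [AddCommGroup W'] [Module R W'] (p : ℕ) {ι : Type*} (S : Finset ι)
    (f : ι → (W →ₗ[R] W')) (x : ES R p W') :
    esMap p (∑ i ∈ S, f i) x = ∑ i ∈ S, esMap p (f i) x := by
  let φ : (W →ₗ[R] W') →+ ES R p W :=
    { toFun := fun f => esMap p f x
      map_zero' := esMap_zero p x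
      map_add' := fun f g => esMap_add p f g x }
  exact map_sum φ f S

section inc
variable {A H : Type u} [CommRing A] [Group H] {M : Subgroup H} {X Y : Type u} [MulAction H X]
  [MulAction H Y] {K : Type u} [AddCommGroup K] [Module A[H] K]
  (F : EqFam A H X K) (hX : ∀ x : X, MulAction.stabilizer H x = M)
  (G : EqFam A H Y K) (hY : ∀ x : Y, MulAction.stabilizer H x = M)

/-- the inclusion of members -/
noncomputable def inc (x : X) (y : Y) (h : F.U x ≤ G.U y) : fb F hX x →ₗ[A[M]] fb G hY y :=
  Submodule.inclusion (p := fb F hX x) (p' := fb G hY y) fun _ hk => h hk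

theorem inc_injective (x : X) (y : Y) (h : F.U x ≤ G.U y) :
    Function.Injective (inc F hX G hY x y h) := Submodule.inclusion_injective _

theorem val_mkl_same (x : X) (k : fb F hX x) :
    val x (((toRs M F.tot).symm (mkl F hX x k) : F.tot) : Tw A H X K) = (toRs M K).symm k.1 := by
  rw [mkl_apply, val_mk_same]

theorem val_mkl_ne {x y : X} (h : x ≠ y) (k : fb F hX x) :
    val y (((toRs M F.tot).symm (mkl F hX x k) : F.tot) : Tw A H X K) = 0 := by
  rw [mkl_apply, val_mk_ne h]

open Classical in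
/-- the inclusion of `U x` in the member at `y`, if `p` -/
noncomputable def pinc (x : X) (y : Y) (p : Prop) (h : p → F.U x ≤ G.U y) :
    fb F hX x →ₗ[A[M]] Rs M G.tot :=
  if hp : p then (mkl G hY y).comp (inc F hX G hY x y (h hp)) else 0

theorem pinc_pos (x : X) (y : Y) (p : Prop) (h : p → F.U x ≤ G.U y) (hp : p) :
    pinc F hX G hY x y p h = (mkl G hY y).comp (inc F hX G hY x y (h hp)) := by
  unfold pinc
  rw [dif_pos hp]

theorem pinc_neg (x : X) (y : Y) (p : Prop) (h : p → F.U x ≤ G.U y) (hp : ¬ p) :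
    pinc F hX G hY x y p h = 0 := by
  unfold pinc
  rw [dif_neg hp]

/-- the value as an element of `K` -/
noncomputable def rval (y : Y) : Rs M G.tot →+ K :=
  (val (A := A) (H := H) (K := K) y).comp
    ((Submodule.subtype G.tot).toAddMonoidHom.comp (toRs M G.tot).symm.toAddMonoidHom)

theorem rval_ext {z z' : Rs M G.tot} (h : ∀ y, rval G y z = rval G y z') : z = z' :=
  (toRs M G.tot).symm.injective (Subtype.ext (tw_ext h))

theorem rval_pinc_same (x : X) (y : Y) (p : Prop) (h : p → F.U x ≤ G.U y) (hp : p)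
    (k : fb F hX x) : rval G y (pinc F hX G hY x y p h k) = (toRs M K).symm k.1 := by
  rw [pinc_pos _ _ _ _ _ _ _ _ hp]
  exact val_mkl_same G hY y _

theorem rval_pinc_not (x : X) (y z : Y) (p : Prop) (h : p → F.U x ≤ G.U y) (hp : ¬ p)
    (k : fb F hX x) : rval G z (pinc F hX G hY x y p h k) = 0 := by
  rw [pinc_neg _ _ _ _ _ _ _ _ hp]
  exact map_zero _

theorem rval_pinc_ne (x : X) {y z : Y} (hy : y ≠ z) (p : Prop) (h : p → F.U x ≤ G.U y)
    (k : fb F hX x) : rval G z (pinc F hX G hY x y p h k) = 0 := by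
  by_cases hp : p
  · rw [pinc_pos _ _ _ _ _ _ _ _ hp]
    exact val_mkl_ne G hY hy _
  · exact rval_pinc_not F hX G hY x y z p h hp k

end inc

end Pool.Agent.PLX
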