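import Mathlib
import Pool.Agent.Lib.PLX.Idx

/-!
# T4, stage 3, row A: adjacency (helper23)

The image of `Φ` is the sum of the finitely generated `A[M]`-modules `B_f`, `f` a face; the two
sides of an edge give `B_l`, `B_r` which agree modulo `G_(q+1)`.
-/

set_option autoImplicit false
set_option linter.unusedSectionVars false
set_option linter.unusedVariables false

open MonoidAlgebra Pool.Agent.UP Pool.Agent.UPV Pool.Agent.UP25 Pool.Agent.PLS Pool.Agent.PLS.Ax

namespace Pool.Agent.PLX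

universe u

attribute [local instance] starMA

section adj
variable {A : Type u} {H V E F : Type u} [CommRing A] [StarRing A] [Group H] {M : Subgroup H}
  [MulAction H V] [MulAction H E] [MulAction H F] {P : PlaneX H M V E F} {W : Type u}
  [AddCommGroup W] [Module A[H] W] (m : PMaps A P W) (L : Latt A P W)
  (h2 : ∀ x ∈ L.fF.tot, m.d2 x ∈ L.fE.tot)

/-- `W_(l e) ≤ W_e` -/
noncomputable def xincL (e : E) : fb L.fF P.stF (P.l e) →ₗ[A[M]] fb L.fE P.stE e :=
  inc L.fF P.stF L.fE P.stE (P.l e) e (L.ll e)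

/-- `W_(r e) ≤ W_e` -/
noncomputable def xincR (e : E) : fb L.fF P.stF (P.r e) →ₗ[A[M]] fb L.fE P.stE e :=
  inc L.fF P.stF L.fE P.stE (P.r e) e (L.lr e)

/-- the part of `d2` at the face `f` and the edge `e`, left side -/
noncomputable def pL (f : F) (e : E) : fb L.fF P.stF f →ₗ[A[M]] Rs M L.fE.tot :=
  pinc L.fF P.stF L.fE P.stE f e (P.l e = f) fun h => h ▸ L.ll e

/-- the part of `d2` at the face `f` and the edge `e`, right side -/
noncomputable def pR (f : F) (e : E) : fb L.fF P.stF f →ₗ[A[M]] Rs M L.fE.tot :=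
  pinc L.fF P.stF L.fE P.stE f e (P.r e = f) fun h => h ▸ L.lr e

/-- the values of the map `d2` on a member -/
theorem rval_d2 (f : F) (e : E) (k : fb L.fF P.stF f) :
    rval L.fE e (((rsMap M (m.d2.restrict h2)).comp (mkl L.fF P.stF f)) k) =
      val (P.l e) (Tw.mk A H f ((toRs M W).symm k.1)) -
        (P.s e : ℤ) • val (P.r e) (Tw.mk A H f ((toRs M W).symm k.1)) :=
  m.hd2 (Tw.mk A H f ((toRs M W).symm k.1)) e

theorem rval_pL (f : F) (e : E) (k : fb L.fF P.stF f) :
    rval L.fE e (pL L f e k) = val (P.l e) (Tw.mk A H f ((toRs M W).symm k.1)) := by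
  by_cases h : P.l e = f
  · subst h
    rw [val_mk_same]
    exact rval_pinc_same _ _ _ _ _ _ _ _ rfl k
  · rw [val_mk_ne (Ne.symm h)]
    exact rval_pinc_not _ _ _ _ _ _ _ _ _ h k

theorem rval_pR (f : F) (e : E) (k : fb L.fF P.stF f) :
    rval L.fE e (pR L f e k) = val (P.r e) (Tw.mk A H f ((toRs M W).symm k.1)) := by
  by_cases h : P.r e = f
  · subst h
    rw [val_mk_same]
    exact rval_pinc_same _ _ _ _ _ _ _ _ rfl k
  · rw [val_mk_ne (Ne.symm h)]
    exact rval_pinc_not _ _ _ _ _ _ _ _ _ h k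

theorem rval_pL_ne (f : F) {e e' : E} (h : e ≠ e') (k : fb L.fF P.stF f) :
    rval L.fE e' (pL L f e k) = 0 := rval_pinc_ne _ _ _ _ _ h _ _ k

theorem rval_pR_ne (f : F) {e e' : E} (h : e ≠ e') (k : fb L.fF P.stF f) :
    rval L.fE e' (pR L f e k) = 0 := rval_pinc_ne _ _ _ _ _ h _ _ k

/-- the edges of a face -/
noncomputable def eds (L : Latt A P W) (f : F) : Finset E := by
  classical
  exact (finite_fibreX P.finE P.stE P.stF P.l P.hl f).toFinset ∪
    (finite_fibreX P.finE P.stE P.stF P.r P.hr f).toFinset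

theorem not_mem_eds (f : F) (e : E) (h : e ∉ eds L f) : P.l e ≠ f ∧ P.r e ≠ f := by
  classical
  unfold eds at h
  rw [Finset.mem_union, Set.Finite.mem_toFinset, Set.Finite.mem_toFinset, not_or] at h
  exact h

/-- the map `d2` on a member -/
theorem d2_mkl (f : F) : (rsMap M (m.d2.restrict h2)).comp (mkl L.fF P.stF f) =
    ∑ e ∈ eds L f, (pL L f e - (P.s e : ℤ) • pR L f e) := by
  refine LinearMap.ext fun k => rval_ext L.fE fun e => ?_
  rw [rval_d2, LinearMap.sum_apply, map_sum]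
  have h0 : ∀ e' : E, rval L.fE e ((pL L f e' - (P.s e' : ℤ) • pR L f e') k) =
      rval L.fE e (pL L f e' k) - (P.s e' : ℤ) • rval L.fE e (pR L f e' k) := fun e' => by
    rw [LinearMap.sub_apply, LinearMap.smul_apply, map_sub, map_zsmul]
  rw [Finset.sum_congr rfl fun e' _ => h0 e']
  by_cases he : e ∈ eds L f
  · rw [Finset.sum_eq_single e, rval_pL, rval_pR]
    · intro e' _ hne
      rw [rval_pL_ne L f hne, rval_pR_ne L f hne, smul_zero, sub_zero]
    · intro h
      exact absurd he h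
  · rw [Finset.sum_eq_zero]
    · obtain ⟨h1, h3⟩ := not_mem_eds L f e he
      rw [val_mk_ne (Ne.symm h1), val_mk_ne (Ne.symm h3), smul_zero, sub_zero]
    · intro e' he'
      have hne : e' ≠ e := fun h => he (h ▸ he')
      rw [rval_pL_ne L f hne, rval_pR_ne L f hne, smul_zero, sub_zero]

variable {q : ℕ} {D : Rho A H M q} (hD : D.Good) [Module.FinitePresentation A[H] L.fF.tot]
  [Module.FinitePresentation A[H] L.fE.tot]

/-- the coefficient at `f` of the image of the class with the coefficient `c` at `e` -/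
theorem cf_d2 (e : E) (c : ES A[M] q (fb L.fE P.stE e)) (f : F) :
    D.cf L.fF P.stF f (toRs M _ (esMap q (m.d2.restrict h2)
      ((toRs M _).symm (idx hD L.fE P.stE P.finE L.fgE e c)))) =
    esMap q (pL L f e) (D.ρ L.fE.tot (idx hD L.fE P.stE P.finE L.fgE e c)) -
      (P.s e : ℤ) • esMap q (pR L f e) (D.ρ L.fE.tot (idx hD L.fE P.stE P.finE L.fgE e c)) := by
  rw [cf_esMap, d2_mkl, esMap_sum, AddEquiv.apply_symm_apply]
  have hz : ∀ (e' : E) (i : fb L.fF P.stF f →ₗ[A[M]] fb L.fE P.stE e'), e' ≠ e →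
      esMap q ((mkl L.fE P.stE e').comp i)
        (D.ρ L.fE.tot (idx hD L.fE P.stE P.finE L.fgE e c)) = 0 := by
    intro e' i hne
    rw [esMap_mkl_comp, cf_idx_ne hD L.fE P.stE P.finE L.fgE hne, map_zero]
  have hL : ∀ e' : E, e' ≠ e → esMap q (pL L f e')
      (D.ρ L.fE.tot (idx hD L.fE P.stE P.finE L.fgE e c)) = 0 := by
    intro e' hne
    by_cases h : P.l e' = f
    · unfold pL
      rw [pinc_pos _ _ _ _ _ _ _ _ h]
      exact hz e' _ hne
    · unfold pL
      rw [pinc_neg _ _ _ _ _ _ _ _ h]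
      exact esMap_zero q _
  have hR : ∀ e' : E, e' ≠ e → esMap q (pR L f e')
      (D.ρ L.fE.tot (idx hD L.fE P.stE P.finE L.fgE e c)) = 0 := by
    intro e' hne
    by_cases h : P.r e' = f
    · unfold pR
      rw [pinc_pos _ _ _ _ _ _ _ _ h]
      exact hz e' _ hne
    · unfold pR
      rw [pinc_neg _ _ _ _ _ _ _ _ h]
      exact esMap_zero q _
  have h0 : ∀ e' : E, esMap q (pL L f e' - (P.s e' : ℤ) • pR L f e')
      (D.ρ L.fE.tot (idx hD L.fE P.stE P.finE L.fgE e c)) =
      esMap q (pL L f e') (D.ρ L.fE.tot (idx hD L.fE P.stE P.finE L.fgE e c)) -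
      (P.s e' : ℤ) • esMap q (pR L f e')
        (D.ρ L.fE.tot (idx hD L.fE P.stE P.finE L.fgE e c)) := fun e' => by
    rw [esMap_sub, esMap_zsmul]
  rw [Finset.sum_congr rfl fun e' _ => h0 e']
  by_cases he : e ∈ eds L f
  · rw [Finset.sum_eq_single e]
    · intro e' _ hne
      rw [hL e' hne, hR e' hne, smul_zero, sub_zero]
    · intro h
      exact absurd he h
  · rw [Finset.sum_eq_zero]
    · obtain ⟨h1, h3⟩ := not_mem_eds L f e he
      unfold pL pR
      rw [pinc_neg _ _ _ _ _ _ _ _ h1, pinc_neg _ _ _ _ _ _ _ _ h3, esMap_zero, smul_zero,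
        sub_zero]
    · intro e' he'
      have hne : e' ≠ e := fun h => he (h ▸ he')
      rw [hL e' hne, hR e' hne, smul_zero, sub_zero]

theorem esMap_pL (e : E) (c : ES A[M] q (fb L.fE P.stE e)) (f : F) :
    esMap q (pL L f e) (D.ρ L.fE.tot (idx hD L.fE P.stE P.finE L.fgE e c)) =
      D.cf L.fF P.stF f (idx hD L.fF P.stF P.finF L.fgF (P.l e) (esMap q (xincL L e) c)) := by
  by_cases h : P.l e = f
  · subst h
    rw [cf_idx]
    unfold pL
    rw [pinc_pos _ _ _ _ _ _ _ _ rfl, esMap_mkl_comp, cf_idx]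
    rfl
  · rw [cf_idx_ne hD L.fF P.stF P.finF L.fgF (Ne.symm h)]
    unfold pL
    rw [pinc_neg _ _ _ _ _ _ _ _ h]
    exact esMap_zero q _

theorem esMap_pR (e : E) (c : ES A[M] q (fb L.fE P.stE e)) (f : F) :
    esMap q (pR L f e) (D.ρ L.fE.tot (idx hD L.fE P.stE P.finE L.fgE e c)) =
      D.cf L.fF P.stF f (idx hD L.fF P.stF P.finF L.fgF (P.r e) (esMap q (xincR L e) c)) := by
  by_cases h : P.r e = f
  · subst h
    rw [cf_idx]
    unfold pR
    rw [pinc_pos _ _ _ _ _ _ _ _ rfl, esMap_mkl_comp, cf_idx]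
    rfl
  · rw [cf_idx_ne hD L.fF P.stF P.finF L.fgF (Ne.symm h)]
    unfold pR
    rw [pinc_neg _ _ _ _ _ _ _ _ h]
    exact esMap_zero q _

/-- the image of the class with the coefficient `c` at `e` -/
theorem d2_idx (e : E) (c : ES A[M] q (fb L.fE P.stE e)) :
    toRs M _ (esMap q (m.d2.restrict h2)
      ((toRs M _).symm (idx hD L.fE P.stE P.finE L.fgE e c))) =
    idx hD L.fF P.stF P.finF L.fgF (P.l e) (esMap q (xincL L e) c) -
      (P.s e : ℤ) • idx hD L.fF P.stF P.finF L.fgF (P.r e) (esMap q (xincR L e) c) := by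
  refine hD.ext' L.fF P.stF P.finF L.fgF fun f => ?_
  rw [cf_d2, esMap_pL, esMap_pR, map_sub, map_zsmul]

variable {N : Type u} [AddCommGroup N] [Module A[H] N] (Φ : ES A[H] q L.fF.tot →ₗ[A[H]] N)
  (hΦ : ∀ y : ES A[H] q L.fE.tot, Φ (esMap q (m.d2.restrict h2) y) = 0)

/-- the map of the classes with one coefficient -/
noncomputable def xbeta (f : F) : ES A[M] q (fb L.fF P.stF f) →ₗ[A[M]] Rs M N :=
  (rsMap M Φ).comp (idx hD L.fF P.stF P.finF L.fgF f)

include hΦ in
theorem xadj (e : E) (c : ES A[M] q (fb L.fE P.stE e)) :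
    xbeta L hD Φ (P.l e) (esMap q (xincL L e) c) =
      (P.s e : ℤ) • xbeta L hD Φ (P.r e) (esMap q (xincR L e) c) := by
  have h := congrArg (rsMap M Φ) (d2_idx m L h2 hD e c)
  rw [map_sub, map_zsmul] at h
  have h0 : rsMap M Φ (toRs M _ (esMap q (m.d2.restrict h2)
      ((toRs M _).symm (idx hD L.fE P.stE P.finE L.fgE e c)))) = 0 := hΦ _
  rw [h0] at h
  exact (sub_eq_zero.1 h.symm)

end adj

/-! ### The row -/

/-- **Row A.** -/
theorem rowA {A : Type u} {H V E F : Type u} [CommRing A] [StarRing A] [Group H] {M : Subgroup H}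
    [MulAction H V] [MulAction H E] [MulAction H F] {P : PlaneX H M V E F} {W : Type u}
    [AddCommGroup W] [Module A[H] W] (hR1 : RowRho1 A H M) (hR2 : RowRho2 A H M)
    (hT : RowTFP A H M) : RowA A P W := by
  intro hM hN hAR hC hinf m L h2 q N _ _ Φ hΦ
  have := hN
  obtain ⟨D, hFml⟩ := hR1 hC q
  have hD : D.Good := hR2 hM hN q D hFml
  haveI iF : Module.FinitePresentation A[H] L.fF.tot := hT hN F W L.fF P.stF P.finF L.fgF
  haveI iE : Module.FinitePresentation A[H] L.fE.tot := hT hN E W L.fE P.stE P.finE L.fgE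
  haveI fF : ∀ x, Module.Finite A[M] (fb L.fF P.stF x) := fun x =>
    Module.Finite.iff_fg.2 (L.fgF x)
  haveI fE : ∀ x, Module.Finite A[M] (fb L.fE P.stE x) := fun x =>
    Module.Finite.iff_fg.2 (L.fgE x)
  have hr := range_le_iSup_idx hD L.fF P.stF P.finF L.fgF (rsMap M Φ)
  rcases isEmpty_or_nonempty F with hF | ⟨⟨f0⟩⟩
  · refine ⟨⊥, Submodule.fg_bot, bot_le, ?_⟩
    haveI : Subsingleton (LinearMap.range (rsMap M Φ)) := by
      refine ⟨fun a b => ?_⟩
      have h0 : ∀ y ∈ LinearMap.range (rsMap M Φ), y = 0 := fun y hy => by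
        have h1 := hr y hy
        rwa [iSup_of_empty, Submodule.mem_bot] at h1
      exact Subtype.ext ((h0 _ a.2).trans (h0 _ b.2).symm)
    haveI : Subsingleton (LinearMap.range (rsMap M Φ) ⧸
        (⊥ : Submodule A[M] (Rs M N)).comap (LinearMap.range (rsMap M Φ)).subtype) :=
      (Submodule.mkQ_surjective _).subsingleton
    exact loc_subsingleton _
  · let L0 : Submodule A[M] (Rs M N) := LinearMap.range (xbeta L hD Φ f0)
    let Q : F → Submodule A[M] (Rs M N ⧸ L0) := fun f =>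
      LinearMap.range (L0.mkQ.comp (xbeta L hD Φ f))
    have hQ0 : Loc A[M] (q + 1) (Q f0) := by
      haveI : Subsingleton (Q f0) := by
        refine ⟨fun a b => ?_⟩
        have h0 : ∀ y ∈ Q f0, y = 0 := by
          rintro _ ⟨x, rfl⟩
          rw [LinearMap.comp_apply, Submodule.mkQ_apply, Submodule.Quotient.mk_eq_zero]
          exact ⟨x, rfl⟩
        exact Subtype.ext ((h0 _ a.2).trans (h0 _ b.2).symm)
      exact loc_subsingleton _
    have hs : ∀ e : E, (P.s e : ℤ) * (P.s e : ℤ) = 1 := fun e => by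
      rcases Int.units_eq_one_or (P.s e) with h | h <;> rw [h] <;> rfl
    have hQ : ∀ f, Loc A[M] (q + 1) (Q f) := by
      have key := P.connF {f | Loc A[M] (q + 1) (Q f)} ⟨f0, hQ0⟩ fun e => ⟨fun hl => ?_,
        fun hl => ?_⟩
      · intro f
        have : f ∈ {f | Loc A[M] (q + 1) (Q f)} := by
          rw [key]
          exact Set.mem_univ f
        exact this
      · refine loc_range_step _ (LinearMap.range (esMap q (xincR L e))) (Q (P.l e)) ?_
          (loc_coker hAR (xincR L e) (inc_injective _ _ _ _ _ _ _) q) hl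
        rintro _ ⟨c, rfl⟩
        have h1 := xadj m L h2 hD Φ hΦ e c
        have h3 : xbeta L hD Φ (P.r e) (esMap q (xincR L e) c) =
            (P.s e : ℤ) • xbeta L hD Φ (P.l e) (esMap q (xincL L e) c) := by
          rw [h1, smul_smul, hs, one_smul]
        rw [LinearMap.comp_apply, h3, map_zsmul]
        exact (Q (P.l e)).toAddSubgroup.zsmul_mem ⟨esMap q (xincL L e) c, rfl⟩ _
      · refine loc_range_step _ (LinearMap.range (esMap q (xincL L e))) (Q (P.r e)) ?_
          (loc_coker hAR (xincL L e) (inc_injective _ _ _ _ _ _ _) q) hl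
        rintro _ ⟨c, rfl⟩
        have h1 := xadj m L h2 hD Φ hΦ e c
        rw [LinearMap.comp_apply, h1, map_zsmul]
        exact (Q (P.r e)).toAddSubgroup.zsmul_mem ⟨esMap q (xincR L e) c, rfl⟩ _
    refine ⟨L0, ?_, ?_, loc_quot_iSup L0 _ Q hQ hQ0 ?_⟩
    · haveI : Module.Finite A[M] (ES A[M] q (fb L.fF P.stF f0)) := es_finite q
      exact Module.Finite.iff_fg.1 (Module.Finite.range (xbeta L hD Φ f0))
    · exact LinearMap.range_comp_le_range _ _
    · intro y hy
      have h1 := Submodule.mem_map_of_mem (f := L0.mkQ) (hr y hy)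
      rw [Submodule.map_iSup] at h1
      have h3 : ∀ f, Submodule.map L0.mkQ (LinearMap.range (xbeta L hD Φ f)) = Q f := fun f =>
        (LinearMap.range_comp _ _).symm
      have h4 : ∀ f, Submodule.map L0.mkQ (LinearMap.range ((rsMap M Φ).comp
          (idx hD L.fF P.stF P.finF L.fgF f))) = Q f := h3
      rwa [iSup_congr h4] at h1

end Pool.Agent.PLX
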