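import Mathlib
import Pool.Agent.Lib.PLX.Defs

/-!
# T4, stage 3: the family `c L`, `c ∈ H / M`, of a submodule `L` over `A[M]`  (helper13)
-/

set_option autoImplicit false
set_option linter.unusedSectionVars false

open MonoidAlgebra Pool.Agent.UP Pool.Agent.UPV Pool.Agent.UP25 Pool.Agent.PLS

namespace Pool.Agent.PLX

universe u

section
variable {A H : Type u} [CommRing A] [Group H] {M : Subgroup H} {N : Type u} [AddCommGroup N]
  [Module A[H] N]

/-- a submodule over `A[M]` is stable under the scalars -/
theorem smul_mem_of_mem {L : Submodule A[M] (Rs M N)} {x : N} (hx : toRs M N x ∈ L) (n : M)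
    (a : A) : toRs M N ((single (n : H) a : A[H]) • x) ∈ L := by
  have h := L.smul_mem (single n a : A[M]) hx
  rw [toRs_smul, iotaN_single] at h
  exact h

/-- **the family `c L`, `c ∈ H / M`** -/
noncomputable def cfam (L : Submodule A[M] (Rs M N)) : EqFam A H (H ⧸ M) N where
  U c :=
    { carrier := {m | ∀ g : H, (g : H ⧸ M) = c → toRs M N ((single g⁻¹ 1 : A[H]) • m) ∈ L}
      add_mem' := fun {a b} ha hb g hg => by
        rw [smul_add, map_add]
        exact L.add_mem (ha g hg) (hb g hg)
      zero_mem' := fun g _ => by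
        rw [smul_zero, map_zero]
        exact L.zero_mem
      neg_mem' := fun {a} ha g hg => by
        rw [smul_neg, map_neg]
        exact L.neg_mem (ha g hg) }
  mem h a c m hm g hg := by
    have h1 : ((h⁻¹ * g : H) : H ⧸ M) = c := by
      rw [← inv_smul_smul h c, ← hg]
      rfl
    have h2 := hm (h⁻¹ * g) h1
    have h3 := smul_mem_of_mem h2 1 a
    rw [← mul_smul, single_mul_single, OneMemClass.coe_one, one_mul, mul_one, mul_inv_rev,
      inv_inv] at h3
    rw [← mul_smul, single_mul_single, one_mul]
    exact h3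

theorem mem_cfam (L : Submodule A[M] (Rs M N)) (g : H) (m : N) :
    m ∈ (cfam L).U (g : H ⧸ M) ↔ toRs M N ((single g⁻¹ 1 : A[H]) • m) ∈ L := by
  constructor
  · intro h
    exact h g rfl
  · intro h g' hg'
    have h1 : g⁻¹ * g' ∈ M := QuotientGroup.eq.1 hg'.symm
    have h2 := smul_mem_of_mem h ⟨(g⁻¹ * g')⁻¹, M.inv_mem h1⟩ 1
    rw [← mul_smul, single_mul_single, one_mul] at h2
    have e : (g⁻¹ * g')⁻¹ * g⁻¹ = g'⁻¹ := by group
    change toRs M N ((single ((g⁻¹ * g')⁻¹ * g⁻¹) 1 : A[H]) • m) ∈ L at h2
    rwa [e] at h2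

theorem cfam_mono {L L' : Submodule A[M] (Rs M N)} (h : L ≤ L') (c : H ⧸ M) :
    (cfam L).U c ≤ (cfam L').U c := fun _ hm g hg => h (hm g hg)

/-- the stabilisers are equal to `M` -/
theorem stab_quot (hM : M.Normal) (x : H ⧸ M) : MulAction.stabilizer H x = M := by
  induction x using QuotientGroup.induction_on with
  | H g =>
    ext h
    rw [MulAction.mem_stabilizer_iff]
    change ((h * g : H) : H ⧸ M) = (g : H ⧸ M) ↔ h ∈ M
    rw [eq_comm, QuotientGroup.eq]
    constructor
    · intro h1
      have h2 := hM.conj_mem _ h1 g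
      have e : g * (g⁻¹ * (h * g)) * g⁻¹ = h := by group
      rwa [e] at h2
    · intro h1
      have h2 := hM.conj_mem _ h1 g⁻¹
      have e : g⁻¹ * h * g⁻¹⁻¹ = g⁻¹ * (h * g) := by group
      rwa [e] at h2

/-- one orbit -/
theorem fin_orb_quot (M : Subgroup H) : Finite (MulAction.orbitRel.Quotient H (H ⧸ M)) := by
  have h : Subsingleton (MulAction.orbitRel.Quotient H (H ⧸ M)) := by
    constructor
    intro x y
    induction x using Quotient.inductionOn with
    | h x =>
      induction y using Quotient.inductionOn with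
      | h y =>
        refine Quotient.sound ?_
        change x ∈ MulAction.orbit H y
        induction x using QuotientGroup.induction_on with
        | H a =>
          induction y using QuotientGroup.induction_on with
          | H b =>
            refine ⟨a * b⁻¹, ?_⟩
            change ((a * b⁻¹ * b : H) : H ⧸ M) = (a : H ⧸ M)
            rw [inv_mul_cancel_right]
  exact Finite.of_subsingleton

/-- the member at `c` -/
theorem mem_fb {X : Type u} [MulAction H X] {K : Type u} [AddCommGroup K] [Module A[H] K]
    (F : EqFam A H X K) (hX : ∀ x : X, MulAction.stabilizer H x = M) (x : X) (k : K) :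
    toRs M K k ∈ fb F hX x ↔ k ∈ F.U x := Iff.rfl

/-- `g y` is in the span of `g s` for all `y` in the span of `s` -/
theorem smul_span (hM : M.Normal) (s : Set (Rs M N)) (g : H) {y : Rs M N}
    (hy : y ∈ Submodule.span A[M] s) :
    toRs M N ((single g 1 : A[H]) • (toRs M N).symm y) ∈
      Submodule.span A[M] ((fun y : Rs M N => toRs M N ((single g 1 : A[H]) •
        (toRs M N).symm y)) '' s) := by
  induction hy using Submodule.span_induction with
  | mem x hx => exact Submodule.subset_span ⟨x, hx, rfl⟩
  | zero =>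
    rw [map_zero, smul_zero, map_zero]
    exact Submodule.zero_mem _
  | add x y _ _ hx hy =>
    rw [map_add, smul_add, map_add]
    exact Submodule.add_mem _ hx hy
  | smul r x _ hx =>
    rw [rs_smul]
    induction r using MonoidAlgebra.induction_linear with
    | zero =>
      rw [map_zero, zero_smul, smul_zero, map_zero]
      exact Submodule.zero_mem _
    | add r t hr ht =>
      rw [map_add, add_smul, smul_add, map_add]
      exact Submodule.add_mem _ hr ht
    | single n a =>
      have h1 := smul_mem_of_mem hx ⟨g * n * g⁻¹, hM.conj_mem _ n.2 g⟩ a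
      rw [← mul_smul, single_mul_single, mul_one] at h1
      have e : g * (n : H) * g⁻¹ * g = g * n := by group
      change toRs M N ((single (g * (n : H) * g⁻¹ * g) a : A[H]) • (toRs M N).symm x) ∈ _ at h1
      rw [e] at h1
      rw [iotaN_single, ← mul_smul, single_mul_single, one_mul]
      exact h1

/-- the members are finitely generated -/
theorem cfam_fg (hM : M.Normal) {L : Submodule A[M] (Rs M N)} (hL : L.FG) :
    AllFG (cfam L) (stab_quot hM) := by
  classical
  intro c
  obtain ⟨s, hs⟩ := hL
  induction c using QuotientGroup.induction_on with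
  | H g =>
    refine ⟨s.image fun y : Rs M N => toRs M N ((single g 1 : A[H]) • (toRs M N).symm y), ?_⟩
    rw [Finset.coe_image]
    refine le_antisymm ?_ ?_
    · rw [Submodule.span_le]
      rintro z ⟨y, hy, rfl⟩
      change (single g 1 : A[H]) • (toRs M N).symm y ∈ (cfam L).U (g : H ⧸ M)
      rw [mem_cfam, ← mul_smul, single_mul_single, inv_mul_cancel, one_mul, ← one_def, one_smul,
        ← hs]
      exact Submodule.subset_span hy
    · intro z hz
      have h1 : (toRs M N).symm z ∈ (cfam L).U (g : H ⧸ M) := hz
      rw [mem_cfam, ← hs] at h1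
      have h2 := smul_span hM (s : Set (Rs M N)) g h1
      rw [AddEquiv.symm_apply_apply, ← mul_smul, single_mul_single, mul_inv_cancel, one_mul,
        ← one_def, one_smul, AddEquiv.apply_symm_apply] at h2
      exact h2

/-- the sum of the values -/
noncomputable def csum (F : EqFam A H (H ⧸ M) N) : F.tot →ₗ[A[H]] N :=
  (Tw.lift A H (fun _ : H ⧸ M => AddMonoidHom.id N) fun _ _ _ _ => rfl).comp F.tot.subtype

theorem csum_mk (F : EqFam A H (H ⧸ M) N) (c : H ⧸ M) (m : N) (hm : m ∈ F.U c) :
    csum F ⟨Tw.mk A H c m, F.mk_mem hm⟩ = m :=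
  Tw.lift_mk A H (fun _ : H ⧸ M => AddMonoidHom.id N) (fun _ _ _ _ => rfl) c m

/-- it is surjective if `L` generates -/
theorem csum_surj {L : Submodule A[M] (Rs M N)} (s : Set N)
    (hs : Submodule.span A[H] s = ⊤) (hL : ∀ x ∈ s, toRs M N x ∈ L) :
    Function.Surjective (csum (cfam L)) := by
  rw [← LinearMap.range_eq_top, eq_top_iff, ← hs, Submodule.span_le]
  intro x hx
  have h1 : x ∈ (cfam L).U ((1 : H) : H ⧸ M) := by
    rw [mem_cfam, inv_one, ← one_def, one_smul]
    exact hL x hx
  exact ⟨_, csum_mk (cfam L) _ x h1⟩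

end

end Pool.Agent.PLX
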