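import Mathlib
import Pool.Agent.Lib.PLX.Rows
import Pool.Agent.Lib.PLX.CFam
import Pool.Agent.Lib.UP.F5b
import Pool.Agent.Lib.UP.U1

/-!
# T4, stage 3, row C (Claim 1): `Ext^l(N, A[H]) = 0` for `l < q` if `N` is in `G_q`  (helper13)
-/

set_option autoImplicit false
set_option linter.unusedSectionVars false

open MonoidAlgebra Pool.Agent.UP Pool.Agent.UPV Pool.Agent.UP25 Pool.Agent.PLS

namespace Pool.Agent.PLX

universe u

attribute [local instance] starMA

section
variable {A H : Type u} [CommRing A] [StarRing A] [Group H] {M : Subgroup H}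

/-- vanishing of the classes of the total module -/
theorem es_tot_zero {q : ℕ} (D : Rho A H M q) (hD : D.Good) {X : Type u} [MulAction H X]
    {K : Type u} [AddCommGroup K] [Module A[H] K] (F : EqFam A H X K)
    (hX : ∀ x : X, MulAction.stabilizer H x = M)
    (hf : Finite (MulAction.orbitRel.Quotient H X)) (hF : AllFG F hX)
    [Module.FinitePresentation A[H] F.tot] (h : ∀ x, Subsingleton (ES A[M] q (fb F hX x))) :
    Subsingleton (ES A[H] q F.tot) :=
  ⟨fun x y => by
    have h1 : toRs M (ES A[H] q F.tot) (x - y) = 0 :=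
      hD.ext F hX hf hF _ fun z => (h z).elim _ _
    have h2 : x - y = 0 := h1
    exact sub_eq_zero.1 h2⟩

/-- a finitely generated submodule over `A[M]` which contains generators over `A[H]` -/
theorem exists_lat (M : Subgroup H) (N : Type u) [AddCommGroup N] [Module A[H] N]
    [Module.Finite A[H] N] : ∃ L : Submodule A[M] (Rs M N), L.FG ∧ ∃ s : Set N,
      Submodule.span A[H] s = ⊤ ∧ ∀ x ∈ s, toRs M N x ∈ L := by
  obtain ⟨s, hs⟩ := (Module.Finite.fg_top : (⊤ : Submodule A[H] N).FG)
  exact ⟨Submodule.span A[M] (toRs M N '' (s : Set N)), Submodule.fg_span (s.finite_toSet.image _),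
    s, hs, fun x hx => Submodule.subset_span ⟨x, hx, rfl⟩⟩

/-- the members of `cfam L` are in `G_q` -/
theorem loc_fb {N : Type u} [AddCommGroup N] [Module A[H] N] {q : ℕ} (hN : GM A M q N)
    {X : Type u} [MulAction H X] (F : EqFam A H X N)
    (hX : ∀ x : X, MulAction.stabilizer H x = M) (x : X) : Loc A[M] q (fb F hX x) :=
  Loc.of_injective (fb F hX x).subtype Subtype.val_injective hN

theorem claim1 (h1 : RowRho1 A H M) (h2 : RowRho2 A H M) (h3 : RowTFP A H M)
    (h4 : RowGMT A H M) (hM : M.Normal) (hNo : IsNoetherianRing A[M]) (hAR : AR A[M])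
    (hc : CohT A[H]) (q : ℕ) : ∀ l < q, ∀ (N : Type u) [AddCommGroup N] [Module A[H] N]
    [Module.FinitePresentation A[H] N], GM A M q N → Subsingleton (ES A[H] l N) := by
  have hgood : ∀ q : ℕ, ∃ D : Rho A H M q, D.Good := fun q => by
    obtain ⟨D, hD⟩ := h1 hc q
    exact ⟨D, h2 hM hNo q D hD⟩
  have hfin := fin_orb_quot M
  intro l
  induction l with
  | zero =>
    intro hl N _ _ _ hN
    obtain ⟨L, hL, s, hs, hsL⟩ := exists_lat (A := A) M N
    have hcs := csum_surj s hs hsL
    have hfg := cfam_fg hM hL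
    have : Module.FinitePresentation A[H] (cfam L).tot :=
      h3 hNo (H ⧸ M) N (cfam L) (stab_quot hM) hfin hfg
    obtain ⟨D, hD⟩ := hgood 0
    have h0 : ∀ x, Subsingleton (ES A[M] 0 (fb (cfam L) (stab_quot hM) x)) := fun x => by
      have : Module.Finite A[M] (fb (cfam L) (stab_quot hM) x) := Module.Finite.iff_fg.2 (hfg x)
      exact (Loc.ge (loc_fb hN (cfam L) (stab_quot hM) x)) 0 hl
    have h5 : Subsingleton (ES A[H] 0 (cfam L).tot) :=
      es_tot_zero D hD (cfam L) (stab_quot hM) hfin hfg h0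
    exact (esMap_zero_injective (csum (cfam L)) hcs).subsingleton
  | succ l ih =>
    intro hl N _ _ _ hN
    obtain ⟨L, hL, s, hs, hsL⟩ := exists_lat (A := A) M N
    have hcs := csum_surj s hs hsL
    have hfg := cfam_fg hM hL
    have : Module.FinitePresentation A[H] (cfam L).tot :=
      h3 hNo (H ⧸ M) N (cfam L) (stab_quot hM) hfin hfg
    obtain ⟨D, hD⟩ := hgood (l + 1)
    have h0 : ∀ x, Subsingleton (ES A[M] (l + 1) (fb (cfam L) (stab_quot hM) x)) := fun x => by
      have : Module.Finite A[M] (fb (cfam L) (stab_quot hM) x) := Module.Finite.iff_fg.2 (hfg x)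
      exact (Loc.ge (loc_fb hN (cfam L) (stab_quot hM) x)) (l + 1) hl
    have h5 : Subsingleton (ES A[H] (l + 1) (cfam L).tot) :=
      es_tot_zero D hD (cfam L) (stab_quot hM) hfin hfg h0
    have hKfg : (LinearMap.ker (csum (cfam L))).FG :=
      Module.FinitePresentation.fg_ker (csum (cfam L)) hcs
    have : Module.FinitePresentation A[H] (LinearMap.ker (csum (cfam L))) :=
      fp_submodule hc _ hKfg
    obtain ⟨D', hD'⟩ := hgood q
    have hKq : GM A M q (LinearMap.ker (csum (cfam L))) :=
      Loc.of_injective (rsMap M (LinearMap.ker (csum (cfam L))).subtype)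
        (fun a b hab => Subtype.val_injective hab)
        ((h4 hNo hAR q D' hD' (H ⧸ M) N (cfam L) (stab_quot hM) hfin hfg).1
          fun x => loc_fb hN (cfam L) (stab_quot hM) x)
    have h6 : Subsingleton (ES A[H] l (LinearMap.ker (csum (cfam L)))) :=
      ih (Nat.lt_of_succ_lt hl) (LinearMap.ker (csum (cfam L))) hKq
    have hex : Function.Exact (LinearMap.ker (csum (cfam L))).subtype (csum (cfam L)) := by
      intro x
      constructor
      · intro hx
        exact ⟨⟨x, hx⟩, rfl⟩
      · rintro ⟨y, rfl⟩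
        exact y.2
    have hE := es_exact_right (W := LinearMap.ker (csum (cfam L))) (W' := (cfam L).tot) (W'' := N)
      (LinearMap.ker (csum (cfam L))).subtype (csum (cfam L)) Subtype.val_injective hcs hex l
    have key : ∀ x : ES A[H] (l + 1) N, x = 0 := by
      intro x
      obtain ⟨y, rfl⟩ := (hE x).1 (Subsingleton.elim _ _)
      rw [Subsingleton.elim y 0, map_zero]
    exact ⟨fun x y => (key x).trans (key y).symm⟩

/-- **row C** -/
theorem rowC (h1 : RowRho1 A H M) (h2 : RowRho2 A H M) (h3 : RowTFP A H M)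
    (h4 : RowGMT A H M) : RowC A H M := by
  intro hM hNo hAR hc q N _ _ _ hN l hl
  exact claim1 h1 h2 h3 h4 hM hNo hAR hc q l hl N hN

end

end Pool.Agent.PLX
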