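import Mathlib
import Pool.Agent.Lib.PLX.Rows
import Pool.Agent.Lib.PLS.F

/-!
# T4, stage 3: row F, the facts for the class `PXd d`
-/

set_option autoImplicit false
set_option linter.unusedSectionVars false
set_option linter.unusedVariables false

open MonoidAlgebra Pool.Agent.UP Pool.Agent.UPV Pool.Agent.UP25 Pool.Agent.PLS

namespace Pool.Agent.PLX

universe u

attribute [local instance] starMA

/-- **the facts for the groups `SurfX d`**: coherence, `AR1` and finite global dimension -/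
theorem surfx_facts {A : Type u} [CommRing A] [StarRing A]
    (hAR : ∀ (H : Type u) [Group H] (M : Subgroup H), RowAR A H M)
    (hG : ∀ (H : Type u) [Group H] (M : Subgroup H), RowG A H M)
    (hW : ∀ (H : Type u) [Group H], RowW A H) (hPX : RowPX.{u}) (hN : IsNoetherianRing A)
    (hA : AR A) {g : ℕ} (hg : FL A g) {d : ℕ} {H : Type u} [Group H] (hH : SurfX d H) :
    CohT A[H] ∧ AR1 A[H] ∧ GD A[H] (g + d + 3) := by
  obtain ⟨⟨M, hM, htf, hMd, hinf, V, E, F, i1, i2, i3, ⟨P⟩⟩, X, i4, T, hE, hedge, hvert⟩ := hH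
  have hc : CohT A[H] := hW H X T hE (noeth_edge hA hg T hedge hvert) fun x =>
    ((hvert x).2.facts hA hg (hvert x).1).coh
  obtain ⟨PX⟩ := hPX H M hM V E F P
  obtain ⟨N, hNf, hNd⟩ := hMd
  obtain ⟨n1, n2, n3⟩ := nfacts_virt hA hg d M htf N hNf hNd
  let _ : MulAction H V := MulAction.compHom V (QuotientGroup.mk' M)
  let _ : MulAction H E := MulAction.compHom E (QuotientGroup.mk' M)
  let _ : MulAction H F := MulAction.compHom F (QuotientGroup.mk' M)
  exact ⟨hc, hAR H M hM n1 n2 hc hinf V E F PX, hG H M (g + d + 1) (gd_of_fl n3) hinf V E F PX⟩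

/-- **row F** -/
theorem rowF {A : Type u} [CommRing A] [StarRing A]
    (hAR : ∀ (H : Type u) [Group H] (M : Subgroup H), RowAR A H M)
    (hG : ∀ (H : Type u) [Group H] (M : Subgroup H), RowG A H M)
    (hW : ∀ (H : Type u) [Group H], RowW A H) (hPX : RowPX.{u})
    (hSC : ∀ (H K : Type u) [Group H] [Group K], RowSC A H K)
    (hSF : ∀ (H K : Type u) [Group H] [Group K], RowSF A H K)
    (hSA : ∀ (H K : Type u) [Group H] [Group K], RowSA A H K) : RowF A := by
  intro hN hA g hg d H _ hH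
  obtain ⟨H₀, _, φ, hφ, hS⟩ := hH
  obtain ⟨h1, h2, h3⟩ := surfx_facts hAR hG hW hPX hN hA hg hS
  have h4 : CohT A[H] := hSC H₀ H φ hφ h1
  have h5 : FL A[H] (g + d + 3) := hSF H₀ H φ hφ _ (fl_of_gd h3)
  have h6 : AR1 A[H] := hSA H₀ H φ hφ h1 h2
  exact facts4_of_ar1 h4 h6 h5

end Pool.Agent.PLX
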