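import Mathlib
import Pool.Agent.Lib.PLX.Rows
import Pool.Agent.Lib.PLS.G

/-!
# T4, stage 3, row G: global dimension
-/

set_option autoImplicit false

open MonoidAlgebra Pool.Agent.UP Pool.Agent.UPV Pool.Agent.UP25 Pool.Agent.PLS

namespace Pool.Agent.PLX

universe u

variable {A H : Type u} [CommRing A] [Group H] {M : Subgroup H}

/-- **ROW G** from the rows M and E -/
theorem rowG
    (hM : ∀ {V E F : Type u} [MulAction H V] [MulAction H E] [MulAction H F]
      (P : PlaneX H M V E F) (W : Type u) [AddCommGroup W] [Module A[H] W], RowM A P W)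
    (hE : ∀ {V E F : Type u} [MulAction H V] [MulAction H E] [MulAction H F]
      (P : PlaneX H M V E F) (W : Type u) [AddCommGroup W] [Module A[H] W], RowE A P W) :
    RowG A H M := by
  intro n hn hinf V E F _ _ _ P
  refine gd_step_gen {M} 2 (fun K _ _ hMp => ?_) n (fun S hS => ?_)
  · obtain ⟨m⟩ := hM P K
    obtain ⟨h1, h2, h3, h4⟩ := hE P K hinf m
    have hb := hMp M rfl
    refine pd_three ?_ ?_ ?_ m.ε m.d1 m.d2 h1 h2 h3 h4
    · exact tw_projective V K fun x => by rw [P.stV x]; exact hb
    · exact tw_projective E K fun x => by rw [P.stE x]; exact hb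
    · exact tw_projective F K fun x => by rw [P.stF x]; exact hb
  · rw [Set.mem_singleton_iff.1 hS]
    exact hn

end Pool.Agent.PLX
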