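import Mathlib
import Pool.Agent.Lib.PLX.Rows
import Pool.Agent.Lib.PLS.T
import Pool.Agent.Lib.PLS.IL

/-!
# T4, stage 3, row GMT: the classes `G_q` of the total modules
-/

set_option autoImplicit false
set_option linter.unusedSectionVars false
set_option linter.unusedVariables false

open MonoidAlgebra Pool.Agent.UP Pool.Agent.UPV Pool.Agent.UP25 Pool.Agent.PLS

namespace Pool.Agent.PLX

universe u

/-- a module with jointly injective, pointwise finite coordinates in the class `Loc` -/
theorem loc_family {R : Type u} [Ring R] [IsNoetherianRing R] {q : ℕ} {Y X : Type u}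
    [AddCommGroup Y] [Module R Y] (Z : X → Type u) [∀ x, AddCommGroup (Z x)]
    [∀ x, Module R (Z x)] (e : ∀ x, Y →ₗ[R] Z x) (hfin : ∀ y, {x | e x y ≠ 0}.Finite)
    (hinj : ∀ y, (∀ x, e x y = 0) → y = 0) (hZ : ∀ x, Loc R q (Z x)) {W : Type u}
    [AddCommGroup W] [Module R W] (hW : Loc R q W) : Loc R q Y := by
  classical
  have key : ∀ (S : Finset X) (Y' : Submodule R Y), (∀ y ∈ Y', ∀ x, x ∉ S → e x y = 0) →
      Loc R q Y' := by
    intro S
    induction S using Finset.induction_on with
    | empty =>
      intro Y' h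
      refine loc_of_subsingleton q hW ?_
      rintro ⟨y, hy⟩
      exact Subtype.ext (hinj y fun x => h y hy x (Finset.notMem_empty x))
    | insert a S ha ih =>
      intro Y' h
      have h1 : Loc R q (Y' ⊓ LinearMap.ker (e a) : Submodule R Y) := by
        refine ih _ fun y hy x hx => ?_
        by_cases hxa : x = a
        · subst hxa
          exact hy.2
        · refine h y hy.1 x ?_
          rw [Finset.mem_insert, not_or]
          exact ⟨hxa, hx⟩
      refine Loc.of_exact (Submodule.inclusion (inf_le_left : Y' ⊓ LinearMap.ker (e a) ≤ Y'))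
        ((e a).comp Y'.subtype) ?_ h1 (hZ a)
      rintro ⟨y, hy⟩ hk
      exact ⟨⟨y, hy, hk⟩, rfl⟩
  refine Loc.of_union fun N hN => ⟨N, le_rfl, ?_⟩
  obtain ⟨t, rfl⟩ := hN
  refine key (t.biUnion fun y => (hfin y).toFinset) _ fun y hy x hx => ?_
  have h1 : ∀ z ∈ t, e x z = 0 := by
    intro z hz
    by_contra h
    exact hx (Finset.mem_biUnion.2 ⟨z, hz, (Set.Finite.mem_toFinset _).2 h⟩)
  have h2 : Submodule.span R (t : Set Y) ≤ LinearMap.ker (e x) := by
    rw [Submodule.span_le]
    exact fun z hz => h1 z hz
  exact h2 hy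

section
variable {A H : Type u} [CommRing A] [Group H] {M : Subgroup H} {X : Type u} [MulAction H X]
  {K : Type u} [AddCommGroup K] [Module A[H] K]

theorem val_iota (hX : ∀ x : X, MulAction.stabilizer H x = M) (x : X) (r : A[M])
    (c : Tw A H X K) : val x (iotaN M r • c) = iotaN M r • val x c := by
  induction r using MonoidAlgebra.induction_linear with
  | zero => rw [map_zero, zero_smul, zero_smul, map_zero]
  | add y z hy hz => rw [map_add, add_smul, map_add, hy, hz, add_smul]
  | single m a =>
    rw [iotaN_single, T_val_smul]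
    have h1 : ((m : H)⁻¹) • x = x := fixM hX x _ (M.inv_mem m.2)
    rw [h1]

/-- the value at `x` -/
noncomputable def evl (F : EqFam A H X K) (hX : ∀ x : X, MulAction.stabilizer H x = M) (x : X) :
    Rs M F.tot →ₗ[A[M]] fb F hX x where
  toFun c := ⟨toRs M K (val x ((toRs M F.tot).symm c).1), ((toRs M F.tot).symm c).2 x⟩
  map_add' a b := Subtype.ext (by
    change toRs M K (val x (((toRs M F.tot).symm a).1 + ((toRs M F.tot).symm b).1)) = _
    rw [map_add, map_add]
    rfl)
  map_smul' r c := Subtype.ext (by
    change toRs M K (val x (iotaN M r • ((toRs M F.tot).symm c).1)) = _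
    rw [val_iota hX]
    rfl)

theorem evl_val (F : EqFam A H X K) (hX : ∀ x : X, MulAction.stabilizer H x = M) (x : X)
    (c : F.tot) : (evl F hX x (toRs M F.tot c)).1 = toRs M K (val x c.1) := rfl

end

attribute [local instance] starMA

/-- **ROW GMT** -/
theorem rowGMT (A H : Type u) [CommRing A] [StarRing A] [Group H] (M : Subgroup H) :
    RowGMT A H M := by
  intro hn hA q D hD X _ K _ _ F hX hfin hfg
  obtain ⟨T0, ⟨r0⟩⟩ := exists_res (R := A[M]) PUnit.{u + 1}
  have h0 : Loc A[M] q (T0.E q) := hA T0 r0.ex q
  constructor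
  · intro hL
    refine loc_family (fun x => fb F hX x) (evl F hX) ?_ ?_ hL h0
    · intro c
      refine Set.Finite.subset (((toRs M F.tot).symm c).1 : X →₀ K).hasFiniteSupport ?_
      intro x hx
      rw [Function.mem_support]
      intro h
      apply hx
      exact Subtype.ext (congrArg (toRs M K) h)
    · intro c hc
      apply (toRs M F.tot).symm.injective
      rw [map_zero]
      refine Subtype.ext (tw_ext fun x => ?_)
      have h1 : toRs M K (val x ((toRs M F.tot).symm c).1) = 0 := congrArg Subtype.val (hc x)
      refine ((toRs M K).injective (h1.trans (map_zero _).symm)).trans ?_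
      exact (map_zero (val x)).symm
  · intro _
    refine loc_family (fun x => ES A[M] q (fb F hX x)) (fun x => D.cf F hX x)
      (fun ξ => hD.fin F hX hfin hfg ξ) (fun ξ h => hD.ext F hX hfin hfg ξ h) ?_ h0
    intro x
    have : Module.Finite A[M] (fb F hX x) := Module.Finite.iff_fg.2 (hfg x)
    cases q with
    | zero => exact fun N _ => U1_GE_zero
    | succ p =>
      obtain ⟨T, ⟨r⟩⟩ := exists_res (R := A[M]) (fb F hX x)
      exact loc_es hA r p

end Pool.Agent.PLX
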