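import Mathlib
import Pool.Agent.Lib.PLX.Rows
import Pool.Agent.Lib.PLS.L

/-!
# T4, stage 3: row L (lattices)  (helper93)
-/

set_option autoImplicit false
set_option linter.unusedSectionVars false

open MonoidAlgebra Pool.Agent.UP Pool.Agent.UPV Pool.Agent.UP25 Pool.Agent.PLS

namespace Pool.Agent.PLX

universe u

namespace LX

section
variable {A H : Type u} [CommRing A] [Group H] (M : Subgroup H) {W : Type u} [AddCommGroup W]
  [Module A[H] W]

/-- the action of `g` -/
noncomputable def act (A : Type u) {H : Type u} [CommRing A] [Group H] (M : Subgroup H)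
    (W : Type u) [AddCommGroup W] [Module A[H] W] (g : H) : Rs M W →+ Rs M W where
  toFun k := toRs M W ((single g 1 : A[H]) • (toRs M W).symm k)
  map_zero' := by rw [map_zero, smul_zero, map_zero]
  map_add' a b := by rw [map_add, smul_add, map_add]

theorem act_apply (g : H) (m : W) :
    act A M W g (toRs M W m) = toRs M W ((single g 1 : A[H]) • m) := rfl

theorem act_act (g h : H) (k : Rs M W) :
    act A M W g (act A M W h k) = act A M W (g * h) k := by
  change toRs M W ((single g 1 : A[H]) • ((single h 1 : A[H]) • (toRs M W).symm k)) = _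
  rw [smul_smul, single_mul_single, mul_one]
  rfl

theorem act_one (k : Rs M W) : act A M W 1 k = k := by
  change toRs M W ((1 : A[H]) • (toRs M W).symm k) = k
  rw [one_smul]
  rfl

theorem act_single (hM : M.Normal) (g : H) (m : M) (a : A) (k : Rs M W) :
    act A M W g ((single m a : A[M]) • k) =
      (single (⟨g * m * g⁻¹, hM.conj_mem m.1 m.2 g⟩ : M) a : A[M]) • act A M W g k := by
  change toRs M W ((single g 1 : A[H]) • (iotaN M (single m a) • (toRs M W).symm k)) =
    toRs M W (iotaN M (single _ a) • ((single g 1 : A[H]) • (toRs M W).symm k))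
  rw [iotaN_single, iotaN_single, smul_smul, smul_smul, single_mul_single, single_mul_single,
    one_mul, mul_one]
  simp only [inv_mul_cancel_right]

theorem act_mem (hM : M.Normal) (N : Submodule A[M] (Rs M W)) (g : H) (k : Rs M W)
    (hk : act A M W g k ∈ N) (r : A[M]) : act A M W g (r • k) ∈ N := by
  induction r using MonoidAlgebra.induction_linear with
  | zero => rw [zero_smul, map_zero]; exact N.zero_mem
  | add r s hr hs => rw [add_smul, map_add]; exact N.add_mem hr hs
  | single m a => rw [act_single M hM]; exact N.smul_mem _ hk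

theorem act_span (hM : M.Normal) (S : Set (Rs M W)) (g : H) (k : Rs M W)
    (hk : k ∈ Submodule.span A[M] S) :
    act A M W g k ∈ Submodule.span A[M] (act A M W g '' S) := by
  induction hk using Submodule.span_induction with
  | mem x hx => exact Submodule.subset_span ⟨x, hx, rfl⟩
  | zero => rw [map_zero]; exact Submodule.zero_mem _
  | add x y _ _ hx hy => rw [map_add]; exact Submodule.add_mem _ hx hy
  | smul r x _ hx => exact act_mem M hM _ g x hx r

end

section
variable (H : Type u) [Group H] {X : Type u} [MulAction H X] {M : Subgroup H}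

theorem gx_mem (hX : ∀ x : X, MulAction.stabilizer H x = M) (h : H) (x : X) :
    (LL.gx H (h • x))⁻¹ * h * LL.gx H x ∈ M := by
  rw [← hX (LL.rp H x), MulAction.mem_stabilizer_iff, mul_smul, LL.gx_smul, mul_smul,
    inv_smul_eq_iff]
  have h1 := LL.gx_smul H (h • x)
  rw [LL.rp_smul] at h1
  exact h1.symm

end

section
variable {A H : Type u} [CommRing A] [Group H] {M : Subgroup H} {X : Type u} [MulAction H X]
  {W : Type u} [AddCommGroup W] [Module A[H] W]

/-- the family `x ↦ g_x Λ` -/
noncomputable def fam (hX : ∀ x : X, MulAction.stabilizer H x = M)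
    (Λ : Submodule A[M] (Rs M W)) : EqFam A H X W where
  U x :=
    { carrier := {m | act A M W (LL.gx H x)⁻¹ (toRs M W m) ∈ Λ}
      add_mem' := by
        intro a b ha hb
        change act A M W (LL.gx H x)⁻¹ (toRs M W (a + b)) ∈ Λ
        rw [map_add, map_add]
        exact Λ.add_mem ha hb
      zero_mem' := by
        change act A M W (LL.gx H x)⁻¹ (toRs M W 0) ∈ Λ
        rw [map_zero, map_zero]
        exact Λ.zero_mem
      neg_mem' := by
        intro a ha
        change act A M W (LL.gx H x)⁻¹ (toRs M W (-a)) ∈ Λ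
        rw [map_neg, map_neg]
        exact Λ.neg_mem ha }
  mem h a x m hm := by
    change act A M W (LL.gx H (h • x))⁻¹ (toRs M W ((single h a : A[H]) • m)) ∈ Λ
    have h1 : act A M W (LL.gx H (h • x))⁻¹ (toRs M W ((single h a : A[H]) • m)) =
        (single (⟨(LL.gx H (h • x))⁻¹ * h * LL.gx H x, gx_mem H hX h x⟩ : M) a : A[M]) •
          act A M W (LL.gx H x)⁻¹ (toRs M W m) := by
      change toRs M W ((single (LL.gx H (h • x))⁻¹ 1 : A[H]) • ((single h a : A[H]) • m)) =
        toRs M W (iotaN M (single _ a) • ((single (LL.gx H x)⁻¹ 1 : A[H]) • m))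
      rw [iotaN_single, smul_smul, smul_smul, single_mul_single, single_mul_single, one_mul,
        mul_one, mul_inv_cancel_right]
    rw [h1]
    exact Λ.smul_mem _ hm

theorem fb_fam_fg (hM : M.Normal) (hX : ∀ x : X, MulAction.stabilizer H x = M)
    (Λ : Submodule A[M] (Rs M W)) (hΛ : Λ.FG) (x : X) : (fb (fam hX Λ) hX x).FG := by
  classical
  obtain ⟨S, hS⟩ := hΛ
  refine ⟨S.image (act A M W (LL.gx H x)), le_antisymm ?_ ?_⟩
  · rw [Submodule.span_le]
    intro y hy
    rw [Finset.coe_image] at hy
    obtain ⟨s, hs, rfl⟩ := hy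
    change act A M W (LL.gx H x)⁻¹ (act A M W (LL.gx H x) s) ∈ Λ
    rw [act_act, inv_mul_cancel, act_one, ← hS]
    exact Submodule.subset_span hs
  · intro k hk
    have h1 : act A M W (LL.gx H x)⁻¹ k ∈ Λ := hk
    rw [← hS] at h1
    have h2 := act_span M hM _ (LL.gx H x) _ h1
    rw [act_act, mul_inv_cancel, act_one] at h2
    rw [Finset.coe_image]
    exact h2

theorem fg_of_le {R : Type u} [Ring R] [IsNoetherianRing R] {N : Type u} [AddCommGroup N]
    [Module R N] {P P' : Submodule R N} (h : P ≤ P') (hP : P'.FG) : P.FG := by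
  have := isNoetherian_of_fg_of_noetherian P' hP
  exact (isNoetherian_submodule.1 this) P h

end

section
variable {A H V E F : Type u} [CommRing A] [Group H] {M : Subgroup H} [MulAction H V]
  [MulAction H E] [MulAction H F] (P : PlaneX H M V E F) {W : Type u} [AddCommGroup W]
  [Module A[H] W]

/-- the family on the edges -/
noncomputable def famE (Λ : Submodule A[M] (Rs M W)) : EqFam A H E W where
  U e := (fam P.stV Λ).U (P.o e) ⊓ (fam P.stV Λ).U (P.t e)
  mem h a e m hm := by
    refine ⟨?_, ?_⟩
    · rw [P.ho]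
      exact (fam P.stV Λ).mem h a _ m hm.1
    · rw [P.ht]
      exact (fam P.stV Λ).mem h a _ m hm.2

/-- the family on the faces -/
noncomputable def famF (Λ : Submodule A[M] (Rs M W)) : EqFam A H F W where
  U f := ⨅ e : {e : E // P.l e = f ∨ P.r e = f}, (famE P Λ).U e.1
  mem h a f m hm := by
    rw [AddSubgroup.mem_iInf] at hm ⊢
    rintro ⟨e, he⟩
    have h1 : P.l (h⁻¹ • e) = f ∨ P.r (h⁻¹ • e) = f := by
      rcases he with he | he
      · left
        rw [P.hl, he, inv_smul_smul]
      · right
        rw [P.hr, he, inv_smul_smul]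
    have h2 := (famE P Λ).mem h a _ m (hm ⟨h⁻¹ • e, h1⟩)
    rwa [smul_inv_smul] at h2

theorem exists_edge (hH : Infinite (H ⧸ M)) (f : F) : ∃ e : E, P.l e = f ∨ P.r e = f := by
  by_contra hne
  push Not at hne
  have h1 := P.connF {f} (Set.singleton_nonempty f) fun e => by
    rw [Set.mem_singleton_iff, Set.mem_singleton_iff]
    exact ⟨fun h => absurd h (hne e).1, fun h => absurd h (hne e).2⟩
  have h2 : ∀ h : H, h ∈ M := by
    intro h
    rw [← P.stF f, MulAction.mem_stabilizer_iff]
    have h3 : h • f ∈ ({f} : Set F) := by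
      rw [h1]
      exact Set.mem_univ _
    exact h3
  have h3 : M = ⊤ := by
    rw [eq_top_iff]
    exact fun h _ => h2 h
  have h4 : Subsingleton (H ⧸ M) := by
    rw [h3]
    exact QuotientGroup.subsingleton_quotient_top
  exact not_finite (H ⧸ M)

/-- the lattices given by `Λ` -/
noncomputable def lat (hM : M.Normal) (hA : IsNoetherianRing A[M]) (hH : Infinite (H ⧸ M))
    (Λ : Submodule A[M] (Rs M W)) (hΛ : Λ.FG) : Latt A P W where
  fV := fam P.stV Λ
  fE := famE P Λ
  fF := famF P Λ
  fgV x := fb_fam_fg hM P.stV Λ hΛ x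
  fgE e := fg_of_le (P' := fb (fam P.stV Λ) P.stV (P.o e)) (fun k hk => hk.1)
    (fb_fam_fg hM P.stV Λ hΛ _)
  fgF f := by
    obtain ⟨e, he⟩ := exists_edge P hH f
    refine fg_of_le (P' := fb (fam P.stV Λ) P.stV (P.o e)) (fun k hk => ?_)
      (fb_fam_fg hM P.stV Λ hΛ _)
    have h1 := (AddSubgroup.mem_iInf.1 hk) ⟨e, he⟩
    exact h1.1
  lo e := inf_le_left
  lt e := inf_le_right
  ll e := iInf_le (fun e' : {e' : E // P.l e' = P.l e ∨ P.r e' = P.l e} => (famE P Λ).U e'.1)
    ⟨e, Or.inl rfl⟩
  lr e := iInf_le (fun e' : {e' : E // P.l e' = P.r e ∨ P.r e' = P.r e} => (famE P Λ).U e'.1)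
    ⟨e, Or.inr rfl⟩

end

section
variable {H : Type u} [Group H] {M : Subgroup H}

theorem finite_fibre {E F : Type u} [MulAction H E] [MulAction H F] (l : E → F)
    (hl : ∀ (h : H) (e : E), l (h • e) = h • l e)
    (stE : ∀ x : E, MulAction.stabilizer H x = M) (stF : ∀ x : F, MulAction.stabilizer H x = M)
    (finE : Finite (MulAction.orbitRel.Quotient H E)) (f : F) : {e | l e = f}.Finite := by
  have h1 : Function.Injective fun e : {e | l e = f} =>
      (Quotient.mk (MulAction.orbitRel H E) e.1 : MulAction.orbitRel.Quotient H E) := by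
    rintro ⟨e, he⟩ ⟨e', he'⟩ h
    obtain ⟨g, hg⟩ := (Quotient.exact h : (MulAction.orbitRel H E).r e e')
    have hg' : g • e' = e := hg
    have h2 : g • f = f := by
      have h3 := hl g e'
      rw [hg'] at h3
      have he1 : l e = f := he
      have he2 : l e' = f := he'
      rw [he1, he2] at h3
      exact h3.symm
    have h4 : g ∈ MulAction.stabilizer H e' := by
      rw [stE, ← stF f]
      exact h2
    rw [MulAction.mem_stabilizer_iff.1 h4] at hg'
    exact Subtype.ext hg'.symm
  have := Finite.of_injective _ h1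
  exact Set.toFinite _

end

end LX

open LX

/-- **ROW L** -/
theorem rowL (A : Type u) {H V E F : Type u} [CommRing A] [StarRing A] [Group H] {M : Subgroup H}
    [MulAction H V] [MulAction H E] [MulAction H F] (P : PlaneX H M V E F) (W : Type u)
    [AddCommGroup W] [Module A[H] W] : RowL A P W := by
  intro hM hA hH
  refine ⟨⟨lat P hM hA hH ⊥ Submodule.fg_bot⟩, ?_⟩
  intro L sV sE sF
  -- the finite set of elements
  let nm : V → W → Rs M W := fun v m => act A M W (LL.gx H v)⁻¹ (toRs M W m)
  have nm0 : ∀ v, nm v 0 = 0 := fun v => by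
    change act A M W (LL.gx H v)⁻¹ (toRs M W 0) = 0
    rw [map_zero, map_zero]
  let G1 : Set (Rs M W) := ⋃ x ∈ sV, Set.range fun v : V => nm v (val v x)
  let G2 : Set (Rs M W) := ⋃ x ∈ sE, ((Set.range fun e : E => nm (P.o e) (val e x)) ∪
    Set.range fun e : E => nm (P.t e) (val e x))
  let G3 : Set (Rs M W) := ⋃ x ∈ sF, ((((Set.range fun e : E => nm (P.o e) (val (P.l e) x)) ∪
    Set.range fun e : E => nm (P.t e) (val (P.l e) x)) ∪
    Set.range fun e : E => nm (P.o e) (val (P.r e) x)) ∪
    Set.range fun e : E => nm (P.t e) (val (P.r e) x))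
  have hl : ∀ x : Tw A H F W, {e | val (P.l e) x ≠ 0}.Finite := fun x =>
    LL.finite_pre P.l (finite_fibre (H := H) P.l P.hl P.stE P.stF P.finE) (LL.finite_val x)
  have hr : ∀ x : Tw A H F W, {e | val (P.r e) x ≠ 0}.Finite := fun x =>
    LL.finite_pre P.r (finite_fibre (H := H) P.r P.hr P.stE P.stF P.finE) (LL.finite_val x)
  have hG1 : G1.Finite := by
    refine sV.finite_toSet.biUnion fun x _ => LL.finite_range _ ?_
    refine (LL.finite_val x).subset ?_
    intro v hv h
    exact hv (by simp only [h, nm0])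
  have hG2 : G2.Finite := by
    refine sE.finite_toSet.biUnion fun x _ => ?_
    refine (LL.finite_range _ ?_).union (LL.finite_range _ ?_)
    · refine (LL.finite_val x).subset ?_
      intro v hv h
      exact hv (by simp only [h, nm0])
    · refine (LL.finite_val x).subset ?_
      intro v hv h
      exact hv (by simp only [h, nm0])
  have hG3 : G3.Finite := by
    refine sF.finite_toSet.biUnion fun x _ => ?_
    refine (((LL.finite_range _ ?_).union (LL.finite_range _ ?_)).union
      (LL.finite_range _ ?_)).union (LL.finite_range _ ?_)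
    · refine (hl x).subset ?_
      intro v hv h
      exact hv (by simp only [h, nm0])
    · refine (hl x).subset ?_
      intro v hv h
      exact hv (by simp only [h, nm0])
    · refine (hr x).subset ?_
      intro v hv h
      exact hv (by simp only [h, nm0])
    · refine (hr x).subset ?_
      intro v hv h
      exact hv (by simp only [h, nm0])
  have hfin := P.finV
  let Λ : Submodule A[M] (Rs M W) := Submodule.span A[M] (G1 ∪ G2 ∪ G3) ⊔
    ⨆ q : MulAction.orbitRel.Quotient H V, fb L.fV P.stV q.out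
  have hΛ : Λ.FG := by
    refine Submodule.FG.sup ?_ ?_
    · exact Submodule.fg_span ((hG1.union hG2).union hG3)
    · exact Submodule.fg_iSup _ fun q => L.fgV _
  have hsp : ∀ y, y ∈ G1 ∨ y ∈ G2 ∨ y ∈ G3 → y ∈ Λ := by
    intro y hy
    refine Submodule.mem_sup_left (Submodule.subset_span ?_)
    rcases hy with hy | hy | hy
    · exact Or.inl (Or.inl hy)
    · exact Or.inl (Or.inr hy)
    · exact Or.inr hy
  have hV : ∀ x, L.fV.U x ≤ (lat P hM hA hH Λ hΛ).fV.U x := by
    intro x m hm
    change act A M W (LL.gx H x)⁻¹ (toRs M W m) ∈ Λ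
    refine Submodule.mem_sup_right ?_
    refine Submodule.mem_iSup_of_mem (Quotient.mk (MulAction.orbitRel H V) x) ?_
    change (toRs M W).symm (act A M W (LL.gx H x)⁻¹ (toRs M W m)) ∈ L.fV.U (LL.rp H x)
    have h1 := L.fV.mem (LL.gx H x)⁻¹ 1 x m hm
    have h2 : (LL.gx H x)⁻¹ • x = LL.rp H x := by
      rw [inv_smul_eq_iff, LL.gx_smul]
    rw [h2] at h1
    exact h1
  have hE : ∀ e, L.fE.U e ≤ (lat P hM hA hH Λ hΛ).fE.U e := fun e =>
    le_inf ((L.lo e).trans (hV _)) ((L.lt e).trans (hV _))
  have hF : ∀ f, L.fF.U f ≤ (lat P hM hA hH Λ hΛ).fF.U f := by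
    intro f
    refine le_iInf ?_
    rintro ⟨e, he⟩
    rcases he with he | he
    · subst he
      exact (L.ll e).trans (hE e)
    · subst he
      exact (L.lr e).trans (hE e)
  refine ⟨lat P hM hA hH Λ hΛ, ⟨hV, hE, hF⟩, ?_, ?_, ?_⟩
  · intro x hx v
    change nm v (val v x) ∈ Λ
    refine hsp _ (Or.inl ?_)
    exact Set.mem_biUnion hx ⟨v, rfl⟩
  · intro x hx e
    refine ⟨?_, ?_⟩
    · change nm (P.o e) (val e x) ∈ Λ
      exact hsp _ (Or.inr (Or.inl (Set.mem_biUnion hx (Or.inl ⟨e, rfl⟩))))
    · change nm (P.t e) (val e x) ∈ Λ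
      exact hsp _ (Or.inr (Or.inl (Set.mem_biUnion hx (Or.inr ⟨e, rfl⟩))))
  · intro x hx f
    change val f x ∈ (famF P Λ).U f
    refine AddSubgroup.mem_iInf.2 ?_
    rintro ⟨e, he⟩
    rcases he with he | he
    · subst he
      refine ⟨?_, ?_⟩
      · change nm (P.o e) (val (P.l e) x) ∈ Λ
        exact hsp _ (Or.inr (Or.inr (Set.mem_biUnion hx (Or.inl (Or.inl (Or.inl ⟨e, rfl⟩))))))
      · change nm (P.t e) (val (P.l e) x) ∈ Λ
        exact hsp _ (Or.inr (Or.inr (Set.mem_biUnion hx (Or.inl (Or.inl (Or.inr ⟨e, rfl⟩))))))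
    · subst he
      refine ⟨?_, ?_⟩
      · change nm (P.o e) (val (P.r e) x) ∈ Λ
        exact hsp _ (Or.inr (Or.inr (Set.mem_biUnion hx (Or.inl (Or.inr ⟨e, rfl⟩)))))
      · change nm (P.t e) (val (P.r e) x) ∈ Λ
        exact hsp _ (Or.inr (Or.inr (Set.mem_biUnion hx (Or.inr ⟨e, rfl⟩))))

end Pool.Agent.PLX
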