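import Mathlib
import Pool.Agent.Lib.PLX.Rows
import Pool.Agent.Lib.PLX.X
import Pool.Agent.Lib.PLS.M

/-!
# T4, stage 3, row M: the maps of the chain complex of a plane (helper72, after helper69)
-/

set_option autoImplicit false
set_option linter.unusedSectionVars false
set_option linter.unusedVariables false

open MonoidAlgebra Pool.Agent.UP Pool.Agent.UPV Pool.Agent.UP25 Pool.Agent.PLS

namespace Pool.Agent.PLX

universe u

section
variable {A : Type u} {H V E F : Type u} [CommRing A] [Group H] {M : Subgroup H} [MulAction H V]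
  [MulAction H E] [MulAction H F]

variable (P : PlaneX H M V E F)

/-- the edges with `l e = f` -/
noncomputable def rowX_L (f : F) : Finset E :=
  (finite_fibreX P.finE P.stE P.stF P.l P.hl f).toFinset

/-- the edges with `r e = f` -/
noncomputable def rowX_R (f : F) : Finset E :=
  (finite_fibreX P.finE P.stE P.stF P.r P.hr f).toFinset

theorem mem_rowX_L (f : F) (e : E) : e ∈ rowX_L P f ↔ P.l e = f := by
  unfold rowX_L
  rw [Set.Finite.mem_toFinset]
  exact Iff.rfl

theorem mem_rowX_R (f : F) (e : E) : e ∈ rowX_R P f ↔ P.r e = f := by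
  unfold rowX_R
  rw [Set.Finite.mem_toFinset]
  exact Iff.rfl

variable {W : Type u} [AddCommGroup W] [Module A[H] W]

variable (A W) in
/-- the boundary of a face -/
noncomputable def rowX_d2 (f : F) : W →+ Tw A H E W :=
  ∑ e ∈ rowX_L P f, rowM_mk A H e - ∑ e ∈ rowX_R P f, (P.s e : ℤ) • rowM_mk A H e

theorem rowX_d2_apply (f : F) (w : W) : rowX_d2 A P W f w =
    ∑ e ∈ rowX_L P f, Tw.mk A H e w - ∑ e ∈ rowX_R P f, (P.s e : ℤ) • Tw.mk A H e w := by
  unfold rowX_d2
  rw [AddMonoidHom.sub_apply, AddMonoidHom.finsetSum_apply, AddMonoidHom.finsetSum_apply]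
  rfl

theorem rowX_d2_equiv (g : H) (a : A) (f : F) (w : W) :
    rowX_d2 A P W (g • f) ((single g a : A[H]) • w) = (single g a : A[H]) • rowX_d2 A P W f w := by
  rw [rowX_d2_apply, rowX_d2_apply, smul_sub, Finset.smul_sum, Finset.smul_sum]
  congr 1
  · refine (Finset.sum_bij (fun e _ => g • e) (fun e he => ?_) (fun e _ e' _ h => ?_)
      (fun e he => ⟨g⁻¹ • e, ?_, ?_⟩) (fun e _ => ?_)).symm
    · rw [mem_rowX_L] at he ⊢
      rw [P.hl, he]
    · exact MulAction.injective g h
    · rw [mem_rowX_L] at he ⊢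
      rw [P.hl, he, inv_smul_smul]
    · exact smul_inv_smul g e
    · exact Tw.single_smul A H g a e w
  · refine (Finset.sum_bij (fun e _ => g • e) (fun e he => ?_) (fun e _ e' _ h => ?_)
      (fun e he => ⟨g⁻¹ • e, ?_, ?_⟩) (fun e _ => ?_)).symm
    · rw [mem_rowX_R] at he ⊢
      rw [P.hr, he]
    · exact MulAction.injective g h
    · rw [mem_rowX_R] at he ⊢
      rw [P.hr, he, inv_smul_smul]
    · exact smul_inv_smul g e
    · rw [smul_comm, Tw.single_smul, P.hs]

theorem rowX_val_d2 (f : F) (w : W) (e : E) : val e (rowX_d2 A P W f w) =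
    val (P.l e) (Tw.mk A H f w) - (P.s e : ℤ) • val (P.r e) (Tw.mk A H f w) := by
  classical
  rw [rowX_d2_apply, map_sub, map_sum, map_sum]
  congr 1
  · simp only [rowM_val_mk]
    rw [Finset.sum_ite_eq' (rowX_L P f) e (fun _ => w)]
    by_cases h : P.l e = f
    · rw [if_pos ((mem_rowX_L P f e).2 h), if_pos h.symm]
    · rw [if_neg (fun h2 => h ((mem_rowX_L P f e).1 h2)), if_neg (Ne.symm h)]
  · simp only [map_zsmul, rowM_val_mk, smul_ite, smul_zero]
    rw [Finset.sum_ite_eq' (rowX_R P f) e (fun e => (P.s e : ℤ) • w)]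
    by_cases h : P.r e = f
    · rw [if_pos ((mem_rowX_R P f e).2 h), if_pos h.symm]
    · rw [if_neg (fun h2 => h ((mem_rowX_R P f e).1 h2)), if_neg (Ne.symm h)]

end

/-- **ROW M** -/
theorem rowM (A : Type u) {H V E F : Type u} [CommRing A] [Group H] {M : Subgroup H}
    [MulAction H V]
    [MulAction H E] [MulAction H F] (P : PlaneX H M V E F) (W : Type u) [AddCommGroup W]
    [Module A[H] W] : Pool.Agent.PLX.RowM A P W := by
  have h1 : ∀ (g : H) (a : A) (e : E) (w : W),
      (rowM_mk A H (P.t (g • e)) - rowM_mk A H (P.o (g • e)) : W →+ Tw A H V W)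
        ((single g a : A[H]) • w) =
      (single g a : A[H]) • (rowM_mk A H (P.t e) - rowM_mk A H (P.o e) : W →+ Tw A H V W) w := by
    intro g a e w
    rw [AddMonoidHom.sub_apply, AddMonoidHom.sub_apply, smul_sub, P.ht, P.ho]
    change Tw.mk A H (g • P.t e) _ - Tw.mk A H (g • P.o e) _ = (single g a : A[H]) •
      Tw.mk A H (P.t e) w - (single g a : A[H]) • Tw.mk A H (P.o e) w
    rw [Tw.single_smul, Tw.single_smul]
  refine ⟨{
    ε := Tw.lift A H (fun _ : V => AddMonoidHom.id W) (fun _ _ _ _ => rfl)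
    d1 := Tw.lift A H (fun e : E => rowM_mk A H (P.t e) - rowM_mk A H (P.o e)) h1
    d2 := Tw.lift A H (rowX_d2 A P W) (rowX_d2_equiv P)
    hε := fun x w => Tw.lift_mk A H (fun _ : V => AddMonoidHom.id W) (fun _ _ _ _ => rfl) x w
    hd1 := fun e w => Tw.lift_mk A H _ h1 e w
    hd2 := fun c e => ?_ }⟩
  have h2 : (val e : Tw A H E W →+ W).comp
      (Tw.lift A H (rowX_d2 A P W) (rowX_d2_equiv P)).toAddMonoidHom =
      (val (P.l e) : Tw A H F W →+ W) - (P.s e : ℤ) • (val (P.r e) : Tw A H F W →+ W) := by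
    refine Tw.addHom_ext (A := A) (H := H) fun f w => ?_
    change val e (Tw.lift A H (rowX_d2 A P W) (rowX_d2_equiv P) (Tw.mk A H f w)) = _
    rw [Tw.lift_mk, rowX_val_d2]
    rfl
  exact DFunLike.congr_fun h2 c

end Pool.Agent.PLX
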