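import Mathlib
import Pool.Agent.Lib.PLX.Rows

/-!
# T4, stage 3, row PX: planes of the quotient
-/

set_option autoImplicit false

open Pool.Agent.UP Pool.Agent.UP25 Pool.Agent.PLS

namespace Pool.Agent.PLX

universe u

section
variable {H : Type u} [Group H] (M : Subgroup H) [M.Normal] (V : Type u) [MulAction (H ⧸ M) V]

/-- the action of `H` through the quotient by `M` -/
abbrev actM : MulAction H V := MulAction.compHom V (QuotientGroup.mk' M)

theorem finite_actM (h : Finite (MulAction.orbitRel.Quotient (H ⧸ M) V)) :
    Finite (@MulAction.orbitRel.Quotient H V _ (actM M V)) := by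
  let _ := actM M V
  refine Finite.of_surjective (α := MulAction.orbitRel.Quotient (H ⧸ M) V)
    (Quotient.map' id fun a b hab => ?_) ?_
  · obtain ⟨q, hq⟩ := hab
    obtain ⟨g, rfl⟩ := QuotientGroup.mk'_surjective M q
    exact ⟨g, hq⟩
  · intro y
    obtain ⟨x, rfl⟩ := Quotient.exists_rep y
    exact ⟨Quotient.mk'' x, rfl⟩

theorem stab_actM (x : V) : @MulAction.stabilizer H V _ (actM M V) x =
    (MulAction.stabilizer (H ⧸ M) x).comap (QuotientGroup.mk' M) := by
  let _ := actM M V
  ext h
  exact Iff.rfl

theorem stab_free (hf : ∀ (q : H ⧸ M) (x : V), q • x = x → q = 1) (x : V) :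
    @MulAction.stabilizer H V _ (actM M V) x = M := by
  rw [stab_actM]
  ext h
  rw [Subgroup.mem_comap, MulAction.mem_stabilizer_iff]
  constructor
  · intro h1
    have h2 := hf _ x h1
    rwa [← MonoidHom.mem_ker, QuotientGroup.ker_mk'] at h2
  · intro h1
    have h2 : QuotientGroup.mk' M h = 1 := by
      rw [← MonoidHom.mem_ker, QuotientGroup.ker_mk']
      exact h1
    rw [h2, one_smul]

end

/-- **Row PX.** -/
theorem rowPX : RowPX.{u} := by
  intro H _ M hM V E F i1 i2 i3 P
  let a1 := actM M V
  let a2 := actM M E
  let a3 := actM M F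
  exact ⟨{ o := P.o, t := P.t, l := P.l, r := P.r, s := P.s
           ho := fun h e => P.ho (QuotientGroup.mk' M h) e
           ht := fun h e => P.ht (QuotientGroup.mk' M h) e
           hl := fun h e => P.hl (QuotientGroup.mk' M h) e
           hr := fun h e => P.hr (QuotientGroup.mk' M h) e
           hs := fun h e => P.hs (QuotientGroup.mk' M h) e
           stV := stab_free M V P.freeV
           stE := stab_free M E P.freeE
           stF := stab_free M F P.freeF
           finV := finite_actM M V P.finV
           finE := finite_actM M E P.finE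
           finF := finite_actM M F P.finF
           ne := P.ne, ex0 := P.ex0, ex1 := P.ex1, bd := P.bd, connF := P.connF }⟩

end Pool.Agent.PLX
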