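import Mathlib
import Pool.Agent.Lib.PLX.Rows
import Pool.Agent.Lib.PLS.R

/-!
# T4, stage 3, ROW R: the lattice of `Ext^(q+2)`
-/

set_option autoImplicit false
set_option linter.unusedSectionVars false
set_option linter.unusedVariables false

open MonoidAlgebra Pool.Agent.UP Pool.Agent.UPV Pool.Agent.UP25 Pool.Agent.PLS

namespace Pool.Agent.PLX

universe u

attribute [local instance] starMA

/-! ### The classes `G_q` -/

section cls
variable {A H : Type u} [CommRing A] [Group H] {M : Subgroup H} {q : ℕ} {K K' K'' : Type u}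
  [AddCommGroup K] [Module A[H] K] [AddCommGroup K'] [Module A[H] K'] [AddCommGroup K'']
  [Module A[H] K'']

theorem R_gm_sub (f : K →ₗ[A[H]] K') (hf : Function.Injective f) (h : GM A M q K') :
    GM A M q K := by
  refine Loc.of_injective (rsMap M f) ?_ h
  intro a b hab
  exact (toRs M K).symm.injective (hf ((toRs M K').injective hab))

theorem R_gm_quo [IsNoetherianRing A[M]] (f : K →ₗ[A[H]] K') (hf : Function.Surjective f)
    (h : GM A M q K) : GM A M q K' := by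
  refine Loc.of_surjective (rsMap M f) ?_ h
  intro b
  obtain ⟨a, ha⟩ := hf ((toRs M K').symm b)
  exact ⟨toRs M K a, ha⟩

theorem R_gm_ext [IsNoetherianRing A[M]] (f : K →ₗ[A[H]] K') (g : K' →ₗ[A[H]] K'')
    (hfg : ∀ x, g x = 0 → ∃ y, f y = x) (h1 : GM A M q K) (h2 : GM A M q K'') :
    GM A M q K' := by
  refine Loc.of_exact (rsMap M f) (rsMap M g) ?_ h1 h2
  intro x hx
  obtain ⟨y, hy⟩ := hfg ((toRs M K').symm x) hx
  exact ⟨toRs M K y, hy⟩

theorem R_gm_mono {p : ℕ} (h : p ≤ q) (hK : GM A M q K) : GM A M p K := Loc.mono h hK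

end cls

/-! ### The row -/

section row
variable {A H V E F : Type u} [CommRing A] [StarRing A] [Group H] {M : Subgroup H}
  [MulAction H V] [MulAction H E] [MulAction H F] {P : PlaneX H M V E F} {W : Type u}
  [AddCommGroup W] [Module A[H] W]

theorem R_d1 (m : PMaps A P W) (L : Latt A P W) (x : Tw A H E W) (hx : x ∈ L.fE.tot) :
    m.d1 x ∈ L.fV.tot := by
  obtain ⟨S, hS⟩ := tw_sum x
  rw [hS, map_sum]
  refine Submodule.sum_mem _ fun e _ => ?_
  rw [m.hd1]
  exact Submodule.sub_mem _ (L.fV.mk_mem (L.lt e (hx e))) (L.fV.mk_mem (L.lo e (hx e)))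

theorem R_d2 (m : PMaps A P W) (L : Latt A P W) (x : Tw A H F W) (hx : x ∈ L.fF.tot) :
    m.d2 x ∈ L.fE.tot := by
  intro e
  rw [m.hd2]
  exact (L.fE.U e).sub_mem (L.ll e (hx _)) ((L.fE.U e).zsmul_mem (L.lr e (hx _)) _)

end row

/-- **ROW R** -/
theorem rowR {A H : Type u} [CommRing A] [StarRing A] [Group H] {M : Subgroup H}
    (hR1 : RowRho1 A H M) (hR2 : RowRho2 A H M) (hT : RowTFP A H M) (hG : RowGMT A H M)
    (hM : ∀ {V E F : Type u} [MulAction H V] [MulAction H E] [MulAction H F]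
      (P : PlaneX H M V E F) (W : Type u) [AddCommGroup W] [Module A[H] W], RowM A P W)
    (hE : ∀ {V E F : Type u} [MulAction H V] [MulAction H E] [MulAction H F]
      (P : PlaneX H M V E F) (W : Type u) [AddCommGroup W] [Module A[H] W], RowE A P W)
    (hL : ∀ {V E F : Type u} [MulAction H V] [MulAction H E] [MulAction H F]
      (P : PlaneX H M V E F) (W : Type u) [AddCommGroup W] [Module A[H] W], RowL A P W)
    (hA : ∀ {V E F : Type u} [MulAction H V] [MulAction H E] [MulAction H F]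
      (P : PlaneX H M V E F) (W : Type u) [AddCommGroup W] [Module A[H] W], RowA A P W)
    (hP : RowP A[H]) : RowR A H M := by
  intro hnm hn har hc hi V E F _ _ _ P W _ _ _ q
  -- the classes of the total modules
  have hfp : ∀ {X : Type u} [MulAction H X] (F : EqFam A H X W)
      (hX : ∀ x : X, MulAction.stabilizer H x = M) (_ : Finite (MulAction.orbitRel.Quotient H X))
      (_ : AllFG F hX), Module.FinitePresentation A[H] F.tot :=
    fun F hX hf hfg => hT hn _ _ F hX hf hfg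
  have hgm : ∀ {X : Type u} [MulAction H X] (F : EqFam A H X W)
      (hX : ∀ x : X, MulAction.stabilizer H x = M) (_ : Finite (MulAction.orbitRel.Quotient H X))
      (_ : AllFG F hX) (q : ℕ), GM A M q (ES A[H] q F.tot) := by
    intro X _ F hX hf hfg q
    obtain ⟨D, hD⟩ := hR1 hc q
    have := hfp F hX hf hfg
    exact (hG hn har q D (hR2 hnm hn q D hD) X W F hX hf hfg).2
  obtain ⟨m⟩ := hM P W
  obtain ⟨hε, hex0, hex1, hinj⟩ := hE P W hi m
  obtain ⟨⟨L0⟩, hinc⟩ := hL P W hnm hn hi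
  -- the first lattice
  obtain ⟨s0, hs0⟩ := R_onto m.ε hε
  obtain ⟨L, hL0, hsL, -, -⟩ := hinc L0 s0 ∅ ∅
  have hont := hs0 L.fV.tot hsL
  have hfpV : Module.FinitePresentation A[H] L.fV.tot := hfp L.fV P.stV P.finV L.fgV
  have hk0 : (LinearMap.ker (m.ε.domRestrict L.fV.tot)).FG := R_ker_fg hc _
  obtain ⟨s1, hs1⟩ := R_lift m.ε m.d1 (fun x hx => (hex0 x).1 hx) L.fV.tot hk0
  -- the second lattice
  obtain ⟨L', hLL', -, hsE, -⟩ := hinc L ∅ s1 ∅
  have h1 := hs1 L'.fE.tot hsE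
  have hfpV' : Module.FinitePresentation A[H] L'.fV.tot := hfp L'.fV P.stV P.finV L'.fgV
  have hfpE' : Module.FinitePresentation A[H] L'.fE.tot := hfp L'.fE P.stE P.finE L'.fgE
  have hk1 : (LinearMap.ker (m.d1.domRestrict L'.fE.tot)).FG := by
    have h := R_ker_fg hc (m.d1.restrict (R_d1 m L'))
    have h3 : LinearMap.ker (m.d1.restrict (R_d1 m L')) =
        LinearMap.ker (m.d1.domRestrict L'.fE.tot) := by
      ext x
      rw [LinearMap.mem_ker, LinearMap.mem_ker]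
      constructor
      · intro hx
        exact congrArg Subtype.val hx
      · intro hx
        exact Subtype.ext hx
    rwa [h3] at h
  obtain ⟨s2, hs2⟩ := R_lift m.d1 m.d2 (fun x hx => (hex1 x).1 hx) L'.fE.tot hk1
  -- the third lattice
  obtain ⟨L'', hL'', -, -, hsF⟩ := hinc L' ∅ ∅ s2
  have h2ex := hs2 L''.fF.tot hsF
  have hG2 : GM A M (q + 1) (ES A[H] (q + 2) L''.fV.tot) :=
    R_gm_mono (Nat.le_succ _) (hgm L''.fV P.stV P.finV L''.fgV (q + 2))
  have hG1 : GM A M (q + 1) (ES A[H] (q + 1) L''.fE.tot) := hgm L''.fE P.stE P.finE L''.fgE (q + 1)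
  have hG0 : GM A M q (ES A[H] q L''.fF.tot) := hgm L''.fF P.stF P.finF L''.fgF q
  obtain ⟨Φ, hΦ0, hΦq⟩ := hP (fun K _ _ => GM A M (q + 1) K)
    (fun K K' _ _ _ _ f hf h => R_gm_sub f hf h) (fun K K' _ _ _ _ f hf h => R_gm_quo f hf h)
    (fun K K' K'' _ _ _ _ _ _ f g hfg h h' => R_gm_ext f g (fun x hx => (hfg x).1 hx) h h')
    (Tw A H V W) (Tw A H E W) (Tw A H F W) W m.ε m.d1 m.d2 L.fV.tot L''.fV.tot L'.fE.tot
    L''.fE.tot L''.fF.tot q (R_d2 m L'') (fun x => (hex0 _).2 ⟨x, rfl⟩)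
    (fun x => (hex1 _).2 ⟨x, rfl⟩) hinj
    (fun f hf x => hL''.1 x (hLL'.1 x (hf x))) (fun f hf x => hL''.2.1 x (hf x)) hont
    (R_d1 m L'') h1 h2ex hG2 hG1
  obtain ⟨L₀, hfg, hle, hloc⟩ :=
    hA P W hnm hn har hc hi m L'' (R_d2 m L'') q (ES A[H] (q + 2) W) Φ hΦ0
  refine ⟨?_, L₀, hfg, ?_⟩
  · refine R_gm_ext Φ (LinearMap.range Φ).mkQ (fun x hx => ?_) hG0
      (R_gm_mono (Nat.le_succ _) hΦq)
    rw [Submodule.mkQ_apply, Submodule.Quotient.mk_eq_zero] at hx
    exact hx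
  · let f : (LinearMap.range (rsMap M Φ) ⧸ L₀.comap (LinearMap.range (rsMap M Φ)).subtype)
        →ₗ[A[M]] (Rs M (ES A[H] (q + 2) W) ⧸ L₀) :=
      Submodule.mapQ _ _ (LinearMap.range (rsMap M Φ)).subtype le_rfl
    have hker : L₀ ≤ LinearMap.ker (rsMap M (LinearMap.range Φ).mkQ) := by
      intro x hx
      obtain ⟨y, hy⟩ := hle hx
      have h3 : (LinearMap.range Φ).mkQ ((toRs M _).symm x) = 0 := by
        rw [Submodule.mkQ_apply, Submodule.Quotient.mk_eq_zero]
        exact ⟨(toRs M _).symm y, hy⟩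
      exact h3
    let g : (Rs M (ES A[H] (q + 2) W) ⧸ L₀) →ₗ[A[M]]
        Rs M (ES A[H] (q + 2) W ⧸ LinearMap.range Φ) :=
      L₀.liftQ (rsMap M (LinearMap.range Φ).mkQ) hker
    refine Loc.of_exact f g ?_ hloc hΦq
    intro z hz
    obtain ⟨x, rfl⟩ := Submodule.mkQ_surjective _ z
    have h3 : (LinearMap.range Φ).mkQ ((toRs M _).symm x) = 0 := hz
    rw [Submodule.mkQ_apply, Submodule.Quotient.mk_eq_zero] at h3
    obtain ⟨y, hy⟩ := h3
    exact ⟨Submodule.Quotient.mk ⟨x, ⟨toRs M _ y, hy⟩⟩, rfl⟩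

end Pool.Agent.PLX
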