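import Mathlib
import Pool.Agent.Lib.PLX.Rows
import Pool.Agent.Lib.UPV.V5a
import Pool.Agent.Lib.UP25.Coset
import Pool.Agent.Lib.UP25.Blk
import Pool.Agent.Lib.UP.F5b

/-!
# T4, stage 3, row RHO1 (helper45): the natural map
-/

set_option autoImplicit false
set_option linter.unusedSectionVars false
set_option linter.unusedVariables false

open MonoidAlgebra Pool.Agent.UP Pool.Agent.UPV Pool.Agent.UP25 Pool.Agent.PLS

namespace Pool.Agent.PLX

universe u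

attribute [local instance] starMA

/-- the map of classes by a chain map -/
theorem esCls_map {R : Type u} [Ring R] [StarRing R] {K K' : Type u} [AddCommGroup K] [Module R K]
    [AddCommGroup K'] [Module R K'] (P : PR R K) (P' : PR R K') (f : K' →ₗ[R] K)
    (u : ∀ n, P'.X n →ₗ[R] P.X n) (hu0 : P.e ∘ₗ u 0 = f ∘ₗ P'.e)
    (hu : ∀ n, P.d n ∘ₗ u (n + 1) = u n ∘ₗ P'.d n) (q : ℕ) (c : P.X q →ₗ[R] R)
    (hc : c ∘ₗ P.d q = 0) (hc' : (c ∘ₗ u q) ∘ₗ P'.d q = 0) :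
    esMap q f (esCls P q c hc) = esCls P' q (c ∘ₗ u q) hc' :=
  PR.comp_cls P P' f u hu0 hu q c hc

theorem esCls_zero {R : Type u} [Ring R] [StarRing R] {K : Type u} [AddCommGroup K] [Module R K]
    (P : PR R K) (q : ℕ) {f : P.X q →ₗ[R] R} (hf : f ∘ₗ P.d q = 0) (h : f = 0) :
    esCls P q f hf = 0 := by
  subst h
  exact P.cls_zero q

section
variable {A H : Type u} [CommRing A] [StarRing A] [Group H] (M : Subgroup H) {K K' : Type u}
  [AddCommGroup K] [Module A[H] K] [AddCommGroup K'] [Module A[H] K']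

/-- restriction of a projective resolution -/
noncomputable def rsPR (P : PR A[H] K) : PR A[M] (Rs M K) where
  X n := Rs M (P.X n)
  proj n := proj_res M (P.X n) (P.proj n)
  d n := rsMap M (P.d n)
  e := rsMap M P.e
  surj := P.surj
  ex0 x := P.ex0 x
  ex n x := P.ex n x

/-- restriction of a functional -/
noncomputable def pf {X : Type u} [AddCommGroup X] [Module A[H] X] (f : X →ₗ[A[H]] A[H]) :
    Rs M X →ₗ[A[M]] A[M] := (psiL A M).comp (rsMap M f)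

theorem pf_apply {X : Type u} [AddCommGroup X] [Module A[H] X] (f : X →ₗ[A[H]] A[H]) (x : X) :
    pf M f (toRs M X x) = psiN M (f x) := rfl

theorem pf_add {X : Type u} [AddCommGroup X] [Module A[H] X] (f g : X →ₗ[A[H]] A[H]) :
    pf M (f + g) = pf M f + pf M g :=
  LinearMap.ext fun x => map_add (psiN M) (f ((toRs M X).symm x)) (g ((toRs M X).symm x))

theorem pf_zero {X : Type u} [AddCommGroup X] [Module A[H] X] :
    pf M (0 : X →ₗ[A[H]] A[H]) = 0 :=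
  LinearMap.ext fun x => map_zero (psiN M)

theorem pf_comp {X Y : Type u} [AddCommGroup X] [Module A[H] X] [AddCommGroup Y] [Module A[H] Y]
    (f : X →ₗ[A[H]] A[H]) (g : Y →ₗ[A[H]] X) : pf M (f ∘ₗ g) = pf M f ∘ₗ rsMap M g := rfl

theorem pf_smul {X : Type u} [AddCommGroup X] [Module A[H] X] (r : A[M]) (f : X →ₗ[A[H]] A[H]) :
    pf M (Pool.UP.mulR (star (iotaN M r)) ∘ₗ f) = Pool.UP.mulR (star r) ∘ₗ pf M f := by
  refine LinearMap.ext fun x => ?_
  change psiN M (f ((toRs M X).symm x) * star (iotaN M r)) = psiN M (f ((toRs M X).symm x)) * star r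
  rw [star_iotaN, psiN_iota_right]

/-- restriction of a cochain -/
noncomputable def pfP (P : PR A[H] K) (q : ℕ) (f : P.X q →ₗ[A[H]] A[H]) :
    (rsPR M P).X q →ₗ[A[M]] A[M] := pf (X := P.X q) M f

theorem pfP_zero (P : PR A[H] K) (q : ℕ) : pfP M P q 0 = 0 := pf_zero (X := P.X q) M

theorem pfP_add (P : PR A[H] K) (q : ℕ) (f g : P.X q →ₗ[A[H]] A[H]) :
    pfP M P q (f + g) = pfP M P q f + pfP M P q g := pf_add (X := P.X q) M f g

theorem pfP_sub (P : PR A[H] K) (q : ℕ) (f g : P.X q →ₗ[A[H]] A[H]) :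
    pfP M P q (f - g) = pfP M P q f - pfP M P q g := by
  rw [eq_sub_iff_add_eq, ← pfP_add, sub_add_cancel]

theorem pfP_smul (P : PR A[H] K) (q : ℕ) (r : A[M]) (f : P.X q →ₗ[A[H]] A[H]) :
    pfP M P q (Pool.UP.mulR (star (iotaN M r)) ∘ₗ f) = Pool.UP.mulR (star r) ∘ₗ pfP M P q f :=
  pf_smul (X := P.X q) M r f

theorem pfP_comp (P : PR A[H] K) (P' : PR A[H] K') (q q' : ℕ) (f : P.X q →ₗ[A[H]] A[H])
    (g : P'.X q' →ₗ[A[H]] P.X q) (g' : (rsPR M P').X q' →ₗ[A[M]] (rsPR M P).X q)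
    (h : ∀ x : P'.X q', g' (toRs M _ x) = toRs M _ (g x)) :
    pfP M P' q' (f ∘ₗ g) = pfP M P q f ∘ₗ g' :=
  LinearMap.ext fun x => congrArg (pf (X := P.X q) M f) (h ((toRs M _).symm x)).symm

theorem pf_cy (P : PR A[H] K) {q : ℕ} {f : P.X q →ₗ[A[H]] A[H]} (hf : f ∘ₗ P.d q = 0) :
    pfP M P q f ∘ₗ (rsPR M P).d q = 0 := by
  rw [← pfP_comp M P P q (q + 1) f (P.d q) ((rsPR M P).d q) (fun x => rfl), hf, pfP_zero]

/-- well-defined -/
theorem rho_zero (P : PR A[H] K) {q : ℕ} {f : P.X q →ₗ[A[H]] A[H]} (hf : f ∘ₗ P.d q = 0)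
    (h : esCls P q f hf = 0) : esCls (rsPR M P) q (pfP M P q f) (pf_cy M P hf) = 0 := by
  cases q with
  | zero =>
    have h1 : f = 0 := P.cls_eq_zero_zero f hf h
    refine esCls_zero _ _ _ ?_
    rw [h1]
    exact pfP_zero M P 0
  | succ q =>
    obtain ⟨g, hg⟩ := (esCls_eq_zero P q f hf).1 h
    refine (esCls_eq_zero (rsPR M P) q _ _).2 ⟨pfP M P q g, ?_⟩
    rw [← hg]
    exact (pfP_comp M P P q (q + 1) g (P.d q) ((rsPR M P).d q) (fun x => rfl)).symm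

theorem esCls_sub {R : Type u} [Ring R] [StarRing R] {K : Type u} [AddCommGroup K] [Module R K]
    (P : PR R K) (q : ℕ) (f g : P.X q →ₗ[R] R) (hf : f ∘ₗ P.d q = 0) (hg : g ∘ₗ P.d q = 0)
    (h : (f - g) ∘ₗ P.d q = 0) : esCls P q (f - g) h = esCls P q f hf - esCls P q g hg := by
  have h1 := esCls_add P q (f - g) g h hg (by rw [sub_add_cancel]; exact hf)
  rw [eq_sub_iff_add_eq, ← h1]
  exact esCls_congr P q (sub_add_cancel f g) _ _

theorem rho_congr (P : PR A[H] K) {q : ℕ} {f g : P.X q →ₗ[A[H]] A[H]} (hf : f ∘ₗ P.d q = 0)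
    (hg : g ∘ₗ P.d q = 0) (h : esCls P q f hf = esCls P q g hg) :
    esCls (rsPR M P) q (pfP M P q f) (pf_cy M P hf) =
      esCls (rsPR M P) q (pfP M P q g) (pf_cy M P hg) := by
  have hfg : (f - g) ∘ₗ P.d q = 0 := by rw [LinearMap.sub_comp, hf, hg, sub_self]
  have h1 := rho_zero M P hfg (by rw [esCls_sub P q f g hf hg, h, sub_self])
  have h2 := pfP_sub M P q f g
  have h3 : (pfP M P q f - pfP M P q g) ∘ₗ (rsPR M P).d q = 0 := by
    rw [← h2]; exact pf_cy M P hfg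
  have h4 := esCls_congr (rsPR M P) q h2 (pf_cy M P hfg) h3
  rw [h1, esCls_sub (rsPR M P) q _ _ (pf_cy M P hf) (pf_cy M P hg)] at h4
  exact sub_eq_zero.1 h4.symm

/-- the map for a resolution -/
noncomputable def rho0 (P : PR A[H] K) (q : ℕ) (ξ : ES A[H] q K) : ES A[M] q (Rs M K) :=
  esCls (rsPR M P) q (pfP M P q (esCls_surj P q ξ).choose)
    (pf_cy M P (esCls_surj P q ξ).choose_spec.choose)

theorem rho0_cls (P : PR A[H] K) (q : ℕ) (f : P.X q →ₗ[A[H]] A[H]) (hf : f ∘ₗ P.d q = 0) :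
    rho0 M P q (esCls P q f hf) = esCls (rsPR M P) q (pfP M P q f) (pf_cy M P hf) :=
  rho_congr M P _ hf (esCls_surj P q (esCls P q f hf)).choose_spec.choose_spec

theorem rho0_add (P : PR A[H] K) (q : ℕ) (ξ ζ : ES A[H] q K) :
    rho0 M P q (ξ + ζ) = rho0 M P q ξ + rho0 M P q ζ := by
  obtain ⟨f, hf, rfl⟩ := esCls_surj P q ξ
  obtain ⟨g, hg, rfl⟩ := esCls_surj P q ζ
  have hfg : (f + g) ∘ₗ P.d q = 0 := by rw [LinearMap.add_comp, hf, hg, add_zero]
  rw [← esCls_add P q f g hf hg hfg, rho0_cls, rho0_cls, rho0_cls,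
    ← esCls_add (rsPR M P) q _ _ (pf_cy M P hf) (pf_cy M P hg) (by
      rw [LinearMap.add_comp, pf_cy M P hf, pf_cy M P hg, add_zero])]
  exact esCls_congr _ _ (pfP_add M P q f g) _ _

theorem rho0_smul (P : PR A[H] K) (q : ℕ) (r : A[M]) (ξ : ES A[H] q K) :
    rho0 M P q (iotaN M r • ξ) = r • rho0 M P q ξ := by
  obtain ⟨f, hf, rfl⟩ := esCls_surj P q ξ
  have h1 : (Pool.UP.mulR (star (iotaN M r)) ∘ₗ f) ∘ₗ P.d q = 0 := by
    rw [LinearMap.comp_assoc, hf, LinearMap.comp_zero]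
  have h2 : (Pool.UP.mulR (star r) ∘ₗ pfP M P q f) ∘ₗ (rsPR M P).d q = 0 := by
    rw [LinearMap.comp_assoc, pf_cy M P hf, LinearMap.comp_zero]
  rw [← esCls_smul P q (iotaN M r) f hf h1, rho0_cls, rho0_cls,
    ← esCls_smul (rsPR M P) q r (pfP M P q f) (pf_cy M P hf) h2]
  exact esCls_congr _ _ (pfP_smul M P q r f) _ _

/-- a restricted chain map -/
noncomputable def rsU (P : PR A[H] K) (P' : PR A[H] K') (n : ℕ) (u : P.X n →ₗ[A[H]] P'.X n) :
    (rsPR M P).X n →ₗ[A[M]] (rsPR M P').X n := rsMap (K := P.X n) (K' := P'.X n) M u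

theorem rsU_apply (P : PR A[H] K) (P' : PR A[H] K') (n : ℕ) (u : P.X n →ₗ[A[H]] P'.X n)
    (x : P.X n) : rsU M P P' n u (toRs M _ x) = toRs M _ (u x) := rfl

theorem rsU_e (P : PR A[H] K) (P' : PR A[H] K') (f : K →ₗ[A[H]] K')
    (u : ∀ n, P.X n →ₗ[A[H]] P'.X n) (hu0 : P'.e ∘ₗ u 0 = f ∘ₗ P.e) :
    (rsPR M P').e ∘ₗ rsU M P P' 0 (u 0) = rsMap M f ∘ₗ (rsPR M P).e := by
  refine LinearMap.ext fun x => ?_
  exact congrArg (toRs M K') (LinearMap.congr_fun hu0 ((toRs M (P.X 0)).symm x))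

theorem rsU_d (P : PR A[H] K) (P' : PR A[H] K')
    (u : ∀ n, P.X n →ₗ[A[H]] P'.X n) (hu : ∀ n, P'.d n ∘ₗ u (n + 1) = u n ∘ₗ P.d n) (n : ℕ) :
    (rsPR M P').d n ∘ₗ rsU M P P' (n + 1) (u (n + 1)) =
      rsU M P P' n (u n) ∘ₗ (rsPR M P).d n := by
  refine LinearMap.ext fun x => ?_
  exact congrArg (toRs M (P'.X n)) (LinearMap.congr_fun (hu n) ((toRs M (P.X (n + 1))).symm x))

/-- naturality, for chain maps -/
theorem rho0_nat (P : PR A[H] K) (P' : PR A[H] K') (f : K →ₗ[A[H]] K')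
    (u : ∀ n, P.X n →ₗ[A[H]] P'.X n) (hu0 : P'.e ∘ₗ u 0 = f ∘ₗ P.e)
    (hu : ∀ n, P'.d n ∘ₗ u (n + 1) = u n ∘ₗ P.d n) (q : ℕ) (ξ : ES A[H] q K') :
    rho0 M P q (esMap q f ξ) = esMap q (rsMap M f) (rho0 M P' q ξ) := by
  obtain ⟨g, hg, rfl⟩ := esCls_surj P' q ξ
  have h1 : (g ∘ₗ u q) ∘ₗ P.d q = 0 := by
    rw [LinearMap.comp_assoc, ← hu, ← LinearMap.comp_assoc, hg, LinearMap.zero_comp]
  rw [esCls_map P' P f u hu0 hu q g hg h1, rho0_cls, rho0_cls]
  have h3 := pfP_comp M P' P q q g (u q) (rsU M P P' q (u q)) (fun x => rfl)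
  have h2 : (pfP M P' q g ∘ₗ rsU M P P' q (u q)) ∘ₗ (rsPR M P).d q = 0 := by
    rw [← h3]
    exact pf_cy M P h1
  rw [esCls_congr (rsPR M P) q h3 (pf_cy M P h1) h2]
  exact (esCls_map (rsPR M P') (rsPR M P) (rsMap M f) (fun n => rsU M P P' n (u n))
    (rsU_e M P P' f u hu0) (rsU_d M P P' u hu) q (pfP M P' q g) (pf_cy M P' hg) h2).symm

/-- lifts between resolutions -/
theorem exists_lift_pr {T T' : RC A[H]} (P : Res T K) (P' : Res T' K') (f : K →ₗ[A[H]] K') :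
    ∃ u : ∀ n, P.toPR.X n →ₗ[A[H]] P'.toPR.X n, P'.toPR.e ∘ₗ u 0 = f ∘ₗ P.toPR.e ∧
      ∀ n, P'.toPR.d n ∘ₗ u (n + 1) = u n ∘ₗ P.toPR.d n := by
  obtain ⟨Φ, h⟩ := exists_lift P P' f
  refine ⟨fun n => (Φ.U n).vecMulLinear, LinearMap.ext h, fun n => LinearMap.ext fun x => ?_⟩
  change Matrix.vecMul (Matrix.vecMul x (Φ.U (n + 1))) (T'.D n) =
    Matrix.vecMul (Matrix.vecMul x (T.D n)) (Φ.U n)
  rw [Matrix.vecMul_vecMul, Matrix.vecMul_vecMul, Φ.comm]

/-- a resolution -/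
theorem exists_resPR (hc : CohT A[H]) (K : Type u) [AddCommGroup K] [Module A[H] K]
    [Module.FinitePresentation A[H] K] : ∃ (P : PR A[H] K) (T : RC A[H]) (r : Res T K),
      P = r.toPR := by
  obtain ⟨T, ⟨r⟩⟩ := exists_res_coh hc K
  exact ⟨_, T, r, rfl⟩

/-- the map for a chosen resolution -/
noncomputable def rhoC (hc : CohT A[H]) (q : ℕ) (K : Type u) [AddCommGroup K] [Module A[H] K]
    [Module.FinitePresentation A[H] K] (ξ : ES A[H] q K) : ES A[M] q (Rs M K) :=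
  rho0 M (exists_resPR hc K).choose q ξ

/-- it does not depend on the resolution -/
theorem rhoC_eq (hc : CohT A[H]) (q : ℕ) (K : Type u) [AddCommGroup K] [Module A[H] K]
    [Module.FinitePresentation A[H] K] {T : RC A[H]} (P : Res T K) (ξ : ES A[H] q K) :
    rhoC M hc q K ξ = rho0 M P.toPR q ξ := by
  have key : ∀ P' : PR A[H] K, (∃ (T' : RC A[H]) (r : Res T' K), P' = r.toPR) →
      rho0 M P' q ξ = rho0 M P.toPR q ξ := by
    rintro P' ⟨T', r, rfl⟩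
    obtain ⟨v, h1, h2⟩ := exists_lift_pr P r LinearMap.id
    have h3 := rho0_nat M P.toPR r.toPR LinearMap.id v h1 h2 q ξ
    rw [esMap_id] at h3
    rw [h3]
    exact (esMap_id q (rho0 M r.toPR q ξ)).symm
  exact key _ (exists_resPR hc K).choose_spec

theorem rhoC_nat (hc : CohT A[H]) (q : ℕ) (K K' : Type u) [AddCommGroup K] [Module A[H] K]
    [Module.FinitePresentation A[H] K] [AddCommGroup K'] [Module A[H] K']
    [Module.FinitePresentation A[H] K'] (f : K →ₗ[A[H]] K') (ξ : ES A[H] q K') :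
    rhoC M hc q K (esMap q f ξ) = esMap q (rsMap M f) (rhoC M hc q K' ξ) := by
  obtain ⟨T, ⟨r⟩⟩ := exists_res_coh hc K
  obtain ⟨T', ⟨r'⟩⟩ := exists_res_coh hc K'
  obtain ⟨u, h1, h2⟩ := exists_lift_pr r r' f
  rw [rhoC_eq M hc q K r, rhoC_eq M hc q K' r']
  exact rho0_nat M _ _ f u h1 h2 q ξ

/-- the natural map -/
noncomputable def rhoD (hc : CohT A[H]) (q : ℕ) : Rho A H M q where
  ρ K _ _ _ :=
    { toFun := fun ξ => rhoC M hc q K ((toRs M _).symm ξ)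
      map_add' := fun ξ ζ => rho0_add M _ q _ _
      map_smul' := fun r ξ => rho0_smul M _ q r _ }
  nat K K' _ _ _ _ _ _ f ξ := rhoC_nat M hc q K K' f ξ

theorem rhoD_apply (hc : CohT A[H]) (q : ℕ) (K : Type u) [AddCommGroup K] [Module A[H] K]
    [Module.FinitePresentation A[H] K] (ξ : ES A[H] q K) :
    (rhoD M hc q).ρ K (toRs M _ ξ) = rhoC M hc q K ξ := rfl

/-- the formula -/
theorem rhoD_fml (hc : CohT A[H]) (q : ℕ) : (rhoD M hc q).Fml := by
  intro K _ _ _ T P c U _ _ i Q u hu0 hu hc'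
  rw [rhoD_apply, rhoC_eq M hc q K P, tCls_apply, rho0_cls]
  exact esCls_map (rsPR M P.toPR) Q i u (LinearMap.ext fun x => hu0 x)
    (fun n => LinearMap.ext fun x => (hu n x).symm) q _ _ hc'

end

/-- **row RHO1** -/
theorem rowRho1 (A H : Type u) [CommRing A] [StarRing A] [Group H] (M : Subgroup H) :
    RowRho1 A H M :=
  fun hc q => ⟨rhoD M hc q, rhoD_fml M hc q⟩

end Pool.Agent.PLX
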