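import Mathlib
import Pool.Agent.Lib.PLX.Rows

/-!
# T4, stage 3, row RHO2: the coefficients determine the classes of the total modules
-/

set_option autoImplicit false
set_option linter.unusedSectionVars false
set_option linter.unusedVariables false

open MonoidAlgebra Pool.Agent.UP Pool.Agent.UPV Pool.Agent.UP25 Pool.Agent.PLS

namespace Pool.Agent.PLX.R2

universe u

/-! ### conjugation -/

section sg
variable {A H : Type u} [CommRing A] [Group H] (M : Subgroup H) [M.Normal]

/-- conjugation by `g` on `A[M]` -/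
noncomputable def sg (g : H) : A[M] ≃+* A[M] :=
  mapDomainRingEquiv A (MulAut.conjNormal g : MulAut M)

theorem sg_single (g : H) (m : M) (a : A) :
    sg M g (single m a) = single (MulAut.conjNormal g m) a := by
  unfold sg
  simp

theorem iota_sg (g : H) (r : A[M]) :
    iotaN M (sg M g r) * single g 1 = single g (1 : A) * iotaN M r := by
  induction r using MonoidAlgebra.induction_linear with
  | zero => rw [map_zero, map_zero, zero_mul, mul_zero]
  | add x y hx hy => rw [map_add, map_add, add_mul, hx, hy, map_add, mul_add]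
  | single m a =>
    rw [sg_single, iotaN_single, iotaN_single, single_mul_single, single_mul_single, one_mul,
      mul_one]
    congr 1
    rw [MulAut.conjNormal_apply, inv_mul_cancel_right]

theorem iota_sg' (g : H) (r : A[M]) :
    iotaN M (sg M g r) = single g (1 : A) * iotaN M r * single g⁻¹ 1 := by
  rw [← iota_sg, mul_assoc, single_mul_single, mul_inv_cancel, one_mul, ← one_def, mul_one]

theorem psi_sg (g : H) (s : A[H]) :
    psiN M (s * single g⁻¹ 1) = sg M g (prL M g s) := by
  unfold prL
  induction s using MonoidAlgebra.induction_linear with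
  | zero => rw [zero_mul, mul_zero, map_zero, map_zero]
  | add x y hx hy => rw [add_mul, map_add, hx, hy, mul_add, map_add, map_add]
  | single h a =>
    rw [single_mul_single, single_mul_single, mul_one, one_mul]
    by_cases hh : h * g⁻¹ ∈ M
    · have h1 : g⁻¹ * h ∈ M := by
        have h2 := (inferInstance : M.Normal).conj_mem _ hh g⁻¹
        rwa [inv_inv, mul_assoc, inv_mul_cancel_right] at h2
      rw [psiN_single_of_mem M hh, psiN_single_of_mem M h1, sg_single]
      congr 1
      refine Subtype.ext ?_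
      rw [MulAut.conjNormal_apply, mul_inv_cancel_left]
    · have h1 : g⁻¹ * h ∉ M := fun h1 => hh (by
        have h2 := (inferInstance : M.Normal).conj_mem _ h1 g
        rwa [mul_inv_cancel_left] at h2)
      rw [psiN_single_of_not_mem M hh, psiN_single_of_not_mem M h1, map_zero]

end sg

section star
variable {A H : Type u} [CommRing A] [StarRing A] [Group H] (M : Subgroup H)

attribute [local instance] starMA

theorem star_psi (s : A[H]) : star (psiN M s) = psiN M (star s) := by
  induction s using MonoidAlgebra.induction_linear with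
  | zero => rw [map_zero, star_zero, star_zero, map_zero]
  | add x y hx hy => rw [map_add, star_add, hx, hy, star_add, map_add]
  | single h a =>
    have h1 : star (single h a : A[H]) = single h⁻¹ (star a) := starMA_single _ _
    rw [h1]
    by_cases hh : h ∈ M
    · rw [psiN_single_of_mem M hh, psiN_single_of_mem M (M.inv_mem hh)]
      exact starMA_single _ _
    · rw [psiN_single_of_not_mem M hh, psiN_single_of_not_mem M fun h2 => hh (by
        rw [← inv_inv h]; exact M.inv_mem h2), star_zero]

variable [M.Normal]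

theorem star_sg (g : H) (r : A[M]) : star (sg M g r) = sg M g (star r) := by
  induction r using MonoidAlgebra.induction_linear with
  | zero => rw [map_zero, star_zero, map_zero]
  | add x y hx hy => rw [map_add, star_add, hx, hy, star_add, map_add]
  | single m a =>
    have h1 : star (single m a : A[M]) = single m⁻¹ (star a) := starMA_single _ _
    rw [h1, sg_single, sg_single, map_inv]
    exact starMA_single _ _

end star

/-! ### the resolution of the total module -/

section res
variable {A H : Type u} [CommRing A] [Group H] {M : Subgroup H} {X : Type u} [MulAction H X]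
  {K : Type u} [AddCommGroup K] [Module A[H] K]

theorem val_smul_mkM (x : X) (hx : MulAction.stabilizer H x = M) (g : H) (y : A[H]) (m : K) :
    val (g • x) (y • Tw.mk A H x m) = (single g 1 : A[H]) •
      (iotaN M (prL M g y) • m) := by
  subst hx
  exact val_smul_mk x g y m

variable {n : ℕ} (F : EqFam A H X K) (x : Fin n → X) (T : ∀ _ : Fin n, RC A[M])
  (r : ∀ i, SRes M (T i) (F.U (x i)))

/-- the augmentation of the total module -/
noncomputable def te : ((sumRC (fun _ : Fin n => M) T).ι 0 → A[H]) →ₗ[A[H]] Tw A H X K where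
  toFun y := ∑ q : Σ i, (T i).ι 0, y q • Tw.mk A H (x q.1) ((r q.1).ε (Pi.single q.2 1))
  map_add' y z := by
    rw [← Finset.sum_add_distrib]
    exact Finset.sum_congr rfl fun q _ => by rw [Pi.add_apply, add_smul]
  map_smul' s y := by
    rw [RingHom.id_apply, Finset.smul_sum]
    exact Finset.sum_congr rfl fun q _ => by rw [Pi.smul_apply, smul_eq_mul, mul_smul]

theorem te_apply (y : (sumRC (fun _ : Fin n => M) T).ι 0 → A[H]) : te F x T r y =
    ∑ q : Σ i, (T i).ι 0, y q • Tw.mk A H (x q.1) ((r q.1).ε (Pi.single q.2 1)) := rfl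

theorem te_mem (y : (sumRC (fun _ : Fin n => M) T).ι 0 → A[H]) : te F x T r y ∈ F.tot := by
  refine Submodule.sum_mem _ fun q _ => Submodule.smul_mem _ _ (F.mk_mem ?_)
  exact ((r q.1).rng _).2 ⟨_, rfl⟩

theorem te_plc (i : Fin n) (w : (T i).ι 0 → A[H]) : te F x T r (plc i w) =
    ∑ a, w a • Tw.mk A H (x i) ((r i).ε (Pi.single a 1)) := by
  rw [te_apply, Fintype.sum_sigma, Finset.sum_eq_single i]
  · exact Finset.sum_congr rfl fun a _ => by rw [plc_same]
  · intro j _ hj
    refine Finset.sum_eq_zero fun a _ => ?_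
    rw [plc_ne hj, zero_smul]
  · intro h
    exact absurd (Finset.mem_univ _) h

variable (hX : ∀ x : X, MulAction.stabilizer H x = M)

include hX in
theorem val_te (hx2 : ∀ (i j : Fin n) (h : H), h • x i = x j → i = j)
    (y : (sumRC (fun _ : Fin n => M) T).ι 0 → A[H]) (g : H) (i : Fin n) :
    val (g • x i) (te F x T r y) = (single g 1 : A[H]) •
      (r i).ε (fun a => prL M g (y ⟨i, a⟩)) := by
  rw [te_apply, map_sum, Fintype.sum_sigma, Finset.sum_eq_single i]
  · rw [(r i).eval, Finset.smul_sum]
    exact Finset.sum_congr rfl fun a _ => val_smul_mkM _ (hX _) _ _ _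
  · intro j _ hj
    refine Finset.sum_eq_zero fun a _ => ?_
    refine val_smul_mk_ne (fun h hh => hj ?_) _ _
    refine hx2 j i (g⁻¹ * h) ?_
    rw [mul_smul, hh, inv_smul_smul]
  · intro h
    exact absurd (Finset.mem_univ _) h

include hX in
/-- **the resolution of the total module** -/
theorem exists_resM (hx1 : ∀ z : X, ∃ (i : Fin n) (h : H), h • x i = z)
    (hx2 : ∀ (i j : Fin n) (h : H), h • x i = x j → i = j) :
    ∃ P : Res (sumRC (fun _ : Fin n => M) T) F.tot, ∀ y, (P.ε y).1 = te F x T r y := by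
  let ε : ((sumRC (fun _ : Fin n => M) T).ι 0 → A[H]) →ₗ[A[H]] F.tot :=
    (te F x T r).codRestrict F.tot (te_mem F x T r)
  have hε : ∀ y, (ε y).1 = te F x T r y := fun y => rfl
  have hext : ∀ f g : F.tot, (∀ (i : Fin n) (h : H), val (h • x i) f.1 = val (h • x i) g.1) →
      f = g := by
    intro f g h
    refine Subtype.ext (tw_ext fun z => ?_)
    obtain ⟨i, k, rfl⟩ := hx1 z
    exact h i k
  have hex : ∀ (k : ℕ), (sumRC (fun _ : Fin n => M) T).Ex k := fun k =>
    sumRC_ex _ fun i => (r i).ex k
  refine ⟨⟨ε, ?_, ?_, ?_, hex⟩, fun _ => rfl⟩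
  · -- surjectivity
    intro f
    have hgen : ∀ (z : X) (m : K), m ∈ F.U z → Tw.mk A H z m ∈ LinearMap.range (te F x T r) := by
      intro z m hm
      obtain ⟨i, h, rfl⟩ := hx1 z
      obtain ⟨w, hw⟩ := ((r i).rng _).1 (F.mem_inv h hm)
      have h1 : Tw.mk A H (h • x i) m =
          (single h 1 : A[H]) • Tw.mk A H (x i) ((r i).ε w) := by
        rw [hw, Tw.single_smul, ← mul_smul, single_mul_single, mul_inv_cancel, one_mul, ← one_def,
          one_smul]
      rw [h1]
      refine Submodule.smul_mem _ _ ⟨plc i fun a => iotaN M (w a), ?_⟩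
      rw [te_plc, (r i).eval, mk_sum]
      exact Finset.sum_congr rfl fun a _ => iota_mk (x i) (fixM hX (x i)) _ _
    obtain ⟨S, hS⟩ := tw_sum f.1
    have h2 : f.1 ∈ LinearMap.range (te F x T r) := by
      rw [hS]
      exact Submodule.sum_mem _ fun z _ => hgen z _ (f.2 z)
    obtain ⟨y, hy⟩ := h2
    exact ⟨y, Subtype.ext hy⟩
  · -- the composition is zero
    intro y
    refine hext _ _ fun i h => ?_
    rw [hε, val_te F x T r hX hx2]
    have h1 : (fun a => prL M h
        (Matrix.vecMul y ((sumRC (fun _ : Fin n => M) T).D 0) ⟨i, a⟩)) =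
        Matrix.vecMul (fun b => prL M h (y ⟨i, b⟩)) ((T i).D 0) := by
      funext a
      rw [sumRC_vecMul, prL_vecMul]
    rw [h1, (r i).zero, smul_zero]
    exact (map_zero (val (h • x i))).symm
  · -- the kernel
    intro y hy
    have h1 : ∀ i, ∃ w, Matrix.vecMul w (((T i).D 0).map (iotaN M)) = fun a => y ⟨i, a⟩ := by
      intro i
      refine row_lift _ ((T i).D 0) _ fun g => ?_
      refine (r i).ker _ ?_
      have h2 := val_te F x T r hX hx2 y g i
      rw [← hε, hy] at h2
      have h3 : (single g 1 : A[H]) • (r i).ε (fun a => prL M g (y ⟨i, a⟩)) = 0 :=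
        h2.symm.trans (map_zero (val (g • x i)))
      have h4 := congrArg (fun m => (single g⁻¹ 1 : A[H]) • m) h3
      simp only [← mul_smul, single_mul_single, inv_mul_cancel, one_mul, ← one_def, one_smul,
        smul_zero] at h4
      exact h4
    choose w hw using h1
    refine ⟨∑ i, plc i (w i), ?_⟩
    have h2 : Matrix.vecMul (∑ i, plc i (w i)) ((sumRC (fun _ : Fin n => M) T).D 0) =
        ∑ i, Matrix.vecMul (plc i (w i)) ((sumRC (fun _ : Fin n => M) T).D 0) :=
      Matrix.sum_vecMul _ _ _
    rw [h2]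
    refine Eq.trans ?_ (sum_plc (J := fun i => (T i).ι 0) y).symm
    refine Finset.sum_congr rfl fun i _ => ?_
    rw [sumRC_vecMul_plc, hw]

end res

/-! ### the twisted resolution -/

section tw
variable {R R' : Type u} [Ring R] [Ring R'] {N N' : Type u} [AddCommGroup N] [Module R N]
  [AddCommGroup N'] [Module R' N'] {T : RC R}

/-- the twist of a resolution -/
def twRes (r : Res T N) (σ : R ≃+* R') (φ : N ≃+ N')
    (hφ : ∀ (s : R) (x : N), φ (s • x) = σ s • φ x) : Res (T.map (σ : R →+* R')) N' where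
  ε := U3_eps r.ε σ φ hφ
  surj := by
    intro m
    obtain ⟨x, hx⟩ := r.surj (φ.symm m)
    refine ⟨fun i => σ (x i), ?_⟩
    change φ (r.ε fun i => σ.symm (σ (x i))) = m
    have h : (fun i => σ.symm (σ (x i))) = x := by
      funext i
      simp
    rw [h, hx, AddEquiv.apply_symm_apply]
  zero := by
    intro (x : T.ι (0 + 1) → R')
    have h := U3_vecMul_symm σ x (T.D 0)
    have h2 : φ (r.ε (Matrix.vecMul (fun i => σ.symm (x i)) (T.D 0))) = 0 := by
      rw [r.zero, map_zero]
    rw [← h] at h2
    exact h2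
  ker := by
    intro (x : T.ι 0 → R') (hx' : φ (r.ε fun i => σ.symm (x i)) = 0)
    obtain ⟨y, hy⟩ := r.ker (fun i => σ.symm (x i)) (by
      rw [← map_zero φ] at hx'
      exact φ.injective hx')
    refine ⟨fun i => σ (y i), ?_⟩
    have h2 := U3_vecMul_map (σ : R →+* R') y (T.D 0)
    have h3 : (fun j => (σ : R →+* R') (Matrix.vecMul y (T.D 0) j)) = x := by
      rw [hy]
      funext j
      simp
    exact h2.trans h3
  ex k := U3_ex σ (r.ex k)

theorem twRes_eps (r : Res T N) (σ : R ≃+* R') (φ : N ≃+ N')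
    (hφ : ∀ (s : R) (x : N), φ (s • x) = σ s • φ x) (w : T.ι 0 → R') :
    (twRes r σ φ hφ).ε w = φ (r.ε fun i => σ.symm (w i)) := rfl

end tw

section shift
variable {A H : Type u} [CommRing A] [Group H] {M : Subgroup H} [M.Normal] {X : Type u}
  [MulAction H X] {K : Type u} [AddCommGroup K] [Module A[H] K] (F : EqFam A H X K)
  (hX : ∀ x : X, MulAction.stabilizer H x = M)

/-- `U_x → U_(g x)` -/
noncomputable def sh (g : H) (x : X) : fb F hX x ≃+ fb F hX (g • x) where
  toFun k := ⟨toRs M K ((single g 1 : A[H]) • (toRs M K).symm k.1), F.mem g 1 x _ k.2⟩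
  invFun k := ⟨toRs M K ((single g⁻¹ 1 : A[H]) • (toRs M K).symm k.1), F.mem_inv g k.2⟩
  left_inv k := by
    refine Subtype.ext ?_
    change (single g⁻¹ 1 : A[H]) • ((single g 1 : A[H]) • (toRs M K).symm k.1) = k.1
    rw [← mul_smul, single_mul_single, inv_mul_cancel, one_mul, ← one_def, one_smul]
    rfl
  right_inv k := by
    refine Subtype.ext ?_
    change (single g 1 : A[H]) • ((single g⁻¹ 1 : A[H]) • (toRs M K).symm k.1) = k.1
    rw [← mul_smul, single_mul_single, mul_inv_cancel, one_mul, ← one_def, one_smul]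
    rfl
  map_add' a b := by
    refine Subtype.ext ?_
    change (single g 1 : A[H]) • ((toRs M K).symm a.1 + (toRs M K).symm b.1) = _
    rw [smul_add]
    rfl

theorem sh_coe (g : H) (x : X) (k : fb F hX x) : (toRs M K).symm (sh F hX g x k).1 =
    (single g 1 : A[H]) • (toRs M K).symm k.1 := rfl

theorem sh_smul (g : H) (x : X) (s : A[M]) (k : fb F hX x) :
    sh F hX g x (s • k) = sg M g s • sh F hX g x k := by
  refine Subtype.ext ?_
  change (single g 1 : A[H]) • (iotaN M s • (toRs M K).symm k.1) =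
    iotaN M (sg M g s) • ((single g 1 : A[H]) • (toRs M K).symm k.1)
  rw [← mul_smul, ← mul_smul, iota_sg]

end shift


/-! ### the chain map and the formula for the coefficients -/

section main
variable {A H : Type u} [CommRing A] [StarRing A] [Group H] {M : Subgroup H} [M.Normal]
  {X : Type u} [MulAction H X] {K : Type u} [AddCommGroup K] [Module A[H] K]
  {n : ℕ} (F : EqFam A H X K) (x : Fin n → X) (T : ∀ _ : Fin n, RC A[M])
  (hX : ∀ x : X, MulAction.stabilizer H x = M) (r : ∀ i, Res (T i) (fb F hX (x i)))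

attribute [local instance] starMA

/-- the resolutions as `SRes` -/
noncomputable abbrev sr (i : Fin n) : SRes M (T i) (F.U (x i)) :=
  SRes.of_res M (F.U (x i)) _ (r i)

theorem sr_eps (i : Fin n) (z : (T i).ι 0 → A[M]) :
    (sr F x T hX r i).ε z = (toRs M K).symm ((r i).ε z).1 := rfl

/-- the twisted resolution of `U_(g x_i)` -/
noncomputable abbrev tr (g : H) (i : Fin n) :
    Res ((T i).map (sg (A := A) M g : A[M] →+* A[M])) (fb F hX (g • x i)) :=
  twRes (r i) (sg M g) (sh F hX g (x i)) (sh_smul F hX g (x i))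

/-- the chain map: `w ↦ w g` in the block `i` -/
noncomputable def um (g : H) (i : Fin n) (k : ℕ) :
    ((T i).ι k → A[M]) →ₗ[A[M]] Rs M ((sumRC (fun _ : Fin n => M) T).ι k → A[H]) where
  toFun w := toRs M _ (plc i fun a => iotaN M (w a) * single g 1)
  map_add' w w' := by
    rw [← map_add]
    congr 1
    refine Eq.trans ?_ (plc_add i _ _)
    congr 1
    funext a
    rw [Pi.add_apply, map_add, add_mul]
    rfl
  map_smul' s w := by
    rw [RingHom.id_apply, toRs_smul]
    congr 1
    refine Eq.trans ?_ (plc_smul i _ _)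
    congr 1
    funext a
    rw [Pi.smul_apply, smul_eq_mul, map_mul, mul_assoc]
    rfl

theorem um_apply (g : H) (i : Fin n) (k : ℕ) (w : (T i).ι k → A[M]) :
    (toRs M _).symm (um T g i k w) = plc i fun a => iotaN M (w a) * single g (1 : A) := rfl

theorem um_d (g : H) (i : Fin n) (k : ℕ) (w : (T i).ι (k + 1) → A[M]) :
    (toRs M _).symm (um T g i k (Matrix.vecMul w (((T i).D k).map (sg M g)))) =
      Matrix.vecMul ((toRs M _).symm (um T g i (k + 1) w))
        ((sumRC (fun _ : Fin n => M) T).D k) := by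
  rw [um_apply, um_apply, sumRC_vecMul_plc]
  congr 1
  funext b
  simp only [Matrix.vecMul, dotProduct, Matrix.map_apply, map_sum, map_mul, Finset.sum_mul]
  refine Finset.sum_congr rfl fun a _ => ?_
  rw [mul_assoc, mul_assoc, iota_sg]

theorem um_e (P : Res (sumRC (fun _ : Fin n => M) T) F.tot)
    (hP : ∀ y, (P.ε y).1 = te F x T (sr F x T hX r) y) (g : H) (i : Fin n)
    (w : (T i).ι 0 → A[M]) :
    toRs M F.tot (P.ε ((toRs M _).symm (um T g i 0 w))) =
      mkl F hX (g • x i) ((tr F x T hX r g i).ε w) := by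
  refine Subtype.ext ?_
  change (P.ε (plc i fun a => iotaN M (w a) * single g (1 : A))).1 =
    Tw.mk A H (g • x i) ((single g 1 : A[H]) • (sr F x T hX r i).ε fun a => (sg M g).symm (w a))
  rw [hP, te_plc, (sr F x T hX r i).eval, Finset.smul_sum, mk_sum]
  refine Finset.sum_congr rfl fun a _ => ?_
  rw [mul_smul, Tw.single_smul, iota_mk (g • x i) (fixM hX _)]
  congr 1
  rw [← mul_smul, ← mul_smul, ← iota_sg, RingEquiv.apply_symm_apply]

/-- the row of the coefficient -/
noncomputable def rw' (g : H) (i : Fin n) (q : ℕ) (c : (sumRC (fun _ : Fin n => M) T).ι q → A[H]) :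
    (T i).ι q → A[M] := fun a => sg M g (prL M g (c ⟨i, a⟩))

theorem conj_sg (g : H) {I J : Type} (D : Matrix I J A[M]) :
    (D.map (sg M g)).conjTranspose = D.conjTranspose.map (sg M g) := by
  exact Matrix.ext fun i j => star_sg M g (D j i)

theorem vecMul_sg (g : H) {I J : Type} [Fintype I] (D : Matrix I J A[M]) (w : I → A[M]) :
    Matrix.vecMul (fun a => sg M g (w a)) (D.map (sg M g)) =
      fun b => sg M g (Matrix.vecMul w D b) := by
  funext b
  simp only [Matrix.vecMul, dotProduct, Matrix.map_apply, map_sum, map_mul]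

theorem rw'_cy (g : H) (i : Fin n) (q : ℕ) (c : (sumRC (fun _ : Fin n => M) T).cy q) :
    rw' T g i q c.1 ∈ ((T i).map (sg (A := A) M g : A[M] →+* A[M])).cy q := by
  have hc : Matrix.vecMul c.1 ((sumRC (fun _ : Fin n => M) T).D q).conjTranspose = 0 := c.2
  change Matrix.vecMul (fun a => sg M g (prL M g (c.1 ⟨i, a⟩)))
    (((T i).D q).map (sg M g)).conjTranspose = 0
  rw [conj_sg, vecMul_sg]
  funext b
  rw [← prL_vecMul]
  have h1 := congrFun hc ⟨i, b⟩
  rw [sumRC_conj] at h1
  rw [← vecMul_blk (fun i => ((T i).D q).conjTranspose.map (iotaN M)) c.1 i b]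
  refine (congrArg (fun s => sg M g (prL M g s)) h1).trans ?_
  change sg M g (prL M g 0) = 0
  rw [prL_zero, map_zero]

theorem func_eq (P : Res (sumRC (fun _ : Fin n => M) T) F.tot) (g : H) (i : Fin n) (q : ℕ)
    (c : (sumRC (fun _ : Fin n => M) T).ι q → A[H]) :
    ((psiL A M).comp (rsMap M (tF P q c))).comp (um T g i q) =
      tF (tr F x T hX r g i) q (rw' T g i q c) := by
  refine LinearMap.ext fun w => ?_
  change psiN M ((plc i fun a => iotaN M (w a) * single g (1 : A)) ⬝ᵥ star c) =
    w ⬝ᵥ star (rw' T g i q c)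
  simp only [dotProduct]
  rw [Fintype.sum_sigma, Finset.sum_eq_single i]
  · rw [map_sum]
    refine Finset.sum_congr rfl fun a _ => ?_
    rw [plc_same, Pi.star_apply, Pi.star_apply]
    unfold rw'
    rw [← psi_sg, star_psi, star_mul]
    have h1 : star (single g⁻¹ (1 : A) : A[H]) = single g 1 := by
      refine (starMA_single _ _).trans ?_
      rw [inv_inv, star_one]
    rw [h1, mul_assoc, psiN_left]
  · intro j _ hj
    refine Finset.sum_eq_zero fun a _ => ?_
    rw [plc_ne hj, zero_mul]
  · intro h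
    exact absurd (Finset.mem_univ _) h

/-- **the coefficient of a class** -/
theorem cf_eq {q : ℕ} (D : Rho A H M q) (hD : D.Fml) [Module.FinitePresentation A[H] F.tot]
    (P : Res (sumRC (fun _ : Fin n => M) T) F.tot)
    (hP : ∀ y, (P.ε y).1 = te F x T (sr F x T hX r) y) (g : H) (i : Fin n)
    (c : (sumRC (fun _ : Fin n => M) T).cy q) :
    D.cf F hX (g • x i) (toRs M _ (tCls P q c)) =
      tCls (tr F x T hX r g i) q ⟨rw' T g i q c.1, rw'_cy T g i q c⟩ := by
  have hc : (((psiL A M).comp (rsMap M (tF P q (c : _ → A[H])))).comp (um T g i q)) ∘ₗ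
      (tr F x T hX r g i).toPR.d q = 0 := by
    rw [func_eq F x T hX r P g i q c.1]
    exact tF_cy (tr F x T hX r g i) q ⟨rw' T g i q c.1, rw'_cy T g i q c⟩
  have h1 := hD F.tot (sumRC (fun _ : Fin n => M) T) P c (fb F hX (g • x i)) (mkl F hX (g • x i))
    (tr F x T hX r g i).toPR (um T g i) (um_e F x T hX r P hP g i) (um_d T g i) hc
  refine h1.trans ?_
  rw [tCls_apply]
  exact esCls_congr _ _ (func_eq F x T hX r P g i q c.1) _ _


theorem untw (g : H) {I J : Type} [Fintype I] (D : Matrix J I A[M]) (w : I → A[M]) (b : J) :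
    sg M g (Matrix.vecMul (fun a => (sg M g).symm (w a)) D.conjTranspose b) =
      Matrix.vecMul w (D.map (sg M g)).conjTranspose b := by
  have h5 := congrFun (vecMul_sg g D.conjTranspose (fun a => (sg M g).symm (w a))) b
  have h6 : (fun a => sg M g ((sg M g).symm (w a))) = w := by
    funext a
    exact RingEquiv.apply_symm_apply _ _
  rw [h6, ← conj_sg] at h5
  exact h5.symm

theorem rw'_zero {g : H} {i : Fin n} {q : ℕ} {c : (sumRC (fun _ : Fin n => M) T).ι q → A[H]}
    (h : rw' T g i q c = 0) (a : (T i).ι q) : prL M g (c ⟨i, a⟩) = 0 := by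
  have h1 : sg M g (prL M g (c ⟨i, a⟩)) = 0 := congrFun h a
  exact (map_eq_zero_iff _ (sg M g).injective).1 h1

theorem tCls_zero_of {R : Type u} [Ring R] [StarRing R] {W : Type u} [AddCommGroup W]
    [Module R W] {T : RC R} (P : Res T W) (p : ℕ) (c : T.cy p) (h : (c : T.ι p → R) = 0) :
    tCls P p c = 0 := by
  have h1 : c = 0 := Subtype.ext h
  rw [h1, map_zero]

theorem tCls_zero_inj {R : Type u} [Ring R] [StarRing R] {W : Type u} [AddCommGroup W]
    [Module R W] {T : RC R} (P : Res T W) (c : T.cy 0) (h : tCls P 0 c = 0) :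
    (c : T.ι 0 → R) = 0 := by
  rw [tCls_apply] at h
  have h1 := P.toPR.cls_eq_zero_zero _ (tF_cy P 0 c) h
  exact tF_inj P 0 (h1.trans (tF_zero P 0).symm)

/-- an element whose parts on all cosets vanish -/
theorem eq_zero_of_prL (s : A[H]) (h : ∀ g, prL M g s = 0) : s = 0 := by
  obtain ⟨C, hC⟩ := coset_sum M s
  rw [hC C (Finset.Subset.refl C)]
  refine Finset.sum_eq_zero fun c _ => ?_
  rw [h, map_zero, mul_zero]

/-- the part on a coset is determined by the support -/
theorem exists_supp (g : H) (s : A[H]) (h : prL M g s ≠ 0) :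
    ∃ m : M, g * m ∈ s.coeff.support := by
  have h1 : ∃ m : M, (prL M g s).coeff m ≠ 0 := by
    by_contra h2
    push Not at h2
    refine h (coeff_injective ?_)
    ext m
    rw [h2 m]
    rfl
  obtain ⟨m, hm⟩ := h1
  refine ⟨m, ?_⟩
  rw [Finsupp.mem_support_iff]
  intro h2
  apply hm
  unfold prL
  rw [psiN_coeff]
  have h3 : (single g⁻¹ (1 : A) * s).coeff (m : H) = s.coeff (g * m) := by
    rw [MonoidAlgebra.coeff_single_mul_eq_mul_coeff (m₂ := g * (m : H)), one_mul]
    intro k _
    exact inv_mul_eq_iff_eq_mul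
  rw [h3, h2]

variable (q : ℕ) (D : Rho A H M q) (hD : D.Fml) [Module.FinitePresentation A[H] F.tot]

include hD hX in
/-- finiteness of the support -/
theorem good_fin (hfin : Finite (MulAction.orbitRel.Quotient H X))
    (hT : ∀ z : X, ∃ T : RC A[M], Nonempty (Res T (fb F hX z)))
    (ξ : Rs M (ES A[H] q F.tot)) : {z | D.cf F hX z ξ ≠ 0}.Finite := by
  classical
  obtain ⟨n, x, hx1, hx2⟩ := exists_orbit_reps H X hfin
  choose T hT' using fun i => hT (x i)
  let r : ∀ i, Res (T i) (fb F hX (x i)) := fun i => (hT' i).some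
  obtain ⟨P, hP⟩ := exists_resM F x T (sr F x T hX r) hX hx1 hx2
  obtain ⟨c, hc⟩ := tCls_surj P q ((toRs M _).symm ξ)
  have hξ : ξ = toRs M _ (tCls P q c) := by rw [hc]; rfl
  have h1 : (⋃ i : Fin n, ⋃ a : (T i).ι q, (fun k : H => k • x i) ''
      ((c.1 ⟨i, a⟩).coeff.support : Set H)).Finite := by
    refine Set.finite_iUnion fun i => Set.finite_iUnion fun a => ?_
    exact (Finset.finite_toSet _).image _
  refine h1.subset ?_
  intro z hz
  obtain ⟨i, g, rfl⟩ := hx1 z
  have h2 : D.cf F hX (g • x i) ξ ≠ 0 := hz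
  rw [hξ, cf_eq F x T hX r D hD P hP g i c] at h2
  have h3 : rw' T g i q c.1 ≠ 0 := fun h0 => h2 (tCls_zero_of _ q _ h0)
  obtain ⟨a, ha⟩ := Function.ne_iff.1 h3
  have h4 : prL M g (c.1 ⟨i, a⟩) ≠ 0 := by
    intro h0
    apply ha
    change sg M g (prL M g (c.1 ⟨i, a⟩)) = 0
    rw [h0, map_zero]
  obtain ⟨m, hm⟩ := exists_supp g _ h4
  refine Set.mem_iUnion.2 ⟨i, Set.mem_iUnion.2 ⟨a, g * m, hm, ?_⟩⟩
  change (g * (m : H)) • x i = g • x i
  rw [mul_smul, fixM hX (x i) m.1 m.2]

include hD hX in
/-- a class with vanishing coefficients is zero -/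
theorem good_ext (hfin : Finite (MulAction.orbitRel.Quotient H X))
    (hT : ∀ z : X, ∃ T : RC A[M], Nonempty (Res T (fb F hX z)))
    (ξ : Rs M (ES A[H] q F.tot)) (h0 : ∀ z, D.cf F hX z ξ = 0) : ξ = 0 := by
  obtain ⟨n, x, hx1, hx2⟩ := exists_orbit_reps H X hfin
  choose T hT' using fun i => hT (x i)
  let r : ∀ i, Res (T i) (fb F hX (x i)) := fun i => (hT' i).some
  obtain ⟨P, hP⟩ := exists_resM F x T (sr F x T hX r) hX hx1 hx2
  obtain ⟨c, hc⟩ := tCls_surj P q ((toRs M _).symm ξ)
  have hξ : ξ = toRs M _ (tCls P q c) := by rw [hc]; rfl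
  have h1 : ∀ g i, tCls (tr F x T hX r g i) q ⟨rw' T g i q c.1, rw'_cy T g i q c⟩ = 0 := by
    intro g i
    rw [← cf_eq F x T hX r D hD P hP g i c, ← hξ]
    exact h0 _
  have h2 : tCls P q c = 0 := by
    cases q with
    | zero =>
      refine tCls_zero_of _ 0 _ ?_
      funext ⟨i, a⟩
      refine eq_zero_of_prL (M := M) _ fun g => ?_
      have h4 : rw' T g i 0 c.1 = 0 := tCls_zero_inj (tr F x T hX r g i) _ (h1 g i)
      exact rw'_zero T h4 a
    | succ q =>
      have h3 : ∀ i, ∃ w, Matrix.vecMul w (((T i).D q).conjTranspose.map (iotaN M)) =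
          fun a => c.1 ⟨i, a⟩ := by
        intro i
        refine row_lift M ((T i).D q).conjTranspose _ fun g => ?_
        have h4 : (⟨rw' T g i (q + 1) c.1, rw'_cy T g i (q + 1) c⟩ :
            ((T i).map (sg (A := A) M g : A[M] →+* A[M])).cy (q + 1)) ∈
            LinearMap.ker (tCls (tr F x T hX r g i) (q + 1)) := h1 g i
        rw [tCls_ker] at h4
        obtain ⟨w, hw⟩ : ∃ w : (T i).ι q → A[M],
          Matrix.vecMul w (((T i).D q).map (sg M g)).conjTranspose = rw' T g i (q + 1) c.1 := h4
        refine ⟨fun a => (sg M g).symm (w a), ?_⟩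
        funext b
        apply (sg M g).injective
        rw [untw, hw]
        rfl
      choose w hw using h3
      have h7 : c ∈ LinearMap.ker (tCls P (q + 1)) := by
        rw [tCls_ker]
        refine ⟨∑ i, plc i (w i), ?_⟩
        have h8 : Matrix.vecMul (∑ i, plc i (w i))
            ((sumRC (fun _ : Fin n => M) T).D q).conjTranspose =
            ∑ i, Matrix.vecMul (plc i (w i))
              ((sumRC (fun _ : Fin n => M) T).D q).conjTranspose := Matrix.sum_vecMul _ _ _
        refine h8.trans ?_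
        refine Eq.trans ?_ (sum_plc (J := fun i => (T i).ι (q + 1)) c.1).symm
        refine Finset.sum_congr rfl fun i _ => ?_
        rw [sumRC_plc_conj, hw]
      exact h7
  rw [hξ, h2]
  rfl

include hD hX in
/-- classes with one coefficient -/
theorem good_ind (hfin : Finite (MulAction.orbitRel.Quotient H X))
    (hT : ∀ z : X, ∃ T : RC A[M], Nonempty (Res T (fb F hX z))) (z : X)
    (C : ES A[M] q (fb F hX z)) :
    ∃ ξ : Rs M (ES A[H] q F.tot), D.cf F hX z ξ = C ∧ ∀ y, y ≠ z → D.cf F hX y ξ = 0 := by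
  obtain ⟨n, x, hx1, hx2⟩ := exists_orbit_reps H X hfin
  choose T hT' using fun i => hT (x i)
  let r : ∀ i, Res (T i) (fb F hX (x i)) := fun i => (hT' i).some
  obtain ⟨P, hP⟩ := exists_resM F x T (sr F x T hX r) hX hx1 hx2
  obtain ⟨i, g, rfl⟩ := hx1 z
  obtain ⟨w, rfl⟩ := tCls_surj (tr F x T hX r g i) q C
  have hv : (fun a => (sg M g).symm (w.1 a)) ∈ (T i).cy q := by
    obtain ⟨w, hw⟩ := w
    replace hw : Matrix.vecMul w (((T i).D q).map (sg M g)).conjTranspose = 0 := hw
    change Matrix.vecMul (fun a => (sg M g).symm (w a)) ((T i).D q).conjTranspose = 0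
    funext b
    apply (sg M g).injective
    exact (untw g ((T i).D q) w b).trans ((congrFun hw b).trans (map_zero (sg M g)).symm)
  obtain ⟨c, hc⟩ : ∃ c : (sumRC (fun _ : Fin n => M) T).cy q,
      c = (single g 1 : A[H]) • jC (fun _ : Fin n => M) T q i ⟨_, hv⟩ := ⟨_, rfl⟩
  have hc1 : c.1 = plc i fun a => single g (1 : A) * iotaN M ((sg M g).symm (w.1 a)) := by
    rw [hc]
    exact (plc_smul i (single g (1 : A) : A[H]) _).symm
  refine ⟨toRs M _ (tCls P q c), ?_, ?_⟩
  · rw [cf_eq F x T hX r D hD P hP g i c]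
    congr 1
    refine Subtype.ext ?_
    funext a
    change sg M g (prL M g (c.1 ⟨i, a⟩)) = w.1 a
    rw [hc1, plc_same, prL_single_mul, inv_mul_cancel, prL_one_iota, RingEquiv.apply_symm_apply]
  · intro y hy
    obtain ⟨j, h, rfl⟩ := hx1 y
    rw [cf_eq F x T hX r D hD P hP h j c]
    refine tCls_zero_of _ q _ ?_
    funext a
    change sg M h (prL M h (c.1 ⟨j, a⟩)) = 0
    rw [hc1]
    by_cases hj : j = i
    · subst hj
      have h1 : g⁻¹ * h ∉ M := by
        intro h1
        apply hy
        have h2 := fixM hX (x j) _ h1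
        rw [mul_smul, inv_smul_eq_iff] at h2
        exact h2
      rw [plc_same, prL_single_mul]
      unfold prL
      rw [psiN_iota_right, psiN_single_of_not_mem, zero_mul, map_zero]
      intro h2
      exact h1 (by rw [← inv_inv (g⁻¹ * h)]; exact M.inv_mem h2)
    · rw [plc_ne hj, prL_zero, map_zero]

end main

/-- **ROW RHO2** -/
theorem rowRho2 (A H : Type u) [CommRing A] [StarRing A] [Group H] (M : Subgroup H) :
    RowRho2 A H M := by
  intro hM hN q D hD
  have hT : ∀ {X : Type u} [MulAction H X] {K : Type u} [AddCommGroup K] [Module A[H] K]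
      (F : EqFam A H X K) (hX : ∀ x : X, MulAction.stabilizer H x = M) (_ : AllFG F hX) (z : X),
      ∃ T : RC A[M], Nonempty (Res T (fb F hX z)) := by
    intro X _ K _ _ F hX hF z
    have : Module.Finite A[M] (fb F hX z) := Module.Finite.of_fg (hF z)
    exact exists_res (fb F hX z)
  refine ⟨?_, ?_, ?_⟩
  · intro X _ K _ _ F hX hfin hF _ ξ
    exact good_fin F hX q D hD hfin (hT F hX hF) ξ
  · intro X _ K _ _ F hX hfin hF _ ξ h0
    exact good_ext F hX q D hD hfin (hT F hX hF) ξ h0
  · intro X _ K _ _ F hX hfin hF _ z C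
    exact good_ind F hX q D hD hfin (hT F hX hF) z C

end Pool.Agent.PLX.R2

namespace Pool.Agent.PLX

universe u

/-- **ROW RHO2** -/
theorem rowRho2 (A H : Type u) [CommRing A] [StarRing A] [Group H] (M : Subgroup H) :
    RowRho2 A H M := R2.rowRho2 A H M

end Pool.Agent.PLX
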