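import Mathlib
import Pool.Agent.Lib.PLX.Rows
import Pool.Agent.Lib.PLS.Rows
import Pool.Agent.Lib.UP.F5b
import Pool.Agent.Lib.UP.U1
import Pool.Agent.Lib.UP.U3b

/-!
# T4, stage 3, row S: the support argument  (helper55)

The coefficient at `c` of the restriction of a class `ξ` of `N` to the total module of the family of the
translates `c L` is the restriction to `c L` of the image of `ξ` in `Ext_{A[M]}(N, A[M])` (a remark of
helper50), and this image is zero on one translate if it is zero on another one.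
-/

set_option autoImplicit false
set_option linter.unusedSectionVars false
set_option linter.unusedVariables false

open MonoidAlgebra Pool.Agent.UP Pool.Agent.UPV Pool.Agent.UP25 Pool.Agent.PLS

namespace Pool.Agent.PLX

universe u

namespace Sr

section
variable {A H : Type u} [CommRing A] [Group H] {M : Subgroup H} {N : Type u} [AddCommGroup N]
  [Module A[H] N]

theorem stabQ (hM : M.Normal) (x : H ⧸ M) : MulAction.stabilizer H x = M := by
  obtain ⟨g, rfl⟩ := QuotientGroup.mk_surjective x
  ext h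
  rw [MulAction.mem_stabilizer_iff]
  change ((h * g : H) : H ⧸ M) = (g : H ⧸ M) ↔ h ∈ M
  rw [eq_comm, QuotientGroup.eq, ← mul_assoc]
  constructor
  · intro h1
    have := hM.conj_mem _ h1 g
    have e : g * (g⁻¹ * h * g) * g⁻¹ = h := by group
    rwa [e] at this
  · intro h1
    have := hM.conj_mem _ h1 g⁻¹
    rwa [inv_inv] at this

theorem orbQ : Finite (MulAction.orbitRel.Quotient H (H ⧸ M)) := by
  have : Subsingleton (MulAction.orbitRel.Quotient H (H ⧸ M)) :=
    (MulAction.pretransitive_iff_subsingleton_quotient H (H ⧸ M)).1 inferInstance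
  infer_instance

/-- the family of the translates `g L`, `g ∈ H / M` -/
noncomputable def famL (L : Submodule A[M] (Rs M N)) : EqFam A H (H ⧸ M) N where
  U x :=
    { carrier := {n | ∀ g : H, (g : H ⧸ M) = x → toRs M N ((single g⁻¹ 1 : A[H]) • n) ∈ L}
      add_mem' := by
        intro a b ha hb g hg
        rw [smul_add, map_add]
        exact L.add_mem (ha g hg) (hb g hg)
      zero_mem' := by
        intro g _
        rw [smul_zero, map_zero]
        exact L.zero_mem
      neg_mem' := by
        intro a ha g hg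
        rw [smul_neg, map_neg]
        exact L.neg_mem (ha g hg) }
  mem h a x m hm := by
    intro g hg
    have h1 : ((h⁻¹ * g : H) : H ⧸ M) = x := by
      have : h⁻¹ • (g : H ⧸ M) = h⁻¹ • h • x := by rw [hg]
      rwa [inv_smul_smul] at this
    have h2 := L.smul_mem (single 1 a : A[M]) (hm (h⁻¹ * g) h1)
    rw [toRs_smul, iotaN_single, smul_smul, single_mul_single] at h2
    rw [smul_smul, single_mul_single]
    have e1 : ((1 : M) : H) * (h⁻¹ * g)⁻¹ = g⁻¹ * h := by
      rw [OneMemClass.coe_one]; group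
    rw [e1, mul_one] at h2
    rw [one_mul]
    exact h2

theorem mem_famL (L : Submodule A[M] (Rs M N)) (g : H) (n : N) :
    n ∈ (famL L).U (g : H ⧸ M) ↔ toRs M N ((single g⁻¹ 1 : A[H]) • n) ∈ L := by
  constructor
  · intro h
    exact h g rfl
  · intro h g' hg'
    have hm : g'⁻¹ * g ∈ M := QuotientGroup.eq.1 hg'
    have h2 := L.smul_mem (single ⟨g'⁻¹ * g, hm⟩ 1 : A[M]) h
    rw [toRs_smul, iotaN_single, smul_smul, single_mul_single, mul_one] at h2
    have e1 : g'⁻¹ * g * g⁻¹ = g'⁻¹ := by group
    change toRs M N ((single (g'⁻¹ * g * g⁻¹) 1 : A[H]) • n) ∈ L at h2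
    rwa [e1] at h2

theorem famL_mono {L L' : Submodule A[M] (Rs M N)} (h : L ≤ L') (x : H ⧸ M) :
    (famL L).U x ≤ (famL L').U x := fun n hn g hg => h (hn g hg)

/-- the member at the coset of `g`, as a submodule -/
noncomputable def trL (hM : M.Normal) (L : Submodule A[M] (Rs M N)) (x : H ⧸ M) :
    Submodule A[M] (Rs M N) := fb (famL L) (stabQ hM) x

theorem mem_trL (hM : M.Normal) (L : Submodule A[M] (Rs M N)) (g : H) (n : N) :
    toRs M N n ∈ trL hM L (g : H ⧸ M) ↔ toRs M N ((single g⁻¹ 1 : A[H]) • n) ∈ L := mem_famL L g n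

theorem mem_trL_one (hM : M.Normal) (L : Submodule A[M] (Rs M N)) (n : Rs M N) :
    n ∈ trL hM L ((1 : H) : H ⧸ M) ↔ n ∈ L := by
  have h1 := mem_trL hM L 1 ((toRs M N).symm n)
  rw [inv_one] at h1
  have h2 : ((single 1 1 : A[H]) • (toRs M N).symm n) = (toRs M N).symm n := one_smul _ _
  rw [h2, AddEquiv.apply_symm_apply] at h1
  exact h1

/-- conjugation by `g` -/
noncomputable def sgM (hM : M.Normal) (g : H) : A[M] ≃+* A[M] :=
  haveI := hM
  mapDomainRingEquiv A (MulAut.conjNormal g : MulAut M)

theorem sgM_single (hM : M.Normal) (g : H) (m : M) (a : A) : sgM hM g (single m a : A[M]) =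
    single ⟨g * m * g⁻¹, hM.conj_mem _ m.2 g⟩ a := by
  haveI := hM
  unfold sgM
  rw [mapDomainRingEquiv_single]
  rfl

theorem iota_sgM (hM : M.Normal) (g : H) (r : A[M]) :
    iotaN M (sgM hM g r) * single g 1 = single g 1 * iotaN M r := by
  induction r using MonoidAlgebra.induction_linear with
  | zero => rw [map_zero, map_zero, zero_mul, mul_zero]
  | add y z hy hz => rw [map_add, map_add, map_add, add_mul, mul_add, hy, hz]
  | single h a =>
    rw [sgM_single, iotaN_single, iotaN_single, single_mul_single, single_mul_single, mul_one,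
      one_mul]
    congr 1
    change g * h * g⁻¹ * g = g * h
    group

/-- the action of `g` is semilinear -/
noncomputable def actS (hM : M.Normal) (g : H) :
    Rs M N →ₛₗ[((sgM (A := A) hM g : A[M] ≃+* A[M]) : A[M] →+* A[M])] Rs M N where
  toFun n := toRs M N ((single g 1 : A[H]) • (toRs M N).symm n)
  map_add' a b := by rw [map_add, smul_add, map_add]
  map_smul' r k := by
    rw [rs_smul, toRs_smul, smul_smul, smul_smul]
    congr 2
    exact (iota_sgM hM g r).symm

theorem actS_apply (hM : M.Normal) (g : H) (n : Rs M N) :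
    actS (A := A) hM g n = toRs M N ((single g 1 : A[H]) • (toRs M N).symm n) := rfl

theorem act_inv (g : H) (n : N) : (single g⁻¹ 1 : A[H]) • ((single g 1 : A[H]) • n) = n := by
  rw [smul_smul, single_mul_single, inv_mul_cancel, mul_one]
  exact one_smul _ _

theorem act_inv' (g : H) (n : N) : (single g 1 : A[H]) • ((single g⁻¹ 1 : A[H]) • n) = n := by
  rw [smul_smul, single_mul_single, mul_inv_cancel, mul_one]
  exact one_smul _ _

theorem trL_eq (hM : M.Normal) (L : Submodule A[M] (Rs M N)) (g : H) :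
    trL hM L (g : H ⧸ M) = L.map (actS hM g) := by
  ext n
  constructor
  · intro h
    refine ⟨toRs M N ((single g⁻¹ 1 : A[H]) • (toRs M N).symm n), ?_, ?_⟩
    · exact (mem_trL hM L g ((toRs M N).symm n)).1 h
    · rw [actS_apply, AddEquiv.symm_apply_apply, act_inv', AddEquiv.apply_symm_apply]
  · rintro ⟨m, hm, rfl⟩
    rw [actS_apply, mem_trL, act_inv, AddEquiv.apply_symm_apply]
    exact hm

theorem trL_fg (hM : M.Normal) {L : Submodule A[M] (Rs M N)} (hL : L.FG) (x : H ⧸ M) :
    (trL hM L x).FG := by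
  obtain ⟨g, rfl⟩ := QuotientGroup.mk_surjective x
  rw [trL_eq]
  haveI : RingHomSurjective ((sgM (A := A) hM g : A[M] ≃+* A[M]) : A[M] →+* A[M]) :=
    ⟨(sgM (A := A) hM g).surjective⟩
  exact hL.map _

theorem famL_fg (hM : M.Normal) {L : Submodule A[M] (Rs M N)} (hL : L.FG) :
    AllFG (famL L) (stabQ hM) := trL_fg hM hL

/-- the quotient by a translate -/
theorem loc_trL (hM : M.Normal) [IsNoetherianRing A[M]] {p : ℕ} (L : Submodule A[M] (Rs M N))
    (h : Loc A[M] p (Rs M N ⧸ L)) (x : H ⧸ M) : Loc A[M] p (Rs M N ⧸ trL hM L x) := by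
  obtain ⟨g, rfl⟩ := QuotientGroup.mk_surjective x
  let φ₀ : Rs M N →+ (Rs M N ⧸ L) :=
    L.mkQ.toAddMonoidHom.comp (actS (A := A) hM g⁻¹).toAddMonoidHom
  have hφ₀ : ∀ n, φ₀ n = L.mkQ (actS hM g⁻¹ n) := fun n => rfl
  have hz : ∀ n, φ₀ n = 0 ↔ n ∈ trL hM L (g : H ⧸ M) := by
    intro n
    rw [hφ₀, Submodule.mkQ_apply, Submodule.Quotient.mk_eq_zero, actS_apply,
      ← mem_trL, AddEquiv.apply_symm_apply]
  let φ : (Rs M N ⧸ trL hM L (g : H ⧸ M)) →+ (Rs M N ⧸ L) :=
    QuotientAddGroup.lift (trL hM L (g : H ⧸ M)).toAddSubgroup φ₀ fun n hn => (hz n).2 hn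
  have hφ : ∀ n : Rs M N, φ (Submodule.Quotient.mk n) = φ₀ n := fun n => rfl
  refine Loc.semi_inj (sgM (A := A) hM g⁻¹) φ ?_ ?_ h
  · rw [injective_iff_map_eq_zero]
    intro x hx
    obtain ⟨n, rfl⟩ := Submodule.mkQ_surjective _ x
    rw [Submodule.mkQ_apply, hφ] at hx
    exact (Submodule.Quotient.mk_eq_zero _).2 ((hz n).1 hx)
  · intro r x
    obtain ⟨n, rfl⟩ := Submodule.mkQ_surjective _ x
    rw [← map_smul, Submodule.mkQ_apply, Submodule.mkQ_apply, hφ, hφ, hφ₀, hφ₀]
    rw [(actS (A := A) hM g⁻¹).map_smulₛₗ, map_smul]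
    rfl

/-! ### The sum -/

/-- the sum of the values -/
noncomputable def sumX (A H X N : Type u) [CommRing A] [Group H] [MulAction H X] [AddCommGroup N]
    [Module A[H] N] : Tw A H X N →ₗ[A[H]] N :=
  Tw.lift A H (fun _ => AddMonoidHom.id N) fun _ _ _ _ => rfl

theorem sumX_mk {X : Type u} [MulAction H X] (x : X) (n : N) :
    sumX A H X N (Tw.mk A H x n) = n := by
  unfold sumX
  rw [Tw.lift_mk]
  rfl

/-- the sum map of a family -/
noncomputable def sumF {X : Type u} [MulAction H X] (F : EqFam A H X N) : F.tot →ₗ[A[H]] N :=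
  (sumX A H X N).comp F.tot.subtype

theorem sumF_mk {X : Type u} [MulAction H X] (F : EqFam A H X N) (x : X) (n : N) (h : n ∈ F.U x) :
    sumF F ⟨Tw.mk A H x n, F.mk_mem h⟩ = n := sumX_mk (A := A) (H := H) x n

/-- the sum map is surjective if the lattice contains generators -/
theorem sumF_surjective (hM : M.Normal) (L : Submodule A[M] (Rs M N)) (s : Set N)
    (hs : Submodule.span A[H] s = ⊤) (hL : ∀ n ∈ s, toRs M N n ∈ L) :
    Function.Surjective (sumF (famL L)) := by
  rw [← LinearMap.range_eq_top, eq_top_iff, ← hs, Submodule.span_le]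
  intro n hn
  have h1 : n ∈ (famL L).U ((1 : H) : H ⧸ M) :=
    (mem_trL_one hM L (toRs M N n)).2 (hL n hn)
  exact ⟨⟨Tw.mk A H ((1 : H) : H ⧸ M) n, (famL L).mk_mem h1⟩, sumX_mk (A := A) (H := H) _ n⟩

theorem sumF_mkl (hM : M.Normal) (L : Submodule A[M] (Rs M N)) (x : H ⧸ M) :
    (rsMap M (sumF (famL L))).comp (mkl (famL L) (stabQ hM) x) = (trL hM L x).subtype := by
  refine LinearMap.ext fun n => ?_
  apply (toRs M N).symm.injective
  exact sumX_mk (A := A) (H := H) x ((toRs M N).symm n.1)

end

section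
variable {R : Type u} [Ring R] [StarRing R]

/-- restriction to a submodule is injective on `Ext^q` if the quotient is in `G_(q+1)` -/
theorem esInj {q : ℕ} {K K' : Type u} [AddCommGroup K] [Module R K] [AddCommGroup K']
    [Module R K'] [Module.Finite R K'] (f : K →ₗ[R] K') (hf : Function.Injective f)
    (hQ : Loc R (q + 1) (K' ⧸ LinearMap.range f)) : Function.Injective (esMap q f) := by
  have hex : Function.Exact f (LinearMap.range f).mkQ := by
    intro x
    rw [← LinearMap.mem_ker, Submodule.ker_mkQ]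
    rfl
  have hE := es_exact_mid f (LinearMap.range f).mkQ hf (Submodule.mkQ_surjective _) hex q
  have h0 : Subsingleton (ES R q (K' ⧸ LinearMap.range f)) := (Loc.ge hQ) q (Nat.lt_succ_self q)
  rw [injective_iff_map_eq_zero]
  intro x hx
  obtain ⟨y, rfl⟩ := (hE x).1 hx
  rw [Subsingleton.elim y 0, map_zero]

/-- injectivity on `Ext^(l+1)` -/
theorem inj_of_ker {K K' : Type u} [AddCommGroup K] [Module R K] [AddCommGroup K'] [Module R K']
    (c : K →ₗ[R] K') (hcs : Function.Surjective c) (l : ℕ)
    (h : Subsingleton (ES R l (LinearMap.ker c))) : Function.Injective (esMap (l + 1) c) := by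
  have hex : Function.Exact (LinearMap.ker c).subtype c := by
    intro x
    constructor
    · intro hx
      exact ⟨⟨x, hx⟩, rfl⟩
    · rintro ⟨y, rfl⟩
      exact y.2
  have hE := es_exact_right (LinearMap.ker c).subtype c Subtype.val_injective hcs hex l
  rw [injective_iff_map_eq_zero]
  intro x hx
  obtain ⟨y, rfl⟩ := (hE x).1 hx
  rw [Subsingleton.elim y 0, map_zero]

/-- a class of `N` which is zero on the submodule `P'` is zero on the finitely generated submodule
`P`, if `N / P'` is in `G_(q+1)` -/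
theorem zero_of_zero {q : ℕ} {K : Type u} [AddCommGroup K] [Module R K] (P P' : Submodule R K)
    (hP : P.FG) (hQ : Loc R (q + 1) (K ⧸ P')) (z : ES R q K) (h : esMap q P'.subtype z = 0) :
    esMap q P.subtype z = 0 := by
  have : Module.Finite R P := Module.Finite.iff_fg.2 hP
  let i : (P ⊓ P' : Submodule R K) →ₗ[R] P := Submodule.inclusion inf_le_left
  let i' : (P ⊓ P' : Submodule R K) →ₗ[R] P' := Submodule.inclusion inf_le_right
  have hi : Function.Injective i := Submodule.inclusion_injective inf_le_left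
  have h1 : LinearMap.range i ≤ P'.comap P.subtype := by
    rintro _ ⟨w, rfl⟩
    exact w.2.2
  have hQ' : Loc R (q + 1) (P ⧸ LinearMap.range i) := by
    refine Loc.of_injective (Submodule.mapQ _ P' P.subtype h1) ?_ hQ
    rw [injective_iff_map_eq_zero]
    intro x hx
    obtain ⟨y, rfl⟩ := Submodule.mkQ_surjective _ x
    have h2 : (y : K) ∈ P' := (Submodule.Quotient.mk_eq_zero _).1 hx
    exact (Submodule.Quotient.mk_eq_zero _).2 ⟨⟨y.1, y.2, h2⟩, rfl⟩
  apply esInj i hi hQ'
  rw [map_zero, ← esMap_comp]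
  have e : P.subtype.comp i = P'.subtype.comp i' := rfl
  rw [e, esMap_comp, h, map_zero]

end

end Sr

open Sr

section
variable {A H : Type u} [CommRing A] [StarRing A] [Group H] {M : Subgroup H}

attribute [local instance] starMA

/-- **row S** -/
theorem rowS (h1 : RowRho1 A H M) (h2 : RowRho2 A H M) (h3 : RowTFP A H M) (h4 : RowGMT A H M)
    (hC : RowC A H M) : RowS A H M := by
  intro hM hNo hAR hc hInf q N _ _ _ L0 hL0 hN hQ l hl
  rcases Nat.lt_succ_iff_lt_or_eq.1 hl with hl | rfl
  · exact hC hM hNo hAR hc q N hN l hl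
  change Subsingleton (ES A[H] l N)
  haveI := hNo
  obtain ⟨s, hs⟩ := (Module.Finite.fg_top : (⊤ : Submodule A[H] N).FG)
  -- the lattice
  let L : Submodule A[M] (Rs M N) := L0 ⊔ Submodule.span A[M] (toRs M N '' (s : Set N))
  have hL : L.FG := hL0.sup (Submodule.fg_span (s.finite_toSet.image _))
  have hLQ : Loc A[M] (l + 1) (Rs M N ⧸ L) := by
    refine Loc.of_surjective (Submodule.mapQ L0 L LinearMap.id (le_sup_left : L0 ≤ L)) ?_ hQ
    intro x
    obtain ⟨y, rfl⟩ := Submodule.mkQ_surjective _ x
    exact ⟨Submodule.Quotient.mk y, rfl⟩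
  let F : EqFam A H (H ⧸ M) N := famL L
  have hX : ∀ x : H ⧸ M, MulAction.stabilizer H x = M := stabQ hM
  have hF : AllFG F hX := famL_fg hM hL
  have hO : Finite (MulAction.orbitRel.Quotient H (H ⧸ M)) := orbQ
  have hFP : Module.FinitePresentation A[H] F.tot := h3 hNo (H ⧸ M) N F hX hO hF
  let c : F.tot →ₗ[A[H]] N := sumF F
  have hcs : Function.Surjective c := sumF_surjective hM L s hs fun n hn =>
    (le_sup_right : _ ≤ L) (Submodule.subset_span ⟨n, hn, rfl⟩)
  -- the data
  obtain ⟨D, hD⟩ := h1 hc l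
  have hG : D.Good := h2 hM hNo l D hD
  -- `c^*` is injective on `Ext^l`
  have hcinj : Function.Injective (esMap l c) := by
    cases l with
    | zero => exact esMap_zero_injective c hcs
    | succ l =>
      obtain ⟨D', hD'⟩ := h1 hc (l + 1)
      have hG' : D'.Good := h2 hM hNo (l + 1) D' hD'
      have hFq : GM A M (l + 1) F.tot := by
        refine (h4 hNo hAR (l + 1) D' hG' (H ⧸ M) N F hX hO hF).1 fun x => ?_
        exact Loc.of_injective (Submodule.subtype _) Subtype.val_injective hN
      have hKfg : (LinearMap.ker c).FG := Module.FinitePresentation.fg_ker c hcs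
      have : Module.FinitePresentation A[H] (LinearMap.ker c) := fp_submodule hc _ hKfg
      have hKq : GM A M (l + 1) (LinearMap.ker c) :=
        Loc.of_injective (rsMap M (LinearMap.ker c).subtype)
          (fun a b hab => Subtype.val_injective hab) hFq
      have h2 : Subsingleton (ES A[H] l (LinearMap.ker c)) :=
        hC hM hNo hAR hc (l + 1) (LinearMap.ker c) hKq l (Nat.lt_succ_self l)
      exact inj_of_ker c hcs l h2
  -- all classes vanish
  have key : ∀ ξ : ES A[H] l N, ξ = 0 := by
    intro ξ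
    set z : ES A[M] l (Rs M N) := D.ρ N (toRs M _ ξ) with hz
    have hcf : ∀ x : H ⧸ M, D.cf F hX x (toRs M _ (esMap l c ξ)) =
        esMap l (trL hM L x).subtype z := by
      intro x
      change esMap l (mkl F hX x) (D.ρ F.tot (toRs M _ (esMap l c ξ))) = _
      rw [D.nat F.tot N, ← esMap_comp, sumF_mkl hM]
      rfl
    have hall : ∀ x y : H ⧸ M, esMap l (trL hM L x).subtype z = 0 →
        esMap l (trL hM L y).subtype z = 0 := fun x y h =>
      zero_of_zero (trL hM L y) (trL hM L x) (trL_fg hM hL y) (loc_trL hM L hLQ x) z h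
    have hzero : ∀ x : H ⧸ M, D.cf F hX x (toRs M _ (esMap l c ξ)) = 0 := by
      by_contra hcon
      push Not at hcon
      obtain ⟨x, hx⟩ := hcon
      have hfin := hG.fin F hX hO hF (toRs M _ (esMap l c ξ))
      refine Set.infinite_univ (hfin.subset fun y _ => ?_)
      intro hy
      refine hx ?_
      rw [hcf] at hy ⊢
      exact hall y x hy
    have h5 : toRs M (ES A[H] l F.tot) (esMap l c ξ) = 0 := hG.ext F hX hO hF _ hzero
    have h6 : esMap l c ξ = 0 := h5
    exact hcinj (by rw [h6, map_zero])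
  exact ⟨fun a b => (key a).trans (key b).symm⟩

end

end Pool.Agent.PLX
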