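import Mathlib
import Pool.Agent.Lib.PLX.Rows
import Pool.Agent.Lib.UP25.Ses

/-!
# T4, stage 3, row TFP: the total modules are finitely presented
-/

set_option autoImplicit false
set_option linter.unusedSectionVars false

open MonoidAlgebra Pool.Agent.UP Pool.Agent.UPV Pool.Agent.UP25 Pool.Agent.PLS

namespace Pool.Agent.PLX

universe u

section
variable {A H X K : Type u} [CommRing A] [Group H] [MulAction H X] [AddCommGroup K]
  [Module A[H] K]

theorem tfp_noeth (M : Subgroup H) (x : X) (h : MulAction.stabilizer H x = M)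
    (hn : IsNoetherianRing A[M]) : IsNoetherianRing A[MulAction.stabilizer H x] := by
  subst h
  exact hn

theorem tfp_fg (F : EqFam A H X K) (M : Subgroup H) (x : X) (h : MulAction.stabilizer H x = M)
    (hx : ∀ g ∈ M, g • x = x) (hf : (F.loc M x hx).FG) :
    (F.loc (MulAction.stabilizer H x) x (stab_fix x)).FG := by
  subst h
  exact hf

end

/-- **ROW TFP** -/
theorem rowTFP (A H : Type u) [CommRing A] [Group H] (M : Subgroup H) : RowTFP A H M := by
  intro hn X _ K _ _ F hX hfin hfg
  obtain ⟨n, x, hx1, hx2⟩ := exists_orbit_reps H X hfin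
  obtain ⟨T, _, ⟨R⟩⟩ := exists_tot F x hx1 hx2 (fun i => tfp_noeth M (x i) (hX _) hn)
    (fun i => tfp_fg F M (x i) (hX _) (fixM hX _) (hfg _))
  exact fp_of_res R

end Pool.Agent.PLX
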