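import Mathlib
import Pool.Agent.Lib.PLX.RHO1
import Pool.Agent.Lib.PLX.RHO2
import Pool.Agent.Lib.PLX.TFP
import Pool.Agent.Lib.PLX.GMT
import Pool.Agent.Lib.PLX.C
import Pool.Agent.Lib.PLX.S
import Pool.Agent.Lib.PLX.X
import Pool.Agent.Lib.PLX.M
import Pool.Agent.Lib.PLX.E
import Pool.Agent.Lib.PLX.L
import Pool.Agent.Lib.PLX.A
import Pool.Agent.Lib.PLX.R
import Pool.Agent.Lib.PLX.AR
import Pool.Agent.Lib.PLX.G
import Pool.Agent.Lib.PLX.PX
import Pool.Agent.Lib.PLX.F
import Pool.Agent.Lib.PLX.Cls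
import Pool.Agent.Lib.T4S.Coh
import Pool.Agent.Lib.PLS.N
import Pool.Agent.Lib.PLS.P
import Pool.Agent.Lib.PLS.SC
import Pool.Agent.Lib.PLS.SF
import Pool.Agent.Lib.PLS.SA
import Pool.Agent.Lib.PLS.Main

/-!
# T4, stage 3 (helper45): assembly of the rows
-/

set_option autoImplicit false
set_option linter.unusedSectionVars false
set_option linter.unusedVariables false

open MonoidAlgebra Pool.Agent.UP Pool.Agent.UPV Pool.Agent.UP25 Pool.Agent.PLS

namespace Pool.Agent.PLX

universe u

attribute [local instance] starMA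

/-- **AR1 for the group rings of the groups which act on a plane with stabilisers `M`** -/
theorem rowAR_all (A H : Type u) [CommRing A] [StarRing A] [Group H] (M : Subgroup H) :
    RowAR A H M := by
  have hC : RowC A H M :=
    rowC (rowRho1 A H M) (rowRho2 A H M) (rowTFP A H M) (rowGMT A H M)
  have hS : RowS A H M :=
    rowS (rowRho1 A H M) (rowRho2 A H M) (rowTFP A H M) (rowGMT A H M) hC
  have hR : RowR A H M :=
    rowR (rowRho1 A H M) (rowRho2 A H M) (rowTFP A H M) (rowGMT A H M)
      (fun {V E F} _ _ _ P W _ _ => rowM A P W)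
      (fun {V E F} _ _ _ P W _ _ => rowE (rowX P))
      (fun {V E F} _ _ _ P W _ _ => rowL A P W)
      (fun {V E F} _ _ _ P W _ _ => rowA (rowRho1 A H M) (rowRho2 A H M) (rowTFP A H M))
      (rowP (rowN A[H]))
  exact rowAR hR hS

theorem rowG_all (A H : Type u) [CommRing A] [Group H] (M : Subgroup H) : RowG A H M :=
  rowG (fun {V E F} _ _ _ P W _ _ => rowM A P W) (fun {V E F} _ _ _ P W _ _ => rowE (rowX P))

/-- **row F without hypotheses** -/
theorem rowF_all (A : Type u) [CommRing A] [StarRing A] : RowF A :=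
  rowF (fun H _ M => rowAR_all A H M) (fun H _ M => rowG_all A H M)
    (fun H _ X _ T hE hn hc => T4S.coh_of_tree (A := A)
      ({ Γ := T.Γ, tree := T.tree, adj := T.adj, or := T.or, orP := T.orP } : T4S.TA H X)
      T.finV hE hn hc)
    rowPX (fun H K _ _ => rowSC A H K) (fun H K _ _ => rowSF A H K) (fun H K _ _ => rowSA A H K)

/-- **the facts for the class `PXd d`** -/
theorem PXd.facts {A : Type u} [CommRing A] [StarRing A] (hn : IsNoetherianRing A) (hA : AR A)
    {g : ℕ} (hg : FL A g) {d : ℕ} {H : Type u} [Group H] (h : PXd d H) :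
    Facts4 A[H] (g + d + 4) :=
  rowF_all A hn hA g hg d H h

/-- **ROW MAIN for `IsVT` together with `IsPX`** -/
theorem rowMainX (A : Type u) [CommRing A] [StarRing A] :
    RowMainC (fun H _ => IsVT H ∨ IsPX H) A :=
  rowMainC (Q := fun d H _ => PXd d H) (fun _ _ hde h => h.mono hde)
    (fun f hf h => h.of_injective f hf)
    (fun hn hA g hg d => ⟨g + d + 4, fun H _ _ h => h.facts hn hA hg⟩)

end Pool.Agent.PLX
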