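import Mathlib
import Pool.Agent.Lib.PLX.PX
import Pool.Agent.Lib.UP25.Cls

/-!
# T4, stage 3, row EXT: extensions of the groups `Surf d` by poly-`ℤ` groups
-/

set_option autoImplicit false
set_option linter.unusedVariables false

open Pool.Agent.UP Pool.Agent.UP25 Pool.Agent.PLS

namespace Pool.Agent.PLX

universe u

/-- the restriction of a homomorphism to subgroups -/
abbrev rst {G Q : Type u} [Group G] [Group Q] (f : G →* Q) (S' : Subgroup G) (S : Subgroup Q)
    (h : ∀ x ∈ S', f x ∈ S) : S' →* S :=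
  (f.comp S'.subtype).codRestrict S fun x => h x.1 x.2

theorem polyZ_rst {e : ℕ} {G Q : Type u} [Group G] [Group Q] (f : G →* Q) (h1 : PolyZ e f.ker)
    (S' : Subgroup G) (S : Subgroup Q) (h : ∀ x ∈ S', f x ∈ S) : PolyZ e (rst f S' S h).ker := by
  refine h1.of_injective (K := (rst f S' S h).ker)
      { toFun := fun g => (⟨g.1.1, congrArg Subtype.val g.2⟩ : f.ker)
        map_one' := rfl, map_mul' := fun a b => rfl } ?_
  intro a b hab
  have h2 : a.1.1 = b.1.1 := congrArg (fun y : f.ker => y.1) hab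
  exact Subtype.ext (Subtype.ext h2)

/-- extensions of poly-`ℤ` groups -/
theorem polyZ_ext {e : ℕ} (d : ℕ) : ∀ {G Q : Type u} [Group G] [Group Q] (f : G →* Q),
    PolyZ e f.ker → PolyZ d Q → PolyZ (d + e) G := by
  induction d with
  | zero =>
    intro G Q _ _ f h1 h2
    have h3 := polyZ_zero.1 h2
    rw [Nat.zero_add]
    refine h1.of_injective (K := G)
      { toFun := fun g => (⟨g, Subsingleton.elim _ _⟩ : f.ker)
        map_one' := rfl, map_mul' := fun a b => rfl } ?_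
    intro a b hab
    exact congrArg Subtype.val hab
  | succ d ih =>
    intro G Q _ _ f h1 h2
    obtain ⟨φ, hφ⟩ := polyZ_succ.1 h2
    rw [Nat.add_right_comm]
    refine polyZ_succ.2 ⟨φ.comp f, ?_⟩
    exact ih (rst f (φ.comp f).ker φ.ker fun x hx => hx) (polyZ_rst f h1 _ _ _) hφ

/-- poly-`ℤ` groups are torsion-free -/
theorem polyZ_tf (d : ℕ) : ∀ {G : Type u} [Group G], PolyZ d G →
    ∀ g : G, IsOfFinOrder g → g = 1 := by
  induction d with
  | zero =>
    intro G _ h g _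
    have h1 := polyZ_zero.1 h
    exact Subsingleton.elim _ _
  | succ d ih =>
    intro G _ h g hg
    obtain ⟨φ, hφ⟩ := polyZ_succ.1 h
    have h1 : φ g = 1 := by
      have h2 : IsOfFinOrder (φ g) := φ.isOfFinOrder hg
      by_contra h3
      obtain ⟨n, hn, h4⟩ := isOfFinOrder_iff_pow_eq_one.1 h2
      have h5 := zpow_inj_of_ne h3 (i := (n : ℤ)) (j := 0) (by
        rw [zpow_natCast, h4, zpow_zero])
      omega
    have h6 := ih hφ ⟨g, h1⟩ (by
      obtain ⟨n, hn, h7⟩ := isOfFinOrder_iff_pow_eq_one.1 hg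
      exact isOfFinOrder_iff_pow_eq_one.2 ⟨n, hn, Subtype.ext h7⟩)
    exact congrArg Subtype.val h6

/-- extensions of torsion-free groups -/
theorem tf_ext {G Q : Type u} [Group G] [Group Q] (f : G →* Q)
    (h1 : ∀ x : f.ker, IsOfFinOrder x → x = 1) (h2 : ∀ x : Q, IsOfFinOrder x → x = 1) (g : G)
    (hg : IsOfFinOrder g) : g = 1 := by
  have h3 : f g = 1 := h2 _ (f.isOfFinOrder hg)
  have h4 := h1 ⟨g, h3⟩ (by
    obtain ⟨n, hn, h7⟩ := isOfFinOrder_iff_pow_eq_one.1 hg
    exact isOfFinOrder_iff_pow_eq_one.2 ⟨n, hn, Subtype.ext h7⟩)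
  exact congrArg Subtype.val h4

/-- extensions of virtually poly-`ℤ` groups by poly-`ℤ` groups -/
theorem vpz_ext {d e : ℕ} {G Q : Type u} [Group G] [Group Q] (f : G →* Q) (h1 : PolyZ e f.ker)
    (h2 : VPZ d Q) : VPZ (d + e) G := by
  obtain ⟨N, hN, h3⟩ := h2
  exact ⟨N.comap f, s3_comap f N hN,
    polyZ_ext d (rst f (N.comap f) N fun x hx => hx) (polyZ_rst f h1 _ _ _) h3⟩

/-- the preimage of a virtually poly-`ℤ` subgroup -/
theorem vpz_comap {d e : ℕ} {G Q : Type u} [Group G] [Group Q] (f : G →* Q)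
    (h1 : PolyZ e f.ker) (S : Subgroup Q) (h2 : VPZ d S) : VPZ (d + e) (S.comap f) :=
  vpz_ext (rst f (S.comap f) S fun x hx => hx) (polyZ_rst f h1 _ _ _) h2

/-- the preimage of a torsion-free group which acts virtually on a locally finite tree -/
theorem vtd_ext {d e : ℕ} {G Q : Type u} [Group G] [Group Q] (f : G →* Q)
    (h1 : PolyZ e f.ker) (h2 : VTd d Q) : VTd (d + e) G := by
  obtain ⟨h3, N, V, iV, Γ, hN, hT, hA, hL, hS⟩ := h2
  exact ⟨tf_ext f (polyZ_tf e h1) h3, N.comap f, V,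
    MulAction.compHom V (rst f (N.comap f) N fun x hx => hx), Γ,
    s3_comap f N hN, hT, fun n x y h => hA _ x y h, hL, fun x =>
    vpz_comap _ (polyZ_rst f h1 _ _ _) (MulAction.stabilizer N x) (hS x)⟩

/-- extensions of finitely generated groups -/
theorem fg_ext {G Q : Type u} [Group G] [Group Q] (f : G →* Q) (hf : Function.Surjective f)
    (h1 : Group.FG f.ker) (h2 : Group.FG Q) : Group.FG G := by
  classical
  obtain ⟨S, hS⟩ := h1.out
  obtain ⟨T, hT⟩ := h2.out
  choose s hs using hf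
  refine ⟨⟨S.image Subtype.val ∪ T.image s, ?_⟩⟩
  rw [Finset.coe_union, Finset.coe_image, Finset.coe_image]
  set C := Subgroup.closure (Subtype.val '' (S : Set f.ker) ∪ s '' (T : Set Q)) with hC
  have hk : f.ker ≤ C := by
    intro x hx
    have h3 : (⟨x, hx⟩ : f.ker) ∈ Subgroup.closure (S : Set f.ker) := by
      rw [hS]; exact Subgroup.mem_top _
    have h4 : x ∈ (Subgroup.closure (S : Set f.ker)).map f.ker.subtype := ⟨_, h3, rfl⟩
    rw [MonoidHom.map_closure] at h4
    exact Subgroup.closure_mono (Set.subset_union_left) h4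
  have hm : C.map f = ⊤ := by
    rw [eq_top_iff, ← hT, Subgroup.closure_le]
    intro t ht
    exact ⟨s t, Subgroup.subset_closure (Or.inr ⟨t, ht, rfl⟩), hs t⟩
  rw [eq_top_iff]
  intro g _
  obtain ⟨c, hc, hcg⟩ : f g ∈ C.map f := by rw [hm]; exact Subgroup.mem_top _
  have h5 : c⁻¹ * g ∈ f.ker := by
    rw [MonoidHom.mem_ker, map_mul, map_inv, hcg, inv_mul_cancel]
  have h6 := C.mul_mem hc (hk h5)
  rwa [mul_inv_cancel_left] at h6

/-- the preimage of a finitely generated subgroup -/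
theorem fg_comap {G Q : Type u} [Group G] [Group Q] (f : G →* Q) (hf : Function.Surjective f)
    (h1 : Group.FG f.ker) (S : Subgroup Q) (h2 : Group.FG S) : Group.FG (S.comap f) := by
  refine fg_ext (rst f (S.comap f) S fun x hx => hx) ?_ ?_ h2
  · rintro ⟨q, hq⟩
    obtain ⟨g, rfl⟩ := hf q
    exact ⟨⟨g, hq⟩, rfl⟩
  · refine @Group.fg_of_surjective f.ker _ (rst f (S.comap f) S fun x hx => hx).ker _ h1
      { toFun := fun g => ⟨⟨g.1, by
          have h3 : f g.1 = 1 := g.2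
          rw [Subgroup.mem_comap, h3]
          exact S.one_mem⟩, Subtype.ext g.2⟩
        map_one' := rfl, map_mul' := fun a b => rfl } ?_
    rintro ⟨⟨g, hg⟩, hg'⟩
    exact ⟨⟨g, congrArg Subtype.val hg'⟩, rfl⟩

/-- the preimage of a `VTd d` subgroup -/
theorem vtd_comap {d e : ℕ} {G Q : Type u} [Group G] [Group Q] (f : G →* Q)
    (h1 : PolyZ e f.ker) (S : Subgroup Q) (h2 : VTd d S) : VTd (d + e) (S.comap f) :=
  vtd_ext (rst f (S.comap f) S fun x hx => hx) (polyZ_rst f h1 _ _ _) h2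

/-- **Row EXT.** -/
theorem rowExt : RowExt.{u} := by
  intro d e H _ M hM hPZ hS
  obtain ⟨hI, ⟨V, E, F, i1, i2, i3, ⟨P⟩⟩, X, iX, T, hE, hsE, hsV⟩ := hS
  have hk : PolyZ e (QuotientGroup.mk' M).ker := by
    rw [QuotientGroup.ker_mk']
    exact hPZ
  refine ⟨⟨M, hM, polyZ_tf e hPZ, ⟨⊤, inferInstance,
    (hPZ.mono (Nat.le_add_left e d)).equiv Subgroup.topEquiv.symm⟩, hI, V, E, F, i1, i2, i3,
    ⟨P⟩⟩, ?_⟩
  let aX := actM M X
  let T' : WAct H X :=
    { Γ := T.Γ, tree := T.tree, adj := fun h x y hxy => T.adj (QuotientGroup.mk' M h) x y hxy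
      or := T.or, orP := fun h x y hxy => T.orP (QuotientGroup.mk' M h) x y hxy
      finV := finite_actM M X T.finV }
  refine ⟨X, aX, T', ?_, fun ed => ?_, fun x => ⟨?_, ?_⟩⟩
  · exact finite_actM M T.E hE
  · exact vpz_comap (QuotientGroup.mk' M) hk (MulAction.stabilizer (H ⧸ M) (ed : T.E)) (hsE ed)
  · exact fg_comap (QuotientGroup.mk' M) (QuotientGroup.mk'_surjective M)
      hk.fg (MulAction.stabilizer (H ⧸ M) x) (hsV x).1
  · exact vtd_comap (QuotientGroup.mk' M) hk (MulAction.stabilizer (H ⧸ M) x) (hsV x).2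

end Pool.Agent.PLX
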