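import Mathlib
import Pool.Agent.Lib.PLX.Ext
import Pool.Agent.Lib.PLS.F2

/-!
# T4, stage 3 (helper45): properties of the class `PXd`
-/

set_option autoImplicit false
set_option linter.unusedSectionVars false
set_option linter.unusedVariables false

open Pool.Agent.UP Pool.Agent.UP25 Pool.Agent.PLS

namespace Pool.Agent.PLX

universe u

section
variable {H K : Type u} [Group H] [Group K] (f : K →* H) (X : Type u) [MulAction H X]

/-- the action through a homomorphism -/
abbrev actF : MulAction K X := MulAction.compHom X f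

theorem finite_actF (hf : Function.Surjective f)
    (h : Finite (MulAction.orbitRel.Quotient H X)) :
    Finite (@MulAction.orbitRel.Quotient K X _ (actF f X)) := by
  let _ := actF f X
  refine Finite.of_surjective (α := MulAction.orbitRel.Quotient H X)
    (Quotient.map' id fun a b hab => ?_) ?_
  · obtain ⟨q, hq⟩ := hab
    obtain ⟨g, rfl⟩ := hf q
    exact ⟨g, hq⟩
  · intro y
    obtain ⟨x, rfl⟩ := Quotient.exists_rep y
    exact ⟨Quotient.mk'' x, rfl⟩

end

/-- planes and isomorphisms -/
theorem planeCx_equiv {H K : Type u} [Group H] [Group K] (e : K ≃* H) {V E F : Type u}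
    [MulAction H V] [MulAction H E] [MulAction H F] (P : PlaneCx H V E F) :
    Nonempty (@PlaneCx K _ V E F (actF e.toMonoidHom V) (actF e.toMonoidHom E)
      (actF e.toMonoidHom F)) := by
  let a1 := actF e.toMonoidHom V
  let a2 := actF e.toMonoidHom E
  let a3 := actF e.toMonoidHom F
  have h1 : ∀ k : K, e k = 1 → k = 1 := fun k hk => by
    rw [← map_one e] at hk
    exact e.injective hk
  exact ⟨{ o := P.o, t := P.t, l := P.l, r := P.r, s := P.s
           ho := fun h x => P.ho (e h) x
           ht := fun h x => P.ht (e h) x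
           hl := fun h x => P.hl (e h) x
           hr := fun h x => P.hr (e h) x
           hs := fun h x => P.hs (e h) x
           freeV := fun h x hx => h1 h (P.freeV (e h) x hx)
           freeE := fun h x hx => h1 h (P.freeE (e h) x hx)
           freeF := fun h x hx => h1 h (P.freeF (e h) x hx)
           finV := finite_actF e.toMonoidHom V e.surjective P.finV
           finE := finite_actF e.toMonoidHom E e.surjective P.finE
           finF := finite_actF e.toMonoidHom F e.surjective P.finF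
           ne := P.ne, ex0 := P.ex0, ex1 := P.ex1, bd := P.bd, connF := P.connF }⟩

theorem polyZ_ker_equiv {H K : Type u} [Group H] [Group K] (e : K ≃* H) :
    PolyZ 0 e.toMonoidHom.ker := by
  refine polyZ_zero.2 ⟨fun a b => Subtype.ext ?_⟩
  have h1 : e a.1 = 1 := a.2
  have h2 : e b.1 = 1 := b.2
  exact e.injective (h1.trans h2.symm)

/-- the class `Surf d` is closed under isomorphisms -/
theorem surf_equiv {d : ℕ} {H K : Type u} [Group H] [Group K] (e : K ≃* H) (h : Surf d H) :
    Surf d K := by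
  obtain ⟨hI, ⟨V, E, F, i1, i2, i3, ⟨P⟩⟩, X, iX, T, hE, hsE, hsV⟩ := h
  have hk := polyZ_ker_equiv e
  refine ⟨Infinite.of_injective e.symm e.symm.injective, ⟨V, E, F, actF e.toMonoidHom V,
    actF e.toMonoidHom E, actF e.toMonoidHom F, planeCx_equiv e P⟩, ?_⟩
  let aX := actF e.toMonoidHom X
  let T' : WAct K X :=
    { Γ := T.Γ, tree := T.tree, adj := fun h x y hxy => T.adj (e h) x y hxy
      or := T.or, orP := fun h x y hxy => T.orP (e h) x y hxy
      finV := finite_actF e.toMonoidHom X e.surjective T.finV }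
  refine ⟨X, aX, T', finite_actF e.toMonoidHom T.E e.surjective hE, fun ed => ?_,
    fun x => ⟨?_, ?_⟩⟩
  · exact vpz_comap e.toMonoidHom hk (MulAction.stabilizer H (ed : T.E)) (hsE ed)
  · exact fg_comap e.toMonoidHom e.surjective hk.fg (MulAction.stabilizer H x) (hsV x).1
  · exact vtd_comap e.toMonoidHom hk (MulAction.stabilizer H x) (hsV x).2

theorem SurfX.mono {d e : ℕ} (hde : d ≤ e) {H : Type u} [Group H] (h : SurfX d H) :
    SurfX e H := by
  obtain ⟨⟨M, hM, h1, h2, h3⟩, X, i, T, h4, h5, h6⟩ := h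
  exact ⟨⟨M, hM, h1, h2.mono hde, h3⟩, X, i, T, h4, fun e => (h5 e).mono hde,
    fun x => ⟨(h6 x).1, (h6 x).2.mono hde⟩⟩

theorem PXd.mono {d e : ℕ} (hde : d ≤ e) {H : Type u} [Group H] (h : PXd d H) : PXd e H := by
  obtain ⟨H₀, i, φ, h1, h2⟩ := h
  exact ⟨H₀, i, φ, h1, h2.mono hde⟩

theorem PXd.of_injective {d : ℕ} {H K : Type u} [Group H] [Group K] (f : K →* H)
    (hf : Function.Injective f) (h : PXd d H) : PXd d K := by
  obtain ⟨H₀, i, φ, h1, h2⟩ := h
  exact ⟨H₀, i, φ.comp f, h1.comp hf, h2⟩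

theorem IsPX.of_injective {H K : Type u} [Group H] [Group K] (f : K →* H)
    (hf : Function.Injective f) (h : IsPX H) : IsPX K := by
  obtain ⟨d, h⟩ := h
  exact ⟨d, h.of_injective f hf⟩

/-- **extensions**: if `f : G → Q` is onto, the kernel is poly-`ℤ` and `Q` is a group `Surf d`,
then `G` is a group `SurfX` -/
theorem surfX_of_surjective {d e : ℕ} {G Q : Type u} [Group G] [Group Q] (f : G →* Q)
    (hf : Function.Surjective f) (hk : PolyZ e f.ker) (hQ : Surf d Q) : SurfX (d + e) G :=
  rowExt d e G f.ker inferInstance hk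
    (surf_equiv (QuotientGroup.quotientKerEquivOfSurjective f hf) hQ)

theorem pxd_of_surjective {d e : ℕ} {G Q : Type u} [Group G] [Group Q] (f : G →* Q)
    (hf : Function.Surjective f) (hk : PolyZ e f.ker) (hQ : Surf d Q) : PXd (d + e) G :=
  ⟨G, inferInstance, MonoidHom.id G, fun a b h => h, surfX_of_surjective f hf hk hQ⟩

/-- the class `PZd` -/
theorem pxd_of_pz {d : ℕ} {H : Type u} [Group H] (h : PZd d H) : PXd (d + d) H := by
  obtain ⟨H₀, i, N, j, φ, h1, h2, h3⟩ := h
  refine PXd.of_injective φ h1 (pxd_of_surjective (MonoidHom.fst H₀ N) Prod.fst_surjective ?_ h2)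
  refine h3.of_injective (K := (MonoidHom.fst H₀ N).ker)
    { toFun := fun g => g.1.2, map_one' := rfl, map_mul' := fun a b => rfl } ?_
  rintro ⟨⟨a1, a2⟩, ha⟩ ⟨⟨b1, b2⟩, hb⟩ hab
  have h4 : a1 = 1 := ha
  have h5 : b1 = 1 := hb
  have h6 : a2 = b2 := hab
  subst h4 h5 h6
  rfl

theorem isPX_of_pz {H : Type u} [Group H] (h : IsPZ H) : IsPX H := by
  obtain ⟨d, h⟩ := h
  exact ⟨d + d, pxd_of_pz h⟩

/-- the class `PSd` -/
theorem pxd_of_ps {d : ℕ} {H : Type u} [Group H] (h : PSd d H) : PXd d H := by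
  obtain ⟨H₀, i, φ, h1, h2⟩ := h
  refine PXd.of_injective φ h1 ?_
  refine (pxd_of_surjective (d := d) (e := 0) (MonoidHom.id H₀) Function.surjective_id ?_ h2)
  refine polyZ_zero.2 ⟨fun a b => Subtype.ext ?_⟩
  have h4 : a.1 = 1 := a.2
  have h5 : b.1 = 1 := b.2
  rw [h4, h5]

theorem isPX_of_ps {H : Type u} [Group H] (h : IsPS H) : IsPX H := by
  obtain ⟨d, h⟩ := h
  exact ⟨d, pxd_of_ps h⟩

end Pool.Agent.PLX
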