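import Mathlib
import Pool.Agent.Lib.PLX.Cls
import Pool.Agent.Lib.PLS.ExS

/-!
# T4, stage 3 (helper45): examples of groups in the class `PXd`: extensions of surface groups by
poly-`ℤ` groups
-/

set_option autoImplicit false
set_option linter.unusedSectionVars false
set_option linter.unusedVariables false

open Pool.Agent.UP Pool.Agent.UP25 Pool.Agent.PLS

namespace Pool.Agent.PLX

universe u

/-- a group with a poly-`ℤ` normal subgroup whose quotient is a surface group -/
theorem pxd_ext_surfGp {g k e : ℕ} {G : Type u} [Group G] (f : G →* SurfGp.{u} g k)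
    (hf : Function.Surjective f) (hk : PolyZ e f.ker) : PXd (1 + e) G :=
  pxd_of_surjective f hf hk (surf_surfGp g k)

/-- the fundamental groups of the circle bundles: the kernel is infinite cyclic -/
theorem pxd_circle {g k : ℕ} {G : Type u} [Group G] (f : G →* SurfGp.{u} g k)
    (hf : Function.Surjective f) (e : f.ker ≃* Multiplicative ℤ) : PXd (1 + 1) G := by
  refine pxd_ext_surfGp f hf (polyZ_succ.2 ⟨e.toMonoidHom, polyZ_zero.2 ⟨fun a b => ?_⟩⟩)
  have h1 : e a.1 = 1 := a.2
  have h2 : e b.1 = 1 := b.2
  exact Subtype.ext (e.injective (h1.trans h2.symm))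

/-- semidirect products of poly-`ℤ` groups with surface groups -/
theorem pxd_semidirect {g k e : ℕ} {N : Type u} [Group N] (h : PolyZ e N)
    (φ : SurfGp.{u} g k →* MulAut N) : PXd (1 + e) (SemidirectProduct N (SurfGp.{u} g k) φ) := by
  refine pxd_ext_surfGp (SemidirectProduct.rightHom (φ := φ))
    SemidirectProduct.rightHom_surjective ?_
  refine h.of_injective (K := (SemidirectProduct.rightHom (φ := φ)).ker)
    { toFun := fun x => x.1.left
      map_one' := rfl
      map_mul' := fun a b => ?_ } ?_
  · have h1 : a.1.right = 1 := a.2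
    change (a.1 * b.1).left = a.1.left * b.1.left
    rw [SemidirectProduct.mul_left, h1, map_one, MulAut.one_apply]
  · intro a b hab
    have h1 : a.1.right = 1 := a.2
    have h2 : b.1.right = 1 := b.2
    exact Subtype.ext (SemidirectProduct.ext hab (h1.trans h2.symm))

end Pool.Agent.PLX
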