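import Mathlib
import Pool.Agent.Lib.PLS.FinC
import Pool.Agent.Lib.PLS.Main

/-!
# T4: the final theorem for `IsVT` together with an arbitrary graded class `Q`
-/

set_option autoImplicit false
set_option linter.unusedSectionVars false
set_option linter.unusedVariables false

open MonoidAlgebra
open Pool.Agent.Lib.MP_98022b_UN Pool.Agent.Lib.MP_98022b_UM Pool.Agent.UP Pool.Agent.UP25
open Pool.Agent.Lib.MP_98022b_UM.UF Pool.Agent.MIX Pool.Agent.KN Pool.Agent.PLS

namespace Pool.Agent.PLX

universe u v w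

/-- **the two obstructions and regular coherence for `IsVT` together with `Q`**: `Q` is monotone,
closed under injective homomorphisms, and its finitely generated members have the facts -/
theorem finQ {Q : ℕ → (H : Type u) → [Group H] → Prop}
    (qmono : ∀ {d e : ℕ} (H : Type u) [Group H], d ≤ e → Q d H → Q e H)
    (qinj : ∀ {d : ℕ} {H K : Type u} [Group H] [Group K] (f : K →* H), Function.Injective f →
      Q d H → Q d K)
    (qfacts : ∀ (A : Type u) [CommRing A] [StarRing A], IsNoetherianRing A → AR A → ∀ g, FL A g →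
      ∀ d : ℕ, ∃ g' : ℕ, ∀ (H : Type u) [Group H], Group.FG H → Q d H → Facts4 A[H] g') :
    (∀ (A : Type u) [CommRing A] [StarRing A],
      ObstructionsOnLinesC.{u, w} (fun H _ => IsVT H ∨ ∃ d, Q d H) A) ∧
    ∀ (A : Type u) [CommRing A], GoodRing A → ∀ (H : Type u) [Group H], Group.FG H →
      (IsVT H ∨ ∃ d, Q d H) → ∀ n : ℕ,
        RegCoh (MonoidAlgebra (MonoidAlgebra A (Multiplicative (Fin n → ℤ))) H) := by
  have hI : InjC fun (H : Type u) [Group H] => ∃ d, Q d H := by
    rintro H K _ _ f hf ⟨d, h⟩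
    exact ⟨d, qinj f hf h⟩
  have hF : FactsC fun (H : Type u) [Group H] => ∃ d, Q d H := by
    rintro A _ _ hn hA g hg H _ hfg ⟨d, h⟩
    obtain ⟨g', hg'⟩ := qfacts A hn hA g hg d
    exact ⟨g', hg' H hfg h⟩
  refine ⟨fun A _ _ => obstructionsOnLinesC (C := fun H _ => IsVT H ∨ ∃ d, Q d H)
    (injC_isVT.or hI) ?_, fun A _ hA H _ hfg hH n => regCohC_laurent
      (C := fun H _ => IsVT H ∨ ∃ d, Q d H) (factsC_isVT.or hF) hA hfg hH n⟩
  exact rowMainC (Q := Q) qmono qinj (qfacts A)

end Pool.Agent.PLX
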