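import Mathlib
import Pool.Agent.Lib.PLS.FinC
import Pool.Agent.Lib.PLX.All
import Pool.Agent.Lib.PLX.ExX

/-!
# T4, stage 3: the obstructions to excision live on lines, the class `IsPX`
-/

set_option autoImplicit false
set_option linter.unusedSectionVars false
set_option linter.unusedVariables false

open MonoidAlgebra
open Pool.Agent.Lib.MP_98022b_UN Pool.Agent.Lib.MP_98022b_UM Pool.Agent.UP Pool.Agent.UP25
open Pool.Agent.Lib.MP_98022b_UM.UF Pool.Agent.MIX Pool.Agent.KN Pool.Agent.PLS
open scoped LaurentPolynomial

namespace Pool.Agent.PLX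

universe u v w

/-- **The obstructions to excision live on lines** (over the commutative ring `A` with involution).
Let `G` act on a tree and let `{p, q}` be an edge which is not inverted.

The Nil obstruction of `{p, q}` vanishes if along every line of translates of `{p, q}` the group
rings `A[H]` are regular coherent.

The UNil obstruction of `{p, q}` vanishes if `G_p` and `G_q` have no elements of order two and along
every reversible line of translates of `{p, q}` every group either is torsion-free and has a subgroup
of finite index which acts on a locally finite tree with virtually poly-`ℤ` stabilisers of bounded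
length (`IsVT`), or embeds in a (virtually poly-`ℤ`)-by-(surface) group (`IsPX`); if there is a
reversible line, `A` has to be good. -/
def ObstructionsOnLinesX (A : Type u) [CommRing A] [StarRing A] : Prop :=
  ∀ (G : Type u) [Group G] (V : Type w) [MulAction G V] (Γ : SimpleGraph V), Γ.IsTree →
    (∀ (g : G) (x y : V), Γ.Adj x y → Γ.Adj (g • x) (g • y)) →
    ∀ p q : V, Γ.Adj p q → (∀ g : G, ¬ (g • p = q ∧ g • q = p)) →
    ((∀ (l : ℤ → V) (g : ℤ → G), ELine G Γ p q l g →
        Along p q g fun H => RegCoh (MonoidAlgebra A H)) → NilVanishes A G p q) ∧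
    ((∀ g : G, g • p = p → g * g = 1 → g = 1) → (∀ g : G, g • q = q → g * g = 1 → g = 1) →
      (∀ (l : ℤ → V) (g : ℤ → G), ELine G Γ p q l g → Reversible G l →
        GoodRing A ∧ Along p q g fun H => IsVT H ∨ IsPX H) → UNilVanishes A G p q)

theorem injC_isPX : InjC fun (H : Type u) [Group H] => IsPX H :=
  fun _ _ _ _ f hf h => h.of_injective f hf

theorem factsC_isPX : FactsC fun (H : Type u) [Group H] => IsPX H := by
  intro A _ _ hn hA g hg H _ _ h
  obtain ⟨d, hd⟩ := h
  exact ⟨_, hd.facts hn hA hg⟩

/-- the two obstructions -/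
theorem obstructionsOnLinesX (A : Type u) [CommRing A] [StarRing A] :
    ObstructionsOnLinesX.{u, w} A :=
  obstructionsOnLinesC (C := fun H _ => IsVT H ∨ IsPX H) (injC_isVT.or injC_isPX) (rowMainX A)

/-- regular coherence with Laurent polynomial coefficients -/
theorem regCohX {A : Type u} [CommRing A] (hA : GoodRing A) {H : Type u} [Group H]
    (hfg : Group.FG H) (hH : IsVT H ∨ IsPX H) (n : ℕ) :
    RegCoh (MonoidAlgebra (MonoidAlgebra A (Multiplicative (Fin n → ℤ))) H) :=
  regCohC_laurent (C := fun H _ => IsVT H ∨ IsPX H) (factsC_isVT.or factsC_isPX) hA hfg hH n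

/-- **the final theorem of T4** -/
theorem finX :
    (∀ (A : Type u) [CommRing A] [StarRing A], ObstructionsOnLinesX.{u, w} A) ∧
    (∀ (A : Type u) [CommRing A], GoodRing A → ∀ (H : Type u) [Group H], Group.FG H →
      IsVT H ∨ IsPX H → ∀ n : ℕ,
        RegCoh (MonoidAlgebra (MonoidAlgebra A (Multiplicative (Fin n → ℤ))) H)) ∧
    (∀ (g k d : ℕ) (H G : Type u) [Group H] [Group G] (i : H →* G) (f : G →* SurfGp.{u} g k),
      Function.Injective i → Function.Surjective f → PolyZ d f.ker → IsPX H) ∧
    GoodRing ℤ ∧ GoodRing ℤ[T;T⁻¹] :=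
  ⟨fun A _ _ => obstructionsOnLinesX A, fun A _ hA H _ hfg hH n => regCohX hA hfg hH n,
    fun g k d H G _ _ i f hi hf hk =>
      ⟨1 + d, (pxd_ext_surfGp f hf hk).of_injective i hi⟩, goodRing_int, goodRing_laurent⟩

end Pool.Agent.PLX
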