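import Mathlib
import Pool.Agent.Lib.UP25.S2
import Pool.Agent.Lib.UP25.Cls
import Pool.Agent.Lib.PLS.Defs

/-!
# T4, stage 3v: groups which act virtually on trees, with a bound for the index
-/

set_option autoImplicit false
set_option linter.unusedSectionVars false
set_option linter.unusedVariables false

open MonoidAlgebra Pool.Agent.UP Pool.Agent.UPV Pool.Agent.UP25 Pool.Agent.PLS

namespace Pool.Agent.PLX

universe u

/-- torsion-free, and a subgroup of index at most `m` acts on a tree with virtually poly-`ℤ`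
stabilisers of length `≤ d` -/
def VTm (d m : ℕ) (H : Type u) [Group H] : Prop := (∀ h : H, IsOfFinOrder h → h = 1) ∧
  ∃ (N : Subgroup H) (V : Type u) (_ : MulAction N V) (Γ : SimpleGraph V), N.index ≠ 0 ∧
    N.index ≤ m ∧ Γ.IsTree ∧ (∀ (n : N) (x y : V), Γ.Adj x y → Γ.Adj (n • x) (n • y)) ∧
      ∀ x : V, VPZ d (MulAction.stabilizer N x)

theorem VTm.mono {d m n : ℕ} (hmn : m ≤ n) {H : Type u} [Group H] (h : VTm d m H) :
    VTm d n H := by
  obtain ⟨h1, N, V, i, Γ, h2, h3, h4, h5, h6⟩ := h
  exact ⟨h1, N, V, i, Γ, h2, h3.trans hmn, h4, h5, h6⟩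

theorem VTm.of_injective {d m : ℕ} {H K : Type u} [Group H] [Group K] (f : K →* H)
    (hf : Function.Injective f) (h : VTm d m H) : VTm d m K := by
  obtain ⟨h1, N, V, _, Γ, h2, h3, h4, h5, h6⟩ := h
  let φ : N.comap f →* N := f.subgroupComap N
  have hφ : Function.Injective φ := by
    intro a b hab
    have h7 : f a.1 = f b.1 := congrArg Subtype.val hab
    exact Subtype.ext (hf h7)
  let i : MulAction (N.comap f) V := MulAction.compHom V φ
  refine ⟨fun k hk => hf ?_, N.comap f, V, i, Γ, ?_, ?_, h4, fun n x y hxy => h5 (φ n) x y hxy,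
    fun x => ?_⟩
  · rw [map_one]
    exact h1 _ (f.isOfFinOrder hk)
  · rw [Subgroup.index_comap]
    have : N.FiniteIndex := ⟨h2⟩
    exact (inferInstance : (N.subgroupOf f.range).FiniteIndex).index_ne_zero
  · rw [Subgroup.index_comap]
    have h7 := Subgroup.relIndex_le_of_le_right (H := N) (K := f.range) (L := ⊤) le_top (by
      rw [Subgroup.relIndex_top_right]
      exact h2)
    rw [Subgroup.relIndex_top_right] at h7
    exact h7.trans h3
  · let j : MulAction.stabilizer (N.comap f) x →* MulAction.stabilizer N x :=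
      { toFun := fun a => ⟨φ a.1, a.2⟩
        map_one' := Subtype.ext (map_one φ)
        map_mul' := fun a b => Subtype.ext (map_mul φ a.1 b.1) }
    refine (h6 x).of_injective j fun a b hab => ?_
    have h7 : φ a.1 = φ b.1 := congrArg Subtype.val hab
    exact Subtype.ext (hφ h7)

theorem VTm.up {d m r : ℕ} {K : Type u} [Group K] (htf : ∀ h : K, IsOfFinOrder h → h = 1)
    (L : Subgroup K) (hL : L.index ≠ 0) (hr : L.index ≤ r) (h : VTm d m L) :
    VTm d (m * r) K := by
  obtain ⟨h1, N, V, _, Γ, h2, h3, h4, h5, h6⟩ := h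
  let φ : N.map L.subtype ≃* N := (N.equivMapOfInjective L.subtype L.subtype_injective).symm
  let i : MulAction (N.map L.subtype) V := MulAction.compHom V φ.toMonoidHom
  have h7 : (N.map L.subtype).index = N.index * L.index := by
    rw [Subgroup.index_map_subtype]
  refine ⟨htf, N.map L.subtype, V, i, Γ, ?_, ?_, h4, fun n x y hxy => h5 (φ n) x y hxy,
    fun x => ?_⟩
  · rw [h7]
    exact mul_ne_zero h2 hL
  · rw [h7]
    exact Nat.mul_le_mul h3 hr
  · let j : MulAction.stabilizer (N.map L.subtype) x →* MulAction.stabilizer N x :=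
      { toFun := fun a => ⟨φ a.1, a.2⟩
        map_one' := Subtype.ext (map_one φ)
        map_mul' := fun a b => Subtype.ext (map_mul φ a.1 b.1) }
    refine (h6 x).of_injective j fun a b hab => ?_
    have h7 : φ a.1 = φ b.1 := congrArg Subtype.val hab
    exact Subtype.ext (φ.injective h7)

theorem VTm.gd {A : Type u} [CommRing A] [StarRing A] [IsNoetherianRing A] (hA : AR A) {g : ℕ}
    (hg : FL A g) {d m : ℕ} {H : Type u} [Group H] (h : VTm d m H) :
    GD A[H] (g + d + 1 + m) := by
  obtain ⟨h1, N, V, _, Γ, h2, h3, h4, h5, h6⟩ := h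
  have hN : N.FiniteIndex := ⟨h2⟩
  refine V5_mono (gd_tree N hN Γ h4 h5 (g + d + 1) fun S x y _ hS => ?_)
    (Nat.add_le_add_left h3 _)
  exact gd_vpz hA hg (fun s hs => Subtype.ext (h1 s.1 (S.subtype.isOfFinOrder hs)))
    (vpz_of_face N hN S x y hS (h6 x))

theorem VTm.of_vtd {d : ℕ} {H : Type u} [Group H] (h : VTd d H) : ∃ m, VTm d m H := by
  obtain ⟨h1, N, V, i, Γ, h2, h3, h4, -, h5⟩ := h
  exact ⟨N.index, h1, N, V, i, Γ, h2.index_ne_zero, le_rfl, h3, h4, h5⟩

theorem VTm.bound {d : ℕ} {E : Type u} [Group E] {X : Type u} [MulAction E X] (T : WAct E X)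
    (h : ∀ x : X, VTd d (MulAction.stabilizer E x)) :
    ∃ m, ∀ x : X, VTm d m (MulAction.stabilizer E x) := by
  classical
  choose μ hμ using fun x => VTm.of_vtd (h x)
  have := T.finV
  have := Fintype.ofFinite (MulAction.orbitRel.Quotient E X)
  refine ⟨Finset.univ.sup fun q : MulAction.orbitRel.Quotient E X => μ q.out, fun x => ?_⟩
  set q : MulAction.orbitRel.Quotient E X := Quotient.mk _ x with hq
  have h1 : MulAction.orbitRel E X q.out x := Quotient.exact (by rw [Quotient.out_eq, hq])
  obtain ⟨e, he⟩ := h1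
  have he' : e • x = q.out := he
  have h2 : VTm d (μ q.out) (MulAction.stabilizer E q.out) := hμ q.out
  let j : MulAction.stabilizer E x →* MulAction.stabilizer E q.out :=
    { toFun := fun a => ⟨e * a.1 * e⁻¹, by
        rw [MulAction.mem_stabilizer_iff, mul_smul, mul_smul, ← he', inv_smul_smul, a.2]⟩
      map_one' := Subtype.ext (by simp)
      map_mul' := fun a b => Subtype.ext (by simp [mul_assoc]) }
  refine (h2.of_injective j fun a b hab => ?_).mono (Finset.le_sup (f := fun q :
    MulAction.orbitRel.Quotient E X => μ q.out) (Finset.mem_univ q))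
  have h3 : e * a.1 * e⁻¹ = e * b.1 * e⁻¹ := congrArg Subtype.val hab
  exact Subtype.ext (mul_left_cancel (mul_right_cancel h3))

end Pool.Agent.PLX
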