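import Mathlib
import Pool.Agent.Lib.PLX.All
import Pool.Agent.Lib.PLX.VTm

/-!
# T4, stage 3v: torsion-free groups with a subgroup of finite index in the class `PXd d`
-/

set_option autoImplicit false
set_option linter.unusedSectionVars false
set_option linter.unusedVariables false

open MonoidAlgebra Pool.Agent.UP Pool.Agent.UPV Pool.Agent.UP25 Pool.Agent.PLS

namespace Pool.Agent.PLX

universe u

/-- the index of the stabiliser of a vertex in the stabiliser of a face -/
theorem index_face {H : Type u} [Group H] (N : Subgroup H) (hN : N.FiniteIndex) {X : Type u}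
    [MulAction N X] (S : Subgroup H) (x y : X)
    (hS : ∀ g ∈ S, ∀ hg : g ∈ N, ((⟨g, hg⟩ : N) • x = x ∧ (⟨g, hg⟩ : N) • y = y) ∨
      ((⟨g, hg⟩ : N) • x = y ∧ (⟨g, hg⟩ : N) • y = x)) :
    (((MulAction.stabilizer N x).map N.subtype).subgroupOf S).index ≠ 0 ∧
      (((MulAction.stabilizer N x).map N.subtype).subgroupOf S).index ≤ 2 * N.index := by
  set P : Subgroup H := (MulAction.stabilizer N x).map N.subtype with hP
  have hPN : P ≤ N := by
    rintro _ ⟨n, -, rfl⟩
    exact n.2
  have h1 : P.relIndex (N ⊓ S) ≠ 0 ∧ P.relIndex (N ⊓ S) ≤ 2 := by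
    have h4 : N ⊓ S = (S.subgroupOf N).map N.subtype := by
      rw [Subgroup.subgroupOf_map_subtype, inf_comm]
    rw [h4, hP, Subgroup.relIndex_map_map_of_injective _ _ N.subtype_injective]
    have h5 : (MulAction.stabilizer N x).subgroupOf (S.subgroupOf N) =
        MulAction.stabilizer (S.subgroupOf N) x := by
      ext g
      rw [Subgroup.mem_subgroupOf, MulAction.mem_stabilizer_iff, MulAction.mem_stabilizer_iff]
      rfl
    rw [Subgroup.relIndex, h5, MulAction.index_stabilizer]
    have h2 : MulAction.orbit (S.subgroupOf N) x ⊆ {x, y} := by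
      rintro _ ⟨g, rfl⟩
      rcases hS g.1.1 g.2 g.1.2 with h | h
      · exact Or.inl h.1
      · exact Or.inr h.1
    have h3 : (MulAction.orbit (S.subgroupOf N) x).Finite := (Set.toFinite {x, y}).subset h2
    exact ⟨((Set.ncard_pos h3).2 (MulAction.nonempty_orbit x)).ne',
      (Set.ncard_le_ncard h2 (Set.toFinite _)).trans (Set.ncard_insert_le x {y} |>.trans (by
        rw [Set.ncard_singleton]))⟩
  have h6 : (N ⊓ S).relIndex S ≠ 0 ∧ (N ⊓ S).relIndex S ≤ N.index := by
    rw [Subgroup.inf_relIndex_right]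
    refine ⟨(inferInstance : (N.subgroupOf S).FiniteIndex).index_ne_zero, ?_⟩
    have h7 := Subgroup.relIndex_le_of_le_right (H := N) (K := S) (L := ⊤) le_top (by
      rw [Subgroup.relIndex_top_right]
      exact hN.index_ne_zero)
    rwa [Subgroup.relIndex_top_right] at h7
  have h8 : P.relIndex (N ⊓ S) * (N ⊓ S).relIndex S = P.relIndex S := by
    have h9 : (P ⊓ S).relIndex (N ⊓ S) = P.relIndex (N ⊓ S) := by
      rw [← Subgroup.inf_relIndex_right P (N ⊓ S), ← Subgroup.inf_relIndex_right (P ⊓ S) (N ⊓ S)]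
      congr 1
      ext g
      simp only [Subgroup.mem_inf]
      tauto
    rw [← h9, Subgroup.relIndex_mul_relIndex (P ⊓ S) (N ⊓ S) S (inf_le_inf_right S hPN)
      inf_le_right, Subgroup.inf_relIndex_right]
  change P.relIndex S ≠ 0 ∧ P.relIndex S ≤ 2 * N.index
  rw [← h8]
  exact ⟨mul_ne_zero h1.1 h6.1, Nat.mul_le_mul h1.2 h6.2⟩

/-- **finite global dimension for the torsion-free groups with a subgroup of finite index in the
class `PXd d`** -/
theorem gd_virt_px {A : Type u} [CommRing A] [StarRing A] [IsNoetherianRing A] (hA : AR A) {g : ℕ}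
    (hg : FL A g) {d : ℕ} {H : Type u} [Group H] (htf : ∀ h : H, IsOfFinOrder h → h = 1)
    (N : Subgroup H) (hN : N.FiniteIndex) (h : PXd d N) : ∃ n, GD A[H] n := by
  obtain ⟨H₀, _, φ, hφ, -, X, _, T, hE, hedge, hvert⟩ := h
  obtain ⟨m, hm⟩ := VTm.bound T (fun x => (hvert x).2)
  let _ : MulAction N X := MulAction.compHom X φ
  refine ⟨_, gd_tree N hN T.Γ T.tree (fun h x y hxy => T.adj (φ h) x y hxy)
    (g + d + 1 + m * (2 * N.index)) fun S x y _ hS => ?_⟩
  obtain ⟨h1, h2⟩ := index_face N hN S x y hS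
  set P : Subgroup H := (MulAction.stabilizer N x).map N.subtype with hP
  refine VTm.gd hA hg (VTm.up (fun s hs => Subtype.ext (htf s.1 (S.subtype.isOfFinOrder hs)))
    (P.subgroupOf S) h1 h2 ?_)
  let e : P ≃* MulAction.stabilizer N x :=
    ((MulAction.stabilizer N x).equivMapOfInjective N.subtype N.subtype_injective).symm
  let i : P.subgroupOf S →* P :=
    { toFun := fun a => ⟨a.1.1, a.2⟩
      map_one' := rfl
      map_mul' := fun _ _ => rfl }
  let j : MulAction.stabilizer N x →* MulAction.stabilizer H₀ x :=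
    { toFun := fun a => ⟨φ a.1, a.2⟩
      map_one' := Subtype.ext (map_one φ)
      map_mul' := fun a b => Subtype.ext (map_mul φ a.1 b.1) }
  refine VTm.of_injective (j.comp (e.toMonoidHom.comp i)) ?_ (hm x)
  intro a b hab
  have h3 : j (e (i a)) = j (e (i b)) := hab
  have h4 : φ (e (i a)).1 = φ (e (i b)).1 := congrArg Subtype.val h3
  have h5 : e (i a) = e (i b) := Subtype.ext (hφ h4)
  have h6 : (i a).1 = (i b).1 := congrArg Subtype.val (e.injective h5)
  exact Subtype.ext (Subtype.ext h6)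

/-! ## The class -/

/-- torsion-free with a subgroup of finite index in the class `PXd d` -/
def VPXd (d : ℕ) (H : Type u) [Group H] : Prop :=
  (∀ h : H, IsOfFinOrder h → h = 1) ∧ ∃ N : Subgroup H, N.FiniteIndex ∧ PXd d N

theorem VPXd.mono {d e : ℕ} (hde : d ≤ e) {H : Type u} [Group H] (h : VPXd d H) : VPXd e H := by
  obtain ⟨h1, N, h2, h3⟩ := h
  exact ⟨h1, N, h2, h3.mono hde⟩

theorem VPXd.of_injective {d : ℕ} {H K : Type u} [Group H] [Group K] (f : K →* H)
    (hf : Function.Injective f) (h : VPXd d H) : VPXd d K := by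
  obtain ⟨h1, N, h2, h3⟩ := h
  refine ⟨fun k hk => hf ?_, N.comap f, ⟨?_⟩, h3.of_injective (f.subgroupComap N) ?_⟩
  · rw [map_one]
    exact h1 _ (f.isOfFinOrder hk)
  · rw [Subgroup.index_comap]
    exact (inferInstance : (N.subgroupOf f.range).FiniteIndex).index_ne_zero
  · intro a b hab
    have h4 : f a.1 = f b.1 := congrArg Subtype.val hab
    exact Subtype.ext (hf h4)

attribute [local instance] starMA

/-- coherence, `AR1` and the dimension for the class `PXd d` -/
theorem PXd.facts3 {A : Type u} [CommRing A] [StarRing A] (hn : IsNoetherianRing A) (hA : AR A)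
    {g : ℕ} (hg : FL A g) {d : ℕ} {H : Type u} [Group H] (h : PXd d H) :
    CohT A[H] ∧ AR1 A[H] ∧ FL A[H] (g + d + 3) := by
  obtain ⟨H₀, _, φ, hφ, hS⟩ := h
  obtain ⟨h1, h2, h3⟩ := surfx_facts (fun H _ M => rowAR_all A H M) (fun H _ M => rowG_all A H M)
    (fun H _ X _ T hE hn hc => T4S.coh_of_tree (A := A)
      ({ Γ := T.Γ, tree := T.tree, adj := T.adj, or := T.or, orP := T.orP } : T4S.TA H X)
      T.finV hE hn hc) rowPX hn hA hg hS
  exact ⟨rowSC A H₀ H φ hφ h1, rowSA A H₀ H φ hφ h1 h2, rowSF A H₀ H φ hφ _ (fl_of_gd h3)⟩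

/-- **the facts for the class `VPXd d`** -/
theorem VPXd.facts {A : Type u} [CommRing A] [StarRing A] (hn : IsNoetherianRing A) (hA : AR A)
    {g : ℕ} (hg : FL A g) {d : ℕ} {H : Type u} [Group H] (h : VPXd d H) :
    Facts4 A[H] (g + d + 4) := by
  obtain ⟨htf, N, hN, hP⟩ := h
  obtain ⟨h1, h2, h3⟩ := hP.facts3 hn hA hg
  obtain ⟨n, h4⟩ := gd_virt_px hA hg htf N hN hP
  exact facts4_of_ar1 (coh_up N hN h1) (ar1_up N hN h1 h2)
    (fl_sharp (fl_of_gd h4) (idLE_up N hN (idLE_of_fl h3)))

end Pool.Agent.PLX
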