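import Mathlib
import Pool.Agent.Lib.PLX.VG
import Pool.Agent.Lib.PLX.All
import Pool.Agent.Lib.PLX.ExX
import Pool.Agent.Lib.PLS.FinC

/-!
# T4, stage 3 (helper45): the class `IsSE` and the final theorem

The torsion-free groups which virtually embed in (poly-`ℤ`)-by-(surface group) groups.
-/

set_option autoImplicit false
set_option linter.unusedSectionVars false
set_option linter.unusedVariables false

open MonoidAlgebra
open Pool.Agent.Lib.MP_98022b_UN Pool.Agent.Lib.MP_98022b_UM Pool.Agent.UP Pool.Agent.UP25
open Pool.Agent.Lib.MP_98022b_UM.UF Pool.Agent.MIX Pool.Agent.KN Pool.Agent.PLS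

namespace Pool.Agent.PLX

universe u v w

/-- `H` is torsion-free and a subgroup `N` of finite index embeds in a group `E` which has a
poly-`ℤ` normal subgroup whose quotient is the fundamental group `SurfGp g k` of a closed surface
(with `g + 1` handles and `k` crosscaps) -/
def IsSE (H : Type u) [Group H] : Prop :=
  (∀ h : H, IsOfFinOrder h → h = 1) ∧ ∃ (N : Subgroup H) (g k d : ℕ) (E : Type u) (_ : Group E)
    (φ : N →* E) (f : E →* SurfGp.{u} g k), N.FiniteIndex ∧ Function.Injective φ ∧
      Function.Surjective f ∧ PolyZ d f.ker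

/-- **The obstructions to excision live on lines** (over the commutative ring `A` with involution).
Let `G` act on a tree and let `{p, q}` be an edge which is not inverted.

The Nil obstruction of `{p, q}` vanishes if along every line of translates of `{p, q}` the group
rings `A[H]` are regular coherent.

The UNil obstruction of `{p, q}` vanishes if `G_p` and `G_q` have no elements of order two and along
every reversible line of translates of `{p, q}` every group is torsion-free and has a subgroup of
finite index which acts on a locally finite tree with virtually poly-`ℤ` stabilisers of bounded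
length (`IsVT`), or which embeds in a (poly-`ℤ`)-by-(surface group) group (`IsSE`); if there is a
reversible line, `A` has to be good. -/
def ObstructionsOnLinesSE (A : Type u) [CommRing A] [StarRing A] : Prop :=
  ∀ (G : Type u) [Group G] (V : Type w) [MulAction G V] (Γ : SimpleGraph V), Γ.IsTree →
    (∀ (g : G) (x y : V), Γ.Adj x y → Γ.Adj (g • x) (g • y)) →
    ∀ p q : V, Γ.Adj p q → (∀ g : G, ¬ (g • p = q ∧ g • q = p)) →
    ((∀ (l : ℤ → V) (g : ℤ → G), ELine G Γ p q l g →
        Along p q g fun H => RegCoh (MonoidAlgebra A H)) → NilVanishes A G p q) ∧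
    ((∀ g : G, g • p = p → g * g = 1 → g = 1) → (∀ g : G, g • q = q → g * g = 1 → g = 1) →
      (∀ (l : ℤ → V) (g : ℤ → G), ELine G Γ p q l g → Reversible G l →
        GoodRing A ∧ Along p q g fun H => IsVT H ∨ IsSE H) → UNilVanishes A G p q)

theorem IsSE.vpxd {H : Type u} [Group H] (h : IsSE H) : ∃ d, VPXd d H := by
  obtain ⟨h1, N, g, k, d, E, i, φ, f, h2, h3, h4, h5⟩ := h
  exact ⟨1 + d, h1, N, h2, (pxd_ext_surfGp f h4 h5).of_injective φ h3⟩

theorem IsSE.of_injective {H K : Type u} [Group H] [Group K] (f : K →* H)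
    (hf : Function.Injective f) (h : IsSE H) : IsSE K := by
  obtain ⟨h1, N, g, k, d, E, i, φ, ψ, h2, h3, h4, h5⟩ := h
  refine ⟨fun x hx => hf ?_, N.comap f, g, k, d, E, i, φ.comp (f.subgroupComap N), ψ, ⟨?_⟩, ?_,
    h4, h5⟩
  · rw [map_one]
    exact h1 _ (f.isOfFinOrder hx)
  · rw [Subgroup.index_comap]
    exact (inferInstance : (N.subgroupOf f.range).FiniteIndex).index_ne_zero
  · refine h3.comp fun a b hab => ?_
    have h6 : f a.1 = f b.1 := congrArg Subtype.val hab
    exact Subtype.ext (hf h6)

theorem injC_isSE : InjC fun (H : Type u) [Group H] => IsSE H :=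
  fun _ _ _ _ f hf h => h.of_injective f hf

theorem factsC_isSE : FactsC fun (H : Type u) [Group H] => IsSE H := by
  intro A _ _ hn hA g hg H _ _ h
  obtain ⟨d, hd⟩ := h.vpxd
  exact ⟨_, hd.facts hn hA hg⟩

/-- the main theorem for `IsVT` together with `IsSE` -/
theorem mainSE (A : Type u) [CommRing A] [StarRing A] :
    MainC (fun H _ => IsVT H ∨ IsSE H) A := by
  have h1 : RowMainC (fun H _ => IsVT H ∨ ∃ d, VPXd d H) A :=
    rowMainC (Q := fun d H _ => VPXd d H) (fun _ _ hde h => h.mono hde)
      (fun f hf h => h.of_injective f hf)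
      (fun hn hA g hg d => ⟨g + d + 4, fun H _ _ h => h.facts hn hA hg⟩)
  intro hn hA g hg Ω G _ E χ ε hG hN hε hE X
  exact h1 hn hA g hg hG hN hε
    (fun ω H hH hfg => (hE ω H hH hfg).imp id fun h => h.vpxd) X

/-- **the two obstructions** -/
theorem obstructionsSE (A : Type u) [CommRing A] [StarRing A] :
    ObstructionsOnLinesSE.{u, w} A :=
  obstructionsOnLinesC (injC_isVT.or injC_isSE) (mainSE A)

theorem regCohSE {A : Type u} [CommRing A] (hA : GoodRing A) {H : Type u} [Group H]
    (hfg : Group.FG H) (hH : IsVT H ∨ IsSE H) (n : ℕ) :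
    RegCoh (MonoidAlgebra (MonoidAlgebra A (Multiplicative (Fin n → ℤ))) H) :=
  regCohC_laurent (C := fun H _ => IsVT H ∨ IsSE H) (factsC_isVT.or factsC_isSE) hA hfg hH n

end Pool.Agent.PLX
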